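import Pool.Agent.ZPK.Defs

/-!
Squad ZPK (MP_6e1a06_nt), THEOREM K: statements with complete proofs, blocks L (logarithm, unramified
subfields) and G (roots of unity, the final lemmas).  `K` is a complete ultrametric field of
characteristic 0 whose norm extends the `p`-adic norm of `ℚ` (`Ext p K`).  Available landed rows of
ZP3 (see `Pool/Agent/ZP3/Stmts.lean`): URR URT URA THB SPL WTM WWN ROU ZKL WLM LVV DEP TAT MTH GNR;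
take them as hypotheses `(urr : URRStmt)` if `uses` says so.
-/

set_option autoImplicit false

namespace Pool.Agent.ZPK

open Polynomial Pool.Agent.ZPT Pool.Agent.ZP3

noncomputable section

/-! ### Block L -/

/-- LOG (120 lines, no hypotheses).  The logarithm exists.  PROOF.  On the group
`U₁ = {u | ‖u - 1‖ < 1}` there is the logarithm `HasLog p u l` (limit of `(u ^ (p ^ s) - 1) / p ^ s`) of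
`Pool/Agent/Helper85_Leo/LogP.lean`: existence and value by the series (`hasLog_one_sub`, with
`y = -x`), homomorphism (`HasLog.mul`), uniqueness (`HasLog.unique`); adapt the field class (there a
normed algebra over `ℚ_[p]`) or copy the short proofs (`‖(n : K)‖` is known from `Ext p K`).  The
subgroup `U₁ × ⟨p⟩` of `Kˣ` (`‖p ^ n u‖ = p ^ (-n)`, so `p ^ n u` determines `n` and `u`) has the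
homomorphism `p ^ n u ↦ log u` to the additive group `K`, which is divisible (`K` is a `ℚ` vector
space), so it extends to `Kˣ` (`Module.Baer.of_divisible` / `Module.Baer.injective` for `ℤ`-modules
`Additive Kˣ`, or Zorn).  Put `Log 0 = 0`. -/
def LogStmt : Prop := ∀ p : ℕ, p.Prime → ∀ (K : Type) [NormedField K] [CharZero K]
  [IsUltrametricDist K] [CompleteSpace K], Ext p K → ∃ Log : K → K, IsLog p Log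

/-- LGB (150 lines; uses THB, URR).  Basic facts.  PROOF.  (1), (2): homomorphism, `K` has
characteristic 0.  (3): in the series the terms `x ^ n / n`, `n ≥ 2`, have norm `< ‖x‖` if
`‖x‖ < th p`: with `p ^ j ≤ n` the largest power, `‖n‖⁻¹ ≤ p ^ j` and
`‖x‖ ^ (n - 1) < th ^ (p ^ j - 1) ≤ p ^ (-j)` (`(p ^ j - 1)/(p - 1) ≥ j`); the terms tend to `0`, so the
sum of the terms `n ≥ 2` has norm `< ‖x‖` (`x ≠ 0`).  (4): the same with `‖x‖ ≤ th ^ 2`: for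
`2 ≤ n < p` the norm is `≤ ‖x‖ ^ 2`; for `n ≥ p`, `‖x‖ ^ (n - 2) p ^ j ≤ th ^ (2 (p ^ j - 2)) p ^ j ≤ 1`.
(5): `a ^ (p ^ F - 1) = 1 + y`, `‖y‖ ≤ 1/p` (`Ur`), so `‖(p ^ F - 1) Log a‖ = ‖Log (1 + y)‖ = ‖y‖` by (3)
(`1/p < th`), and `p ^ F - 1` is a unit.  (6): `(1 + d) ^ p = 1 + d ^ p + p d (..)`; induction on `k`. -/
def LgbStmt : Prop := ∀ p : ℕ, p.Prime → 5 ≤ p → ∀ (K : Type) [NormedField K] [CharZero K]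
  [IsUltrametricDist K], Ext p K → ∀ Log : K → K, IsLog p Log →
  (Log 1 = 0 ∧ ∀ (x : K) (n : ℤ), x ≠ 0 → Log (x ^ n) = n * Log x) ∧
  (∀ x y : K, x ≠ 0 → y ≠ 0 → Log (x / y) = Log x - Log y) ∧
  (∀ x : K, Ro x → Log x = 0) ∧
  (∀ x : K, ‖x‖ < th p → ‖Log (1 + x)‖ = ‖x‖) ∧
  (∀ x : K, ‖x‖ ≤ th p ^ 2 → ‖Log (1 + x) - x‖ ≤ ‖x‖ ^ 2) ∧
  (∀ a : K, Uu p a → ‖Log a‖ ≤ (p : ℝ)⁻¹) ∧
  (∀ (d : K) (k : ℕ), ‖d‖ < 1 → ‖(1 + d) ^ (p ^ k) - 1‖ ≤ max (‖d‖ ^ (p ^ k)) (p : ℝ)⁻¹)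

/-- LGR (120 lines; uses LGB, THB).  Elements with small logarithm are close to roots of unity.
PROOF.  Let `l = Log (1 + x)`, `‖l‖ < th`.  (a) There is `d`, `‖d‖ = ‖l‖`, `Log (1 + d) = l`: `l = 0`:
`d = 0`.  `l ≠ 0`: on the closed ball `B = {‖d‖ ≤ ‖l‖}` the map `T d = l - (Log (1 + d) - d)` is a
contraction `B → B`: `Log (1 + d) - d - (Log (1 + d') - d') = Σ_{n ≥ 2} ± (d ^ n - d' ^ n)/n`, and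
`‖(d ^ n - d' ^ n)/n‖ ≤ ‖l‖ ^ (n-1) ‖n‖⁻¹ ‖d - d'‖ ≤ c ‖d - d'‖` with `c < 1` (`c` = maximum of
`‖l‖/th` and of nothing else: `‖l‖ ^ (n-1) ‖n‖⁻¹ ≤ (‖l‖/th) ^ (n-1) ≤ ‖l‖/th`).  Banach's fixed point
theorem.  LGB gives `‖d‖ = ‖l‖`.  (b) `u = (1 + x)/(1 + d)` has `‖u - 1‖ < 1` and `Log u = 0`.  For large
`N`, `‖u ^ (p ^ N) - 1‖ < th` (LGB (6): first `≤ max (..) (1/p)`), and `Log (u ^ (p ^ N)) = 0`, so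
`u ^ (p ^ N) = 1` by LGB (3).  The order of `u` is a power of `p`. -/
def LgrStmt : Prop := ∀ p : ℕ, p.Prime → 5 ≤ p → ∀ (K : Type) [NormedField K] [CharZero K]
  [IsUltrametricDist K] [CompleteSpace K], Ext p K → ∀ Log : K → K, IsLog p Log →
  ∀ x : K, ‖x‖ < 1 → ‖Log (1 + x)‖ < th p →
  ∃ ξ d : K, (ξ = 1 ∨ ∃ k : ℕ, IsPrimitiveRoot ξ (p ^ (k + 1))) ∧ 1 + x = ξ * (1 + d) ∧
    ‖d‖ = ‖Log (1 + x)‖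

/-- UNV (60 lines; uses URR).  The values of an unramified field.  PROOF.  `x ∈ L`, `‖x‖ ≤ 1` has
`Ur p x`, so `‖x‖ = 1` or `‖x‖ ≤ 1/p` (URR).  For `x ≠ 0` choose the integer `k` with
`p ^ (k-1) < ‖x‖ ≤ p ^ k`; `y = x * p ^ k` is in `L` and has norm in `(1/p, 1]`, so `‖y‖ = 1`. -/
def UnvStmt : Prop := ∀ p : ℕ, p.Prime → ∀ (K : Type) [NormedField K] [CharZero K]
  [IsUltrametricDist K], Ext p K → ∀ L : Subfield K, Unr p L →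
  (∀ x ∈ L, ‖x‖ ≤ 1 → Ur p x) ∧ ∀ x ∈ L, x ≠ 0 → ∃ k : ℤ, ‖x‖ = (p : ℝ) ^ k

/-! ### Block G -/

/-- GLA (60 lines; uses LGB, ZKL, THB).  `φ Log (w - 1)` has norm exactly `th ^ 2`.  PROOF.  ZKL (with
`k + 1`): `(w - 1) ^ φ / p * x = 1 + h`, `Ro x`, `‖h‖ = th ^ 2`.  So
`φ Log (w - 1) = Log p - Log x + Log (1 + h) = Log (1 + h)`, of norm `‖h‖` by LGB. -/
def GlaStmt : Prop := ∀ p : ℕ, p.Prime → 7 ≤ p → ∀ (K : Type) [NormedField K] [CharZero K]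
  [IsUltrametricDist K], Ext p K → ∀ Log : K → K, IsLog p Log → ∀ (k : ℕ) (w : K),
  IsPrimitiveRoot w (p ^ (k + 1)) →
  ‖((p ^ k * (p - 1) : ℕ) : K) * Log (w - 1)‖ = th p ^ 2

/-- GLB (150 lines; uses LGB, WWN, ZKL, THB).  `p ^ k Log (1 + r (w - 1))` to first order.  PROOF.
`P_j = w ^ (p ^ j) - 1`, `0 ≤ j ≤ k`, `π₁ = P_k`, `‖π₁‖ = th`.  (a) `P_j ^ p = P_(j+1) + O(1/p)` and by
induction on `j` (`(1 + x) ^ p = 1 + x ^ p + p x (..)`, `(a + δ) ^ p = a ^ p + O(max ‖δ‖ ^ p, 1/p)`)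
`(1 + r P_0) ^ (p ^ j) = 1 + r ^ (p ^ j) P_j + O(1/p)`.  So with `x = (1 + r P_0) ^ (p ^ k) - 1`,
`x = r ^ (p ^ k) π₁ + δ`, `‖δ‖ ≤ 1/p`.  (b) `Log (1 + x) = Σ ± x ^ n/n`, `‖x‖ ≤ th`: the terms
`2 ≤ n < p` are `≤ th ^ 2`; `n > p`: `≤ th ^ 2` (`‖x‖ ^ n ‖n‖⁻¹ ≤ th ^ (n - (p^j - 1)) `, `p ^ j ≤ n`,
`‖n‖⁻¹ ≤ p ^ j`, `j ≤ (p ^ j - 1)/(p - 1)`; for `n = m p ^ j` with `m ≥ 2` or `j ≥ 2` the exponent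
`n - j (p - 1)` is `≥ 2`); `n = p`: `x ^ p / p` (`p` is odd).  (c) `x ^ p = r ^ (p ^ (k+1)) π₁ ^ p + O(..)`
with error `≤ max (‖δ‖ ^ p) (‖π₁‖ ^ (p-1) ‖δ‖ / p)`, after division by `p` at most `th ^ 2`.
(d) `π₁ ^ (p-1) = - p (1 + O(th))`: `0 = ((1 + π₁) ^ p - 1)/π₁ = π₁ ^ (p-1) + p + p π₁ (..)`.  So
`x ^ p / p = - r ^ (p ^ (k+1)) π₁ + O(th ^ 2)`. -/
def GlbStmt : Prop := ∀ p : ℕ, p.Prime → 7 ≤ p → ∀ (K : Type) [NormedField K] [CharZero K]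
  [IsUltrametricDist K], Ext p K → ∀ Log : K → K, IsLog p Log → ∀ (k : ℕ) (w r : K),
  IsPrimitiveRoot w (p ^ (k + 1)) → ‖r‖ ≤ 1 →
  ‖(p : K) ^ k * Log (1 + r * (w - 1)) -
    (w ^ (p ^ k) - 1) * (r ^ (p ^ k) - r ^ (p ^ (k + 1)))‖ ≤ th p ^ 2

/-- GPS (150 lines; uses LGB, GLA, GLB, WWN, THB).  The final lemma.  `φ = p ^ k (p - 1)`,
`y = ξ (1 + d) - 1`, `P = ξ - 1`, `‖P‖ ^ (p ^ k) = th` (WWN).  PROOF.  `y = P (1 + x)`, `x = ξ d / P`,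
`‖x‖ ^ (p ^ k) < th ^ 3 / th = th ^ 2`, so `φ Log (1 + x) = (p - 1) Log ((1 + x) ^ (p ^ k))` has norm
`< th ^ 2` (LGB (6), (3); `1/p < th ^ 3`), and `‖φ Log y‖ = th ^ 2` by GLA.  First alternative:
`n = 0` or `r = 0`: the term is `0`; `r = 1`: it is `n Log (ξ (1 + d)) = n Log (1 + d)`, of norm
`< th ^ 3` (if `p ^ k ∣ n`: `= (n/p ^ k) Log ((1 + d) ^ (p ^ k))`).  So the sum has norm `th ^ 2`.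
Second alternative: `1 + r y = (1 + r P)(1 + x')`, `‖x'‖ ≤ ‖d‖`, so by GLB and LGB
`p ^ k n_i Log (1 + r_i y) = n_i π₁ (r_i ^ (p ^ k) - r_i ^ (p ^ (k+1))) + n_i O(th ^ 2)`, and
`r ^ (p ^ k) - r ^ (p ^ (k+1)) = (r - r ^ p) ^ (p ^ k) + O(1/p)`.  So the sum of the two terms with
`n_i` has norm `p ^ k * max ‖n_i‖ * th ≥ th > th ^ 2`. -/
def GpsStmt : Prop := ∀ p : ℕ, p.Prime → 7 ≤ p → ∀ (K : Type) [NormedField K] [CharZero K]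
  [IsUltrametricDist K], Ext p K → ∀ Log : K → K, IsLog p Log →
  ∀ (k : ℕ) (ξ d r₁ r₂ : K) (n₁ n₂ : ℤ), IsPrimitiveRoot ξ (p ^ (k + 1)) →
  ‖d‖ < 1 → ‖d‖ ^ (p ^ k) < th p ^ 3 → ‖r₁‖ ≤ 1 → ‖r₂‖ ≤ 1 →
  (((n₁ = 0 ∨ r₁ = 0 ∨ (r₁ = 1 ∧ (‖d‖ < th p ^ 3 ∨ (p : ℤ) ^ k ∣ n₁))) ∧
      (n₂ = 0 ∨ r₂ = 0 ∨ (r₂ = 1 ∧ (‖d‖ < th p ^ 3 ∨ (p : ℤ) ^ k ∣ n₂)))) ∨
    (‖(n₁ : K) * (r₁ - r₁ ^ p) ^ (p ^ k) + (n₂ : K) * (r₂ - r₂ ^ p) ^ (p ^ k)‖ =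
        max ‖(n₁ : K)‖ ‖(n₂ : K)‖ ∧ ((p : ℝ)⁻¹) ^ k ≤ max ‖(n₁ : K)‖ ‖(n₂ : K)‖)) →
  th p ^ 2 ≤ ‖((p ^ k * (p - 1) : ℕ) : K) * Log (ξ * (1 + d) - 1) +
    (n₁ : K) * Log (1 + r₁ * (ξ * (1 + d) - 1)) + (n₂ : K) * Log (1 + r₂ * (ξ * (1 + d) - 1))‖

/-- The genericity condition for a pair in equal states with parameters `l₁`, `l₂` and a second
coordinate `l₄` in a radial pair, at a finite base point. -/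
def Gtr {K : Type} [NormedField K] (l₁ l₂ l₄ : K) : Prop :=
  ((l₁ = 0 ∨ l₂ = 0) ∧ (l₄ = l₁ ∨ l₄ = l₂)) ∨
  (∀ m : ℤ, ‖l₄ - m * (l₁ - l₂)‖ = 1 ∧ ‖l₂ - 2 * l₄ - m * (l₁ - l₂)‖ = 1) ∨
  (l₄ = 0 ∧ (l₁ = 0 ∨ l₂ = 0 ∨ ∀ m : ℤ, ‖l₂ - m * (l₁ - l₂)‖ = 1))

/-- GTP (80 lines; uses SPL, WTM, WWN, ROU, URR, THB).  A pair in equal states.  PROOF.  Split
`ζ = ζ_t ξ` (SPL).  Modulo the maximal ideal `h ≡ ζ_t`, so `h/ζ_t = 1 + O(1/p)` (URR) and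
`(1 + l₁ z)/(1 + l₂ z) = ξ (1 + d)`, `‖d‖ ≤ max ρ (1/p)`.  The left side minus `1` is
`(l₁ - l₂) z/(1 + l₂ z)`, of norm `‖z‖ > max ρ (1/p)`; so `ξ ≠ 1` and `‖ξ - 1‖ = ‖z‖`; WWN. -/
def GtpStmt : Prop := ∀ p : ℕ, p.Prime → 7 ≤ p → ∀ (K : Type) [NormedField K] [CharZero K]
  [IsUltrametricDist K], Ext p K → ∀ (z l₁ l₂ h ζ : K) (ρ : ℝ), ρ < th p ^ 3 → th p ≤ ‖z‖ → ‖z‖ < 1 →
  Ur p l₁ → Ur p l₂ → ‖l₁ - l₂‖ = 1 → Uu p h → Ro ζ →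
  ‖h * (1 + l₁ * z) - ζ * (1 + l₂ * z)‖ ≤ ρ →
  ∃ (k : ℕ) (ξ d : K), IsPrimitiveRoot ξ (p ^ (k + 1)) ∧ ‖d‖ ≤ max ρ (p : ℝ)⁻¹ ∧
    (1 + l₁ * z) = ξ * (1 + d) * (1 + l₂ * z) ∧ ‖z‖ = ‖ξ - 1‖ ∧
    ‖z‖ ^ (p ^ k * (p - 1)) = (p : ℝ)⁻¹

/-- GTF (200 lines, STRONG; uses LGB, GPS, GTP, THB).  A pair in equal states and a radial pair near a
finite base point exclude each other.  PROOF.  GTP: `Y = (1 + l₁ z)/(1 + l₂ z) = ξ (1 + d)`, `k`,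
`φ = p ^ k (p - 1)`, `‖z‖ ^ φ = 1/p`.  `‖p Qv‖ = ‖z‖`, `‖p Qu‖ = 1`, so `Qv ^ A = Qu ^ B` gives
`‖z‖ ^ A = p ^ (B - A)`, so `A = (A - B) φ`, `B = (A - B)(φ - 1)`, `A > B`, and
`φ Log Qv = (φ - 1) Log Qu`.  `p Qv = a z (1 + ε)`, `‖ε‖ ≤ ρ/th`, `p Qu = h₄ (1 + l₄ z)(1 + ε')`.  With
`y = Y - 1`: `z = y/((l₁ - l₂)(1 + r y))`, `r = -l₂/(l₁ - l₂)`, and
`1 + l₄ z = (1 + r' y)/(1 + r y)`, `r' = (l₄ - l₂)/(l₁ - l₂)`.  So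
`Ψ = φ Log y - Log (1 + r y) - (φ - 1) Log (1 + r' y)` is a sum of terms `φ Log a`,
`φ Log (l₁ - l₂)`, `(φ-1) Log h₄`, `φ Log (1 + ε)`, `(φ-1) Log (1 + ε')`, of norm `< th ^ 2`.  GPS gives
`‖Ψ‖ ≥ th ^ 2`: first case of `Gtr`: `r, r' ∈ {0, 1}`.  Second case (`n₁ = -1`, `n₂ = -(φ - 1)`):
`r - r' = -l₄/(l₁ - l₂)`, `r - 2 r' = (l₂ - 2 l₄)/(l₁ - l₂)`; if `‖x - m‖ = 1` for all integers `m` then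
`‖x - x ^ p‖ = 1` (`x ^ p - x ≡ Π_(0≤m<p) (x - m)` modulo `p`); `k ≥ 1`: `φ - 1 ≡ -1`, `k = 0`:
`φ - 1 ≡ -2` modulo `p`, and `x ↦ (x - x ^ p) ^ (p ^ k)` is additive modulo `p` and commutes with
integer factors modulo `p`.  Third case: `r' = r`, `Ψ = φ Log y - φ Log (1 + r y)`: `n₁ = -φ`, `n₂ = 0`. -/
def GtfStmt : Prop := ∀ p : ℕ, p.Prime → 11 ≤ p → ∀ (K : Type) [NormedField K] [CharZero K]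
  [IsUltrametricDist K], Ext p K → ∀ Log : K → K, IsLog p Log →
  ∀ (z l₁ l₂ l₄ h a h₄ ζ Qv Qu : K) (A B : ℕ) (ρ : ℝ), ρ < th p ^ 6 → th p ≤ ‖z‖ → ‖z‖ < 1 →
  Ur p l₁ → Ur p l₂ → Ur p l₄ → ‖l₁ - l₂‖ = 1 → Uu p h → Uu p a → Uu p h₄ → Ro ζ →
  ‖h * (1 + l₁ * z) - ζ * (1 + l₂ * z)‖ ≤ ρ → ‖(p : K) * Qv - a * z‖ ≤ ρ →
  ‖(p : K) * Qu - h₄ * (1 + l₄ * z)‖ ≤ ρ → 1 ≤ A → 1 ≤ B → Qv ^ A = Qu ^ B → Gtr l₁ l₂ l₄ → False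

/-- GTI (150 lines; uses LGB, GPS, GTP, THB).  The same at infinity: `z = 1/w`, the pair in equal states
has `p Q = (a/z)(1 + l z)`, the radial pair is `(Qv, Qu)` with `p Qv = (a/z)(1 + l₃ z)`, `p Qu = h₄`.
PROOF.  As GTF: `‖z‖ ^ φ = 1/p`, `‖p Qv‖ = ‖z‖⁻¹`, `‖p Qu‖ = 1`, so `B = A + A'`, `A = A' φ` and
`φ Log Qv = (φ + 1) Log Qu`; `z = y/((l₁ - l₂)(1 + r y))` as in GTF,
`1 + l₃ z = (1 + r' y)/(1 + r y)`, `r' = (l₃ - l₂)/(l₁ - l₂)`, so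
`φ (-Log z + Log (1 + l₃ z)) = φ (-Log y + Log (1 + r' y)) + φ Log (l₁ - l₂)` and
`Ψ = φ Log y - φ Log (1 + r' y)` has norm `< th ^ 2`.  GPS with `n₁ = -φ`, `n₂ = 0`. -/
def GtiStmt : Prop := ∀ p : ℕ, p.Prime → 11 ≤ p → ∀ (K : Type) [NormedField K] [CharZero K]
  [IsUltrametricDist K], Ext p K → ∀ Log : K → K, IsLog p Log →
  ∀ (z l₁ l₂ l₃ h a h₄ ζ Qv Qu : K) (A B : ℕ) (ρ : ℝ), ρ < th p ^ 6 → th p ≤ ‖z‖ → ‖z‖ < 1 →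
  Ur p l₁ → Ur p l₂ → Ur p l₃ → ‖l₁ - l₂‖ = 1 → Uu p h → Uu p a → Uu p h₄ → Ro ζ →
  ‖h * (1 + l₁ * z) - ζ * (1 + l₂ * z)‖ ≤ ρ → ‖(p : K) * Qv * z - a * (1 + l₃ * z)‖ ≤ ρ →
  ‖(p : K) * Qu - h₄‖ ≤ ρ → 1 ≤ A → 1 ≤ B → Qv ^ A = Qu ^ B →
  (l₃ = l₁ ∨ l₃ = l₂ ∨ ∀ m : ℤ, ‖l₃ - l₂ - m * (l₁ - l₂)‖ = 1) → False

/-- GTT (100 lines; uses GTP, WWN, URR, THB).  Two pairs in equal states exclude each other.  PROOF.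
GTP for both: `ξ`, `ξ'` with `‖ξ - 1‖ = ‖z‖ = ‖ξ' - 1‖`, so they have the same order `p ^ (k+1)` (the
norms in WWN) and `ξ = ξ' ^ m`, `1 ≤ m`, `p ∤ m` (`IsPrimitiveRoot.eq_pow_of_pow_eq_one`).
`(1 + l₁ z)/(1 + l₂ z) - 1 = (l₁ - l₂) z + O(‖z‖ ^ 2)`, `ξ - 1 = m (ξ' - 1) + O(‖z‖ ^ 2)`,
`ξ' - 1 = (l₃ - l₄) z + O(‖z‖ ^ 2, ρ')`; so `‖(l₁ - l₂) - m (l₃ - l₄)‖ ≤ max ‖z‖ (ρ'/‖z‖) < 1`,
`ρ' = max ρ (1/p) < th ^ 3 ≤ th ^ 2 ‖z‖`. -/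
def GttStmt : Prop := ∀ p : ℕ, p.Prime → 7 ≤ p → ∀ (K : Type) [NormedField K] [CharZero K]
  [IsUltrametricDist K], Ext p K → ∀ (z l₁ l₂ l₃ l₄ h h' ζ ζ' : K) (ρ : ℝ), ρ < th p ^ 3 →
  th p ≤ ‖z‖ → ‖z‖ < 1 → Ur p l₁ → Ur p l₂ → Ur p l₃ → Ur p l₄ → ‖l₁ - l₂‖ = 1 → ‖l₃ - l₄‖ = 1 →
  Uu p h → Uu p h' → Ro ζ → Ro ζ' → ‖h * (1 + l₁ * z) - ζ * (1 + l₂ * z)‖ ≤ ρ →
  ‖h' * (1 + l₃ * z) - ζ' * (1 + l₄ * z)‖ ≤ ρ →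
  (∀ m : ℤ, ‖l₁ - l₂ - m * (l₃ - l₄)‖ = 1) → False

/-- FIN (80 lines; uses RV = `ZPT.RVStmt`).  Roots of unity in finitely many smaller discs have bounded
order.  PROOF.  For each `a ∈ S` choose (if possible) a root of unity `ζ_a` with `‖ζ_a - a‖ ≤ ρ`, of
order `M_a`; if `ζ` is another one then `‖ζ/ζ_a - 1‖ ≤ ρ`, so `(ζ/ζ_a) ^ (p ^ R) = 1` with `R` from RV.
`M = p ^ R Π M_a`. -/
def FinStmt : Prop := ∀ p : ℕ, p.Prime → 3 ≤ p → ∀ (K : Type) [NormedField K] [CharZero K]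
  [IsUltrametricDist K], Ext p K → ∀ (S : Finset K) (ρ : ℝ), ρ < 1 → ∃ M : ℕ, 1 ≤ M ∧
  ∀ ζ : K, Ro ζ → (∃ a ∈ S, ‖ζ - a‖ ≤ ρ) → ζ ^ M = 1

/-- GNU (80 lines, no hypotheses).  Quantitative GNR.  PROOF.  `N ≠ 0`; if `N` is a constant `c` then
`‖c‖ = ‖N.coeff 0‖ ≥ 1 > ρ` and nothing is to be shown (`R = ∅`).  Otherwise
`N = c Π (X - r_i)`, `D` factors; for `‖T‖ ≤ 1`, `‖N(T)‖ = ‖c‖ Π_(‖r_i‖>1) ‖r_i‖ * Π_(‖r_i‖≤1) ‖T - r_i‖`,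
the first factor is `≥ ‖N.coeff i‖ ≥ 1` for the given `i` (coefficients of a product).  So
`Π_(‖r_i‖≤1) ‖T - r_i‖ ≤ ρ` and one of the factors is `≤ ρ ^ (1/D)` (all factors are `≤ 1`); there is
at least one such factor as `ρ < 1`.  `ρ' = ρ ^ (1/D) < 1` (`ρ' = 0` if `ρ ≤ 0`: replace `ρ` by
`max ρ (1/2)`). -/
def GnuStmt : Prop := ∀ (K : Type) [NormedField K] [IsUltrametricDist K] [IsAlgClosed K] (N : K[X])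
  (ρ : ℝ), (∃ i, 1 ≤ ‖N.coeff i‖) → ρ < 1 →
  ∃ (R : Finset K) (ρ' : ℝ), ρ' < 1 ∧ ∀ T : K, ‖T‖ ≤ 1 → ‖N.eval T‖ ≤ ρ → ∃ r ∈ R, ‖T - r‖ ≤ ρ'

end

end Pool.Agent.ZPK
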