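import Pool.Agent.ZPK.Gen

/-!
Squad ZPK (MP_6e1a06_nt), THEOREM K: block R, first part: expansions of the Tate parameters in strict
states, tools (roots of unity, logarithm, binomials, arithmetic).  `th = th p = p ^ (-1/(p-1))`,
`rh = rh p E = p ^ (-1/(2 E))`; everywhere `1000 (E + 1) ^ 2 < p`.
Large coordinate (`La`): `F = t ^ e * q⁻¹ / A 0`; small coordinate (`Sm`): `nu = p * q⁻¹`.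
-/

set_option autoImplicit false

namespace Pool.Agent.ZPK

open Polynomial Pool.Agent.ZPT Pool.Agent.ZP3

noncomputable section

/-- The radius `p ^ (-1/(2 E))`. -/
def rh (p E : ℕ) : ℝ := (p : ℝ) ^ (-(1 : ℝ) / (2 * (E : ℝ)))

/-- A radial pair at `t`: large coordinate with parameter `q = t ^ e / (a F)`, small coordinate with
parameter `p / nu`; `‖t‖ = p ^ (-s)`. -/
structure Rp (p : ℕ) {K : Type} [NormedField K] (Log : K → K) (s : ℚ) (e : ℕ) (t a F nu : K) :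
    Prop where
  s0 : 0 < s
  tn : ‖t‖ = (p : ℝ) ^ (-(s : ℝ))
  rt : ∀ A B : ℕ, 1 ≤ A → (B : ℚ) = s * A →
    ∃ ζ : K, Ro ζ ∧ (t ^ e / (a * F)) ^ A = ζ * ((p : K) / nu) ^ (e * B)
  lg : (e : K) * Log t - Log a - Log F = -((e : K) * ((s : ℚ) : K) * Log nu)
  tc : ∀ A B : ℕ, 1 ≤ A → (B : ℚ) = s * A → ∃ M : ℕ, 1 ≤ M ∧ ‖(t ^ A / (p : K) ^ B) ^ M - 1‖ < 1

/-- The slope of a large coordinate of exponent `e'` at the critical radius of `e ≤ e'`. -/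
def lL {K : Type} [Field K] (e e' : ℕ) (A : ℕ → K) (g : K) : K := if e' = e then g / A 0 else 0

/-- The slope of a small coordinate of exponent `e'` at the critical radius of `e ≥ e'`. -/
def lS {K : Type} [Field K] (e e' : ℕ) (A : ℕ → K) (g : K) : K := if e' = e then A 0 / g else 0

/-- NUM (60 lines, no hypotheses).  Real numbers.  PROOF.  All numbers are powers of `p`:
`th = p ^ (-1/(p-1))`, `rh = p ^ (-1/(2E))`.  (1) `1/(2E) ≤ 1`, `1/(2E) > 20/(p-1)`.  (2) `x ^ e < 1/p` gives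
`x < p ^ (-1/e) ≤ p ^ (-1/E) ≤ rh`.  (3) `th ^ 2 ≤ x ^ e p` gives `x ≥ p ^ (-(1 + 2/(p-1))/e)`, so
`p⁻¹ / x ^ e' ≤ p ^ (-1 + (1 + 2/(p-1)) e'/e)` and for `e' ≤ e - 1` the exponent is
`≤ -1/e + 2/(p-1) ≤ -1/(2 E)`.  (4) `th ^ 2 ≤ p⁻¹ / x ^ e` gives `x ≤ p ^ (-(1 - 2/(p-1))/e)`, so `x ≤ rh`
and for `e' ≥ e + 1`: `x ^ e' p ≤ p ^ (1 - (1 - 2/(p-1))(1 + 1/e))`, exponent
`≤ -1/e + (2/(p-1))(1 + 1/e) ≤ -1/(2E)`. -/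
def NumStmt : Prop := ∀ p E : ℕ, p.Prime → 1 ≤ E → 1000 * (E + 1) ^ 2 < p →
  (p : ℝ)⁻¹ ≤ rh p E ∧ 0 < rh p E ∧ rh p E < th p ^ 20 ∧
  ∀ (x : ℝ) (e : ℕ), 0 < x → x < 1 → 1 ≤ e → e ≤ E →
    (x ^ e < (p : ℝ)⁻¹ → x ≤ rh p E) ∧
    (x ^ e < (p : ℝ)⁻¹ → th p ^ 2 ≤ x ^ e * p → ∀ e' < e, (p : ℝ)⁻¹ / x ^ e' ≤ rh p E) ∧
    (th p ^ 2 ≤ (p : ℝ)⁻¹ / x ^ e → x ≤ rh p E ∧ ∀ e' : ℕ, e < e' → x ^ e' * p ≤ rh p E)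

/-- RLA (100 lines; uses TAT).  Expansion of a large coordinate.  PROOF.  `X = jv U q`.  TAT:
`‖X‖ = ‖q‖⁻¹` and `‖q⁻¹ - X‖ ≤ 1`.  `X = (Σ' A_n t ^ n)/t ^ e + g/p`, `‖Σ' A_n t ^ n - Σ_(n<N) A_n t ^ n‖ ≤ ‖t‖ ^ N`,
in particular `‖Σ' A_n t ^ n‖ = ‖A 0‖ = 1`; `‖X‖ = ‖t‖ ^ (-e) > p = ‖g/p‖`.  Multiply by `t ^ e/A 0`. -/
def RlaStmt : Prop := ∀ U : PowerSeries ℚ, IsU U → ∀ p : ℕ, p.Prime → 5 ≤ p →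
  ∀ (K : Type) [NormedField K] [CharZero K] [IsUltrametricDist K] [CompleteSpace K], Ext p K →
  ∀ (L : Subfield K) (e : ℕ) (A : ℕ → K) (g : K), Cd L e A g → 1 ≤ e → ∀ t q : K, 0 < ‖t‖ →
  ‖t‖ < 1 → La p e t → At p U e A g t q → ‖q‖ = ‖t‖ ^ e ∧ ∀ N : ℕ, 1 ≤ N →
    ‖t ^ e * q⁻¹ / A 0 - (∑ n ∈ Finset.range N, A n / A 0 * t ^ n + g / A 0 * (t ^ e / p))‖ ≤
      max (‖t‖ ^ N) (‖t‖ ^ e)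

/-- RSM (100 lines; uses TAT).  Expansion of a small coordinate.  PROOF.  As RLA: `p X = g +
(p/t ^ e) Σ' A_n t ^ n` has norm 1 (`‖p/t ^ e‖ < 1`), so `‖q‖ = 1/p`, and
`‖p q⁻¹ - (p X - p u₁)‖ ≤ ‖p q‖ = p ^ (-2)`. -/
def RsmStmt : Prop := ∀ U : PowerSeries ℚ, IsU U → ∀ p : ℕ, p.Prime → 5 ≤ p →
  ∀ (K : Type) [NormedField K] [CharZero K] [IsUltrametricDist K] [CompleteSpace K], Ext p K →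
  ∀ (L : Subfield K) (e : ℕ) (A : ℕ → K) (g : K), Cd L e A g → ∀ t q : K, 0 < ‖t‖ →
  ‖t‖ < 1 → Sm p e t → At p U e A g t q → ‖q‖ = (p : ℝ)⁻¹ ∧
    ‖(p : K) * q⁻¹ - (g + A 0 * (p / t ^ e))‖ ≤ max ((p : ℝ)⁻¹) (‖(p : K) / t ^ e‖ * ‖t‖) ∧
    (e = 0 → ‖(p : K) * q⁻¹ - (g + p * (A 0 - ((PowerSeries.coeff 1 U : ℚ) : K)))‖ ≤
      max ‖t‖ ((p : ℝ)⁻¹) * (p : ℝ)⁻¹)

/-- RNL (60 lines; uses RLA).  A large coordinate at the radius of `e ≤ e'`, `w = t ^ e / p`.  PROOF.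
RLA with `N = 1`; if `e' > e` then `‖t ^ e' / p‖ ≤ ‖t‖ ‖w‖`. -/
def RnlStmt : Prop := ∀ U : PowerSeries ℚ, IsU U → ∀ p : ℕ, p.Prime → 5 ≤ p →
  ∀ (K : Type) [NormedField K] [CharZero K] [IsUltrametricDist K] [CompleteSpace K], Ext p K →
  ∀ (L : Subfield K) (e e' : ℕ) (A : ℕ → K) (g : K), Cd L e' A g → 1 ≤ e → e ≤ e' → ∀ t q : K,
  0 < ‖t‖ → La p e t → At p U e' A g t q → ‖t‖ < 1 ∧ ‖q‖ = ‖t‖ ^ e' ∧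
    ‖t ^ e' * q⁻¹ / A 0 - (1 + lL e e' A g * (t ^ e / p))‖ ≤ ‖t‖ ∧ ‖t ^ e' * q⁻¹ / A 0 - 1‖ < 1

/-- RNS (60 lines; uses RSM).  A small coordinate at the radius of `e ≥ e'`, `w = p / t ^ e`.  PROOF.
RSM; `1/p = ‖t‖ ^ e ‖w‖ ≤ ‖t‖ ‖w‖`, and if `e' < e` then `‖p / t ^ e'‖ ≤ ‖t‖ ‖w‖`. -/
def RnsStmt : Prop := ∀ U : PowerSeries ℚ, IsU U → ∀ p : ℕ, p.Prime → 5 ≤ p →
  ∀ (K : Type) [NormedField K] [CharZero K] [IsUltrametricDist K] [CompleteSpace K], Ext p K →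
  ∀ (L : Subfield K) (e e' : ℕ) (A : ℕ → K) (g : K), Cd L e' A g → 1 ≤ e → e' ≤ e → ∀ t q : K,
  0 < ‖t‖ → ‖t‖ < 1 → Sm p e t → At p U e' A g t q → ‖q‖ = (p : ℝ)⁻¹ ∧
    ‖(p : K) * q⁻¹ - g * (1 + lS e e' A g * (p / t ^ e))‖ ≤ ‖t‖ * ‖(p : K) / t ^ e‖

/-- RPX (150 lines; uses RLA, RSM, LGB, UNV, URR).  A radial pair.  PROOF.  `F = t ^ e q⁻¹/A 0`,
`nu = p q'⁻¹`, so `q = t ^ e/(A 0 F)`, `q' = p/nu`.  `q ^ a = q' ^ b`, `‖q‖ = ‖t‖ ^ e`, `‖q'‖ = 1/p`, so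
`‖t‖ ^ (e a) = p ^ (-b)`, `s = b/(e a)`.  `rt`: `(q ^ A/q' ^ (e B)) ^ b = q ^ (A b)/(q' ^ b) ^ (e B) =
q ^ (A b - a e B) = 1` as `A b = a e B`.  `lg`: `Log` of `rt` for `s = B/A` (`Log ζ = 0`, `Log p = 0`), divide
by `A`.  `tc`: by `rt`, `(t ^ A/p ^ B) ^ e = ζ (A 0 F) ^ A/nu ^ (e B)`; `‖F - 1‖ < 1`, `‖nu - g'‖ < 1` (RLA with
`N = 1`, RSM), `A 0` and `g'` are in `L`, so `x ^ (p ^ F₀ - 1) ≡ 1` for them (UNV, URR), `ζ ^ M₀ = 1`.  A product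
of these exponents and `e`. -/
def RpxStmt : Prop := ∀ U : PowerSeries ℚ, IsU U → ∀ p : ℕ, p.Prime → 5 ≤ p →
  ∀ (K : Type) [NormedField K] [CharZero K] [IsUltrametricDist K] [CompleteSpace K], Ext p K →
  ∀ Log : K → K, IsLog p Log → ∀ L : Subfield K, Unr p L →
  ∀ (e e' : ℕ) (A A' : ℕ → K) (g g' : K), Cd L e A g → Cd L e' A' g' → 1 ≤ e → ∀ t q q' : K,
  0 < ‖t‖ → La p e t → Sm p e' t → At p U e A g t q → At p U e' A' g' t q' → Dep q q' →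
  ∃ s : ℚ, Rp p Log s e t (A 0) (t ^ e * q⁻¹ / A 0) ((p : K) * q'⁻¹)

/-- LRX (60 lines; uses LGB, LGR).  Elements of the torsion class with small logarithm.  PROOF.
`Π_(ζ ^ M = 1) (x - ζ) = x ^ M - 1` has norm `< 1`, so `‖x - ζ₀‖ < 1` for one `ζ₀`; `x/ζ₀ = 1 + y`,
`‖y‖ < 1`, `Log (1 + y) = Log x` (LGB (3)); LGR. -/
def LrxStmt : Prop := ∀ p : ℕ, p.Prime → 5 ≤ p → ∀ (K : Type) [NormedField K] [CharZero K]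
  [IsUltrametricDist K] [CompleteSpace K] [IsAlgClosed K], Ext p K → ∀ Log : K → K, IsLog p Log →
  ∀ x : K, (∃ M : ℕ, 1 ≤ M ∧ ‖x ^ M - 1‖ < 1) → ‖Log x‖ < th p →
  ∃ ζ d : K, Ro ζ ∧ x = ζ * (1 + d) ∧ ‖d‖ = ‖Log x‖

/-- UNC (120 lines; uses UNV, URR, URT, SPL, WTM, WWN, THB).  Values of `α - ζ β`, `α, β ∈ L`.  PROOF.
If `‖α‖ ≠ ‖β‖` or one is `0`: the norm is `0` or `max`, UNV.  Otherwise `‖α - ζ β‖ = ‖β‖ ‖u - ζ‖`, `u = α/β ∈ L`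
a unit, `‖β‖ = p ^ k`.  `‖u - ζ‖ = 1`: done.  `‖u - ζ‖ < 1`: `ζ = ζ_t ξ` (SPL), `ξ ≡ 1`, so `‖u - ζ_t‖ < 1`, and
`≤ 1/p` as both are in `Ur` (URT, URR).  If `ξ ≠ 1` then `‖ξ - 1‖ ≥ th > 1/p`, `‖u - ζ‖ = ‖ξ - 1‖`, WWN.  If `ξ = 1`:
let `‖u ^ (p ^ F) - u‖ ≤ 1/p` (`F ≥ 1`); it is `0` or in `p ^ ℤ` (UNV).  `ζ_t ^ (p ^ F) ≡ u ^ (p ^ F) ≡ u ≡ ζ_t`, so
`ζ_t ^ (p ^ F) = ζ_t` (WTM).  `x ≡ y` modulo `p` implies `‖x ^ p - y ^ p‖ ≤ ‖x - y‖/p`, so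
`‖u ^ (p ^ F) - ζ_t‖ ≤ ‖u - ζ_t‖/p`, hence `‖u - ζ_t‖ = ‖u - u ^ (p ^ F)‖`. -/
def UncStmt : Prop := ∀ p : ℕ, p.Prime → 5 ≤ p → ∀ (K : Type) [NormedField K] [CharZero K]
  [IsUltrametricDist K], Ext p K → ∀ L : Subfield K, Unr p L → ∀ α ∈ L, ∀ β ∈ L, ∀ ζ : K, Ro ζ →
  ‖α - ζ * β‖ = 0 ∨ (∃ k : ℤ, ‖α - ζ * β‖ = (p : ℝ) ^ k) ∨ ∃ (k : ℤ) (h : ℕ),
    ‖α - ζ * β‖ ^ (p ^ h * (p - 1)) = ((p : ℝ) ^ k) ^ (p ^ h * (p - 1)) * (p : ℝ)⁻¹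

/-- LGN (120 lines, no hypotheses).  The norm of the logarithm at a noncritical radius.  PROOF.
`x_i = p ^ i ‖y‖ ^ (p ^ i)` has `x_(i+1)/x_i = p ‖y‖ ^ (p ^ i (p-1))`.  Let `j` be the least `i` with
`‖y‖ ^ (p ^ i (p-1)) < 1/p` (exists).  Then `x_i < x_j` for all `i ≠ j`.  The term of the series with index
`n = u p ^ i`, `p ∤ u`, has norm `p ^ i ‖y‖ ^ (u p ^ i) ≤ x_i`, with `<` for `u > 1`; the terms tend to `0`.  So the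
term `n = p ^ j` is strictly larger than the sum of all the others. -/
def LgnStmt : Prop := ∀ p : ℕ, p.Prime → 3 ≤ p → ∀ (K : Type) [NormedField K] [CharZero K]
  [IsUltrametricDist K], Ext p K → ∀ Log : K → K, IsLog p Log →
  ∀ y : K, 0 < ‖y‖ → ‖y‖ < 1 → (∀ h : ℕ, ‖y‖ ^ (p ^ h * (p - 1)) ≠ (p : ℝ)⁻¹) →
  ∃ j : ℕ, ‖y‖ ^ (p ^ j * (p - 1)) < (p : ℝ)⁻¹ ∧
    (1 ≤ j → (p : ℝ)⁻¹ < ‖y‖ ^ (p ^ (j - 1) * (p - 1))) ∧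
    ‖Log (1 + y)‖ = (p : ℝ) ^ j * ‖y‖ ^ (p ^ j) ∧ ‖y‖ ≤ ‖Log (1 + y)‖

/-- BIN (100 lines, no hypotheses).  PROOF.  `(1 + y) ^ (p ^ k) - 1 - y ^ (p ^ k) = Σ_(0<i<p^k) C(p ^ k, i) y ^ i`,
`v_p(C(p ^ k, i)) = k - v_p(i)` (`Nat.Prime.multiplicity_choose_prime_pow` or
`i C(p ^ k, i) = p ^ k C(p ^ k - 1, i - 1)` and `p ∤ C(p ^ k - 1, i - 1)`).  For `v_p(i) = j` the norm is
`≤ x_j = p ^ (j-k) ‖y‖ ^ (p ^ j)`, with `<` for `i ≠ p ^ j`; `x_(j+1)/x_j = p ‖y‖ ^ (p ^ j (p-1)) > 1` for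
`j + 1 ≤ k - 1` by hypothesis.  So the term `i = p ^ (k-1)` is the unique largest one. -/
def BinStmt : Prop := ∀ p : ℕ, p.Prime → ∀ (K : Type) [NormedField K] [CharZero K]
  [IsUltrametricDist K], Ext p K → ∀ (y : K) (k : ℕ), 0 < ‖y‖ → ‖y‖ < 1 → 1 ≤ k →
  (k = 1 ∨ (p : ℝ)⁻¹ < ‖y‖ ^ (p ^ (k - 2) * (p - 1))) →
  ‖(1 + y) ^ (p ^ k) - 1 - y ^ (p ^ k)‖ = (p : ℝ)⁻¹ * ‖y‖ ^ (p ^ (k - 1))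

/-- CRI (100 lines; uses LGR, WWN, THB).  Critical radii.  PROOF.  `(1 + y) ^ (p ^ h) = 1 + x`, `‖x‖ < 1`,
`Log (1 + x) = p ^ h Log (1 + y)`, so (LGR) `1 + x = ξ' (1 + d')`, `‖d'‖ ≤ ρ`, `ξ'` of order a power of `p`.  Take
`η ^ (p ^ h) = ξ'`.  `Π_(η' ^ (p ^ h) = 1) ((1 + y)/η - η') = ((1 + y)/η) ^ (p ^ h) - 1 = d'`, so for one of the `p ^ h`
factors `‖(1 + y)/η - η'‖ ^ (p ^ h) ≤ ‖d'‖ ≤ ρ`.  `ξ = η η'`, `1 + y = ξ (1 + d)`.  `‖y‖ ^ (p ^ h) = th`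
(its `(p-1)`-st power is `1/p`), so `‖d‖ < ‖y‖` and `‖ξ - 1‖ = ‖y‖`, `ξ ≠ 1` is primitive of order `p ^ (k+1)`, and
`‖ξ - 1‖ ^ (p ^ k (p-1)) = 1/p` (WWN) gives `k = h`. -/
def CriStmt : Prop := ∀ p : ℕ, p.Prime → 5 ≤ p → ∀ (K : Type) [NormedField K] [CharZero K]
  [IsUltrametricDist K] [CompleteSpace K] [IsAlgClosed K], Ext p K → ∀ Log : K → K, IsLog p Log →
  ∀ (y : K) (h : ℕ) (ρ : ℝ), 0 < ‖y‖ → ‖y‖ < 1 → ‖y‖ ^ (p ^ h * (p - 1)) = (p : ℝ)⁻¹ → 0 ≤ ρ →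
  ρ < th p ^ 3 → ‖(p : K) ^ h * Log (1 + y)‖ ≤ ρ →
  ∃ ξ d : K, IsPrimitiveRoot ξ (p ^ (h + 1)) ∧ 1 + y = ξ * (1 + d) ∧ ‖d‖ < 1 ∧ ‖d‖ ^ (p ^ h) ≤ ρ

/-- ARL (60 lines, no hypotheses).  Arithmetic of the lower end.  PROOF.  With `C = B - A`, `gcd(A, C) = 1`:
`C (e p ^ j + e') = A (e (j + 1 - α) - e')` in `ℤ`.  So `e p ^ j + e' = c A`, `e (j + 1 - α) - e' = c C`, `c ≥ 1`.
`e' ≥ 1`: `p ∣ A` gives `p ∣ e p ^ j + e'`, so `j = 0` (`0 < e' < p`), and then `e (1 - α) - e' < 0`,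
contradiction.  `e' = 0`: `e p ^ j = c A`, `e (j + 1 - α) = c C`, `p ∤ e`, `p ∤ C`, `p ^ α ∥ A`: `v_p(c) = j - α =
v_p(j + 1 - α)`, so `p ^ (j - α) ∣ (j - α) + 1`, `j = α`.  Then `p ∤ c`, `e = c C`, `A = p ^ j A'`, `e = c A'`, so
`A' = C` divides `gcd(A, C) = 1`. -/
def ArlStmt : Prop := ∀ p : ℕ, p.Prime → 3 ≤ p → ∀ A B e e' j α : ℕ, 1 ≤ A → A < B →
  Nat.Coprime A B → 1 ≤ α → p ^ α ∣ A → ¬ p ^ (α + 1) ∣ A → e' < e → e < p →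
  e * p ^ j * (B - A) + e' * B + (α - 1) * e * A = j * e * A →
  e' = 0 ∧ A = p ^ α ∧ B = p ^ α + 1

/-- ARU (100 lines, no hypotheses).  Arithmetic of the upper end, `1 ≤ B < A` coprime, `p ^ β ∥ B`, `β ≥ 1`.
PROOF.  `p ∤ A`.  (1) `p ^ j (A - B) = (N - β + j) A`: `A ∣ p ^ j`, `A = 1`, contradiction.  (2), (3): with `d = 1`
resp. `d = 0`, `B (c + e' p ^ j) = A e' (p ^ j - j + d + β)`; `p ∤ c + e' p ^ j` (`c < p`, `c + e' < p`), so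
`β = v_p(p ^ j - j + d + β)`.  `j = 0`: `p ^ β ∣ 1 + d + β`, impossible.  `j ≥ 1`, `X = d + β - j`.  `X = 0`: `j = β`,
`d = 0`.  `X > 0`: `p ∣ X`, but `B < A` gives `e' X < c < p`.  `X = -Y < 0`: `j > v_p(Y)`, so `v_p(Y) = β`,
`Y ≥ p`; `A - B = A (c + e' Y)/(c + e' p ^ j)`, and `(A - B)(p-1) p ^ (j-1) < A` gives
`(c + e' Y)(p-1) p ^ (j-1) < c + e' p ^ j`, but the left side is `≥ e' (p-1) p ^ j ≥ 2 e' p ^ j`.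
(4) `x B = y e' A`: `A ∣ x`, so `A ≤ x ≤ E` and `(p-1) ≤ (A-B)(p-1) ≤ 2 A ≤ 2 E`, contradiction. -/
def AruStmt : Prop := ∀ p E : ℕ, p.Prime → 5 ≤ p → 4 * E + 4 < p → ∀ A B β j e' : ℕ, 1 ≤ B → B < A →
  Nat.Coprime A B → 1 ≤ e' → e' ≤ E →
  ((A - B) * (p - 1) ≤ 2 * A → ∀ x y : ℕ, 1 ≤ x → x ≤ E → x * B ≠ y * e' * A) ∧
  (1 ≤ β → p ^ β ∣ B → ¬ p ^ (β + 1) ∣ B → (1 ≤ j → (A - B) * (p - 1) * p ^ (j - 1) < A) →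
    (∀ N : ℤ, (p : ℤ) ^ j * (A - B) - j * A ≠ (N - β) * A) ∧
    (∀ c : ℕ, 1 ≤ c → c ≤ E → (e' : ℤ) * p ^ j * (A - B) - e' * j * A ≠ c * B - e' * A - e' * β * A) ∧
    (∀ c : ℕ, 1 ≤ c → c ≤ E → (e' : ℤ) * p ^ j * (A - B) - e' * j * A = c * B - e' * β * A →
      j = β ∧ B * (c + e' * p ^ β) = A * (e' * p ^ β)))

/-- LGL (120 lines; uses LGB, UNV, URR).  Logarithms of elements of `L` are limits of elements of `L`.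
PROOF.  `a ^ (p ^ F - 1) = 1 + y`, `y ∈ L`, `‖y‖ ≤ 1/p` (UNV gives `Ur p a`), `(p ^ F - 1) Log a = Log (1 + y)` is
the limit of the partial sums, which are in `L`.  Second part: `‖κ‖ ≤ 1/p` (LGB (5); `e₁, e₂` units); if `κ ≠ 0`
take `x ∈ L` with `‖κ - x‖ < ‖κ‖`, then `‖κ‖ = ‖x‖ ∈ p ^ ℤ` (UNV). -/
def LglStmt : Prop := ∀ p : ℕ, p.Prime → 5 ≤ p → ∀ (K : Type) [NormedField K] [CharZero K]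
  [IsUltrametricDist K], Ext p K → ∀ Log : K → K, IsLog p Log → ∀ L : Subfield K, Unr p L →
  (∀ a ∈ L, ‖a‖ = 1 → ∀ ε : ℝ, 0 < ε → ∃ x ∈ L, ‖Log a - x‖ ≤ ε) ∧
  ∀ a ∈ L, ∀ b ∈ L, ‖a‖ = 1 → ‖b‖ = 1 → ∀ e₁ e₂ : ℕ, 1 ≤ e₁ → 1 ≤ e₂ → e₁ < p → e₂ < p →
    Log a / (e₁ : K) - Log b / (e₂ : K) = 0 ∨
      ∃ N : ℕ, 1 ≤ N ∧ ‖Log a / (e₁ : K) - Log b / (e₂ : K)‖ = ((p : ℝ)⁻¹) ^ N

/-- KPS (80 lines, no hypotheses).  PROOF.  If `‖s θ‖ ≠ ‖κ‖`: clear.  Otherwise `s ≠ 0`, `κ = p ^ N y` and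
`s = p ^ (N-1) s'`, `‖s'‖ = 1`, so `s θ - κ = p ^ N (s' θ/p - y)`.  Choose an integer `m` with `‖m s' - 1‖ < 1`
(`s'` is a quotient of integers prime to `p`).  `s' (θ/p - m y)` has norm `1` and differs from `s' θ/p - y` by
`(m s' - 1) y`, of norm `< 1`. -/
def KpsStmt : Prop := ∀ p : ℕ, p.Prime → ∀ (K : Type) [NormedField K] [CharZero K]
  [IsUltrametricDist K], Ext p K → ∀ θ κ : K, ‖θ‖ = (p : ℝ)⁻¹ →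
  (κ = 0 ∨ ∃ (N : ℕ) (y : K), ‖y‖ = 1 ∧ κ = (p : K) ^ N * y ∧ ∀ m : ℤ, ‖θ / p - m * y‖ = 1) →
  ∀ s : ℚ, ‖((s : ℚ) : K) * θ - κ‖ = max ‖((s : ℚ) : K) * θ‖ ‖κ‖

/-- THN (150 lines; uses RSM, RNS, LGB, UNV, URR, THB).  Difference of the logarithms of two small
coordinates, `w = p / t ^ e`.  PROOF.  `e = 0`: `δ` as given; `p q_i⁻¹ = N_i (1 + x_i)`, `N_i = g_i + p (A_i 0 - u₁)` in
`Uu`, `‖x_i‖ ≤ max ‖t‖ p⁻¹ * p⁻¹` (RSM), `‖Log (1 + x_i)‖ = ‖x_i‖`, `‖Log N_i‖ ≤ 1/p`.  `e ≥ 1`: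
`δ = p (l₁ - l₂)`, `l_i = lS e e_i A_i g_i`.  RNS: `p q_i⁻¹ = g_i (1 + x_i)`, `‖x_i - l_i w‖ ≤ ‖t‖ ‖w‖`, `‖x_i‖ ≤ ‖w‖ ≤ th ^ 2`,
so `‖Log (1 + x_i) - x_i‖ ≤ ‖w‖ ^ 2`; `‖Log g_i‖ ≤ 1/p = ‖t‖ ^ e ‖w‖ ≤ ‖t‖ ‖w‖`; `δ / t ^ e = (l₁ - l₂) w`. -/
def ThnStmt : Prop := ∀ U : PowerSeries ℚ, IsU U → ∀ p : ℕ, p.Prime → 5 ≤ p →
  ∀ (K : Type) [NormedField K] [CharZero K] [IsUltrametricDist K] [CompleteSpace K], Ext p K →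
  ∀ Log : K → K, IsLog p Log → ∀ L : Subfield K, Unr p L →
  ∀ (e e₁ e₂ : ℕ) (A₁ A₂ : ℕ → K) (g₁ g₂ : K), Cd L e₁ A₁ g₁ → Cd L e₂ A₂ g₂ → e = max e₁ e₂ →
  (1 ≤ e → ‖lS e e₁ A₁ g₁ - lS e e₂ A₂ g₂‖ = 1) →
  (e = 0 → ‖Log (g₁ + p * (A₁ 0 - ((PowerSeries.coeff 1 U : ℚ) : K))) -
    Log (g₂ + p * (A₂ 0 - ((PowerSeries.coeff 1 U : ℚ) : K)))‖ = (p : ℝ)⁻¹) →
  ∃ δ : K, ‖δ‖ = (p : ℝ)⁻¹ ∧ (e = 0 → δ = Log (g₁ + p * (A₁ 0 - ((PowerSeries.coeff 1 U : ℚ) : K))) -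
      Log (g₂ + p * (A₂ 0 - ((PowerSeries.coeff 1 U : ℚ) : K)))) ∧
    ∀ t q₁ q₂ : K, 0 < ‖t‖ → ‖t‖ < 1 → Sm p e t → ‖(p : K) / t ^ e‖ ≤ th p ^ 2 →
      At p U e₁ A₁ g₁ t q₁ → At p U e₂ A₂ g₂ t q₂ →
      ‖Log ((p : K) * q₁⁻¹)‖ ≤ ‖(p : K) / t ^ e‖ ∧ ‖Log ((p : K) * q₂⁻¹)‖ ≤ ‖(p : K) / t ^ e‖ ∧
      ‖Log ((p : K) * q₁⁻¹) - Log ((p : K) * q₂⁻¹) - δ / t ^ e‖ ≤
        max ‖t‖ ‖(p : K) / t ^ e‖ * ‖δ / t ^ e‖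

/-- MAI (250 lines, STRONG; uses RLA, LGB, THB, NUM).  Comparison of two large coordinates, `w = t ^ e / p`,
`F_i = t ^ e_i q_i⁻¹ / A_i 0`.  PROOF.  `μ = max ‖t‖ ‖w‖ p⁻¹ ≤ th ^ 2`.  RLA with `N = e`: `F_i = P_i + l_i w + O(μ ‖w‖)`,
`P_i = Σ_(n<e) (A_i n/A_i 0) t ^ n = 1 + O(‖t‖)`, `l_i = lL e e_i A_i g_i` (`‖t‖ ^ e = ‖w‖/p`; `‖t ^ e_i/p‖ ≤ ‖t‖ ‖w‖` if
`e_i > e`).  So `F₁ ^ e₂ = P₁ ^ e₂ + e₂ l₁ w + O(μ ‖w‖)` and the same for `F₂ ^ e₁`.  `P₁ ^ e₂ - P₂ ^ e₁` is a polynomial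
in `t` with integral coefficients whose coefficients below `e` are those of `W = (Σ (A₁ n/A₁ 0) t ^ n) ^ e₂ -
(Σ (A₂ n/A₂ 0) t ^ n) ^ e₁`.  If all coefficients of `W` below `e` vanish (`W = 0`, or `m ≥ e` in the hypothesis)
it is `O(‖t‖ ^ e) = O(‖w‖/p)`: `H = 0`.  Otherwise `m < e` is the index of the hypothesis and it is
`H' t ^ m + O(‖t‖ ^ (m+1))`, `‖H'‖ = 1`.  So `x = F₁ ^ e₂/F₂ ^ e₁ - 1 = H' t ^ m + (e₂ l₁ - e₁ l₂) w + O(μ X)`,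
`X = max (‖H'‖ ‖t‖ ^ m) ‖w‖ ≥ ‖x‖`, `X ≤ max ‖t‖ ‖w‖ ≤ th ^ 2`; LGB (4): `‖Log (1 + x) - x‖ ≤ X ^ 2 ≤ μ X`.
`Log F₁/e₁ - Log F₂/e₂ = Log (1 + x)/(e₁ e₂)`; `H = H'/(e₁ e₂)`, `τ = (e₂ l₁ - e₁ l₂)/(e₁ e₂)`, a unit: if `e₁ = e₂` it
is `(l₁ - l₂)/e`, if `e₁ < e₂` then `l₂ = 0`, `l₁ = l₁ - l₂`. -/
def MaiStmt : Prop := ∀ U : PowerSeries ℚ, IsU U → ∀ p E : ℕ, p.Prime → 1 ≤ E →
  1000 * (E + 1) ^ 2 < p →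
  ∀ (K : Type) [NormedField K] [CharZero K] [IsUltrametricDist K] [CompleteSpace K], Ext p K →
  ∀ Log : K → K, IsLog p Log → ∀ L : Subfield K, Unr p L →
  ∀ (e e₁ e₂ : ℕ) (A₁ A₂ : ℕ → K) (g₁ g₂ : K), Cd L e₁ A₁ g₁ → Cd L e₂ A₂ g₂ → 1 ≤ e → e₁ ≤ E →
  e₂ ≤ E → e = min e₁ e₂ → ‖lL e e₁ A₁ g₁ - lL e e₂ A₂ g₂‖ = 1 →
  (PowerSeries.mk (fun r => A₁ r / A₁ 0) ^ e₂ = PowerSeries.mk (fun r => A₂ r / A₂ 0) ^ e₁ ∨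
    ∃ m, 1 ≤ m ∧ m ≤ E ∧
      (∀ r, r < m → PowerSeries.coeff r (PowerSeries.mk (fun r => A₁ r / A₁ 0) ^ e₂) =
        PowerSeries.coeff r (PowerSeries.mk (fun r => A₂ r / A₂ 0) ^ e₁)) ∧
      ‖PowerSeries.coeff m (PowerSeries.mk (fun r => A₁ r / A₁ 0) ^ e₂) -
        PowerSeries.coeff m (PowerSeries.mk (fun r => A₂ r / A₂ 0) ^ e₁)‖ = 1) →
  ∃ (m : ℕ) (H τ : K), (H = 0 ∨ (1 ≤ m ∧ m < e ∧ ‖H‖ = 1)) ∧ ‖τ‖ = 1 ∧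
    ∀ t q₁ q₂ : K, 0 < ‖t‖ → La p e t → ‖t ^ e / (p : K)‖ ≤ th p ^ 2 →
      At p U e₁ A₁ g₁ t q₁ → At p U e₂ A₂ g₂ t q₂ →
      ‖Log (t ^ e₁ * q₁⁻¹ / A₁ 0) / (e₁ : K) - Log (t ^ e₂ * q₂⁻¹ / A₂ 0) / (e₂ : K) -
        (H * t ^ m + τ * (t ^ e / p))‖ ≤
        max (max ‖t‖ ‖t ^ e / (p : K)‖) ((p : ℝ)⁻¹) * max (‖H‖ * ‖t‖ ^ m) ‖t ^ e / (p : K)‖

end

end Pool.Agent.ZPK
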