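import Pool.Agent.ZPK.Defs

/-!
Squad ZPK (MP_6e1a06_nt), THEOREM K: block D (density).  Part Z: primes for which a polynomial does
not split, by the Dedekind zeta function.  Part E: embeddings and unramified fields.  Part C: counting
of the residues modulo `p ^ 2` of integral matrices `a : Fin n → Fin m → ℤ`; row `i` of `a` gives the
number `Σ_r a i r β_r`.  Part N: the density lemma.  `K` is a normed field of characteristic 0 whose
norm is ultrametric and extends the `p`-adic norm of `ℚ` (`Ext p K`).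
-/

set_option autoImplicit false

namespace Pool.Agent.ZPK

open Polynomial Pool.Agent.ZPT Pool.Agent.ZP3

noncomputable section

/-! ### Part Z: the Dedekind zeta function -/

/-- ZSM (120 lines, no hypotheses).  Finite sums of norms.  PROOF.  `f n` = number of the ideals of norm
`n`; `dedekindZeta F` is `LSeries f`.  As in the proof of
`NumberField.tendsto_sub_one_mul_dedekindZeta_nhdsGT` (file Mathlib/NumberTheory/NumberField/
DedekindZeta.lean) `(Σ_(k ∈ Icc 1 n) f k)/n` converges, so the partial sums are `O(n ^ 1)` and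
`LSeriesSummable_of_sum_norm_bigO_and_nonneg` gives summability for `s > 1`.  The real part of the
`LSeries` is the sum of `f n * n ^ (-s)`, `n ≥ 1` (`Complex.hasSum_re`, `LSeries.term`), all terms
`≥ 0`.  Group the sum over `J` by the norm `n ≥ 1`: at most `f n` ideals of norm `n`
(`Ideal.finite_setOf_absNorm_eq`), and use that a finite sum of nonnegative terms is at most the sum. -/
def ZsmStmt : Prop := ∀ (F : Type) [Field F] [NumberField F] (s : ℝ), 1 < s →
  ∀ J : Finset (Ideal (NumberField.RingOfIntegers F)), (∀ I ∈ J, I ≠ ⊥) →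
    ∑ I ∈ J, ((Ideal.absNorm I : ℕ) : ℝ) ^ (-s) ≤ (NumberField.dedekindZeta F (s : ℂ)).re

/-- ZLB (100 lines; uses ZSM).  A lower bound by a finite Euler product.  PROOF.  For `k ≥ 1`,
`Π_(P ∈ T) Σ_(i<k) (N P) ^ (-s i) = Σ_φ N(Π_P P ^ φ(P)) ^ (-s)` over the functions `φ : T → range k`
(`Finset.prod_univ_sum` or `Finset.prod_sum`, multiplicativity of the norm), the ideals
`Π_P P ^ φ(P)` are not zero and pairwise distinct (unique factorisation: multiplicity of the prime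
`P` in the product).  ZSM gives `≤ re ζ(s)`.  `N P ≥ 2`, so `0 < (N P) ^ (-s) < 1`, and the left side
tends to the product for `k → ∞` (geometric series, `tendsto_finset_prod`). -/
def ZlbStmt : Prop := ∀ (F : Type) [Field F] [NumberField F] (s : ℝ), 1 < s →
  ∀ T : Finset (Ideal (NumberField.RingOfIntegers F)), (∀ P ∈ T, P.IsPrime ∧ P ≠ ⊥) →
    ∏ P ∈ T, (1 - ((Ideal.absNorm P : ℕ) : ℝ) ^ (-s))⁻¹ ≤ (NumberField.dedekindZeta F (s : ℂ)).re

/-- ZRS (80 lines, no hypotheses).  The sum over all primes near `s = 1`.  PROOF.  For `s > 1` and every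
`N`, `Σ_(1≤n≤N) n ^ (-s) ≤ Π_(p ≤ N) (1 - p ^ (-s))⁻¹` (Mathlib: `EulerProduct` for smooth numbers, or the
Euler product of `riemannZeta`), and `Σ_(n≥1) n ^ (-s) ≥ 1/(s - 1)` (integral, or
`Σ_(n≥1) n ^ (-s) ≥ Σ ∫_n^(n+1) x ^ (-s)`; or use `tendsto_sub_mul_tsum_nat_rpow`, with a constant).
`-log (1 - x) ≤ x + x ^ 2` for `0 ≤ x ≤ 1/2`, and `Σ p ^ (-2s) ≤ Σ 1/n ^ 2`.  So
`log (1/(s-1)) ≤ Σ_p p ^ (-s) + C`. -/
def ZrsStmt : Prop := ∃ (C s₀ : ℝ), 1 < s₀ ∧ ∀ s : ℝ, 1 < s → s < s₀ →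
  Summable (fun p : Nat.Primes => ((p : ℕ) : ℝ) ^ (-s)) ∧
  Real.log (1 / (s - 1)) - C ≤ ∑' p : Nat.Primes, ((p : ℕ) : ℝ) ^ (-s)

/-- NSP (120 lines, STRONG; uses ZLB, ZRS).  If all primes outside `S` have `d = [F : ℚ] ≥ 2` prime ideals
of norm `p` then the sum of `1/p` over `S` diverges.  PROOF.  Suppose it converges, with sum `σ`.  For
`1 < s < s₀` and a finite set `T₀` of primes `p ≥ p₀`, `p ∉ S`, ZLB for the set of all the `d` ideals
above the `p ∈ T₀` (ideals of different norms are different) gives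
`Π_(p ∈ T₀) (1 - p ^ (-s)) ^ (-d) ≤ re ζ_F(s)`, and `log (1/(1-x)) ≥ x`, so
`d Σ_(T₀) p ^ (-s) ≤ log re ζ_F(s)`.  By `NumberField.tendsto_sub_one_mul_dedekindZeta_nhdsGT`
`re ζ_F(s) ≤ C₁/(s - 1)` near `1`.  So for all finite sets of primes, hence for the sum over all primes,
`Σ_p p ^ (-s) ≤ (1/d)(log (1/(s-1)) + log C₁) + σ + p₀` (a prime in `S` contributes `≤ 1/p`, a prime
`< p₀` at most `1`).  With ZRS `(1 - 1/d) log (1/(s-1)) ≤ C'` for all `s` near `1`: contradiction. -/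
def NspStmt : Prop := ∀ (F : Type) [Field F] [NumberField F], 2 ≤ Module.finrank ℚ F →
  ∀ (S : Set ℕ) (p₀ : ℕ), (∀ p : ℕ, p.Prime → p₀ ≤ p → p ∉ S →
    ∃ T : Finset (Ideal (NumberField.RingOfIntegers F)), T.card = Module.finrank ℚ F ∧
      ∀ P ∈ T, P.IsPrime ∧ Ideal.absNorm P = p) →
  ¬ Summable (fun p : {p : ℕ // p.Prime ∧ p ∈ S} => ((p : ℕ) : ℝ)⁻¹)

/-- SPT (100 lines, no hypotheses).  Splitting primes.  PROOF.  `f = minpoly ℤ θ` is monic, irreducible over
`ℚ`, of degree `d = [F : ℚ]`; `ℤ[θ]` has finite index in `𝓞 F`, so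
`RingOfIntegers.exponent θ ≠ 0` (some `D ≥ 1` has `D 𝓞 F ⊆ ℤ[θ]`), and `u f + v f' = c` with integral
polynomials and an integer `c ≠ 0` (`f` is separable over `ℚ`).  For `p` larger than the exponent and
`|c|`: `f mod p` is separable, and if it splits then it has `d` different monic irreducible factors,
all of degree 1.  `NumberField.Ideal.primesOverSpanEquivMonicFactorsMod` (file
Mathlib/NumberTheory/NumberField/Ideal/KummerDedekind.lean) gives `d` different prime ideals above `p`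
with `inertiaDeg = 1` (`inertiaDeg_primesOverSpanEquivMonicFactorsMod_symm_apply'`), so of norm `p`
(`Ideal.absNorm_eq_pow_inertiaDeg` or the like). -/
def SptStmt : Prop := ∀ (F : Type) [Field F] [NumberField F] (θ : NumberField.RingOfIntegers F),
  (minpoly ℤ θ).natDegree = Module.finrank ℚ F → ∃ p₀ : ℕ, ∀ p : ℕ, p.Prime → p₀ ≤ p →
  (Polynomial.map (Int.castRingHom (ZMod p)) (minpoly ℤ θ)).Splits →
  ∃ T : Finset (Ideal (NumberField.RingOfIntegers F)), T.card = Module.finrank ℚ F ∧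
    ∀ P ∈ T, P.IsPrime ∧ Ideal.absNorm P = p

/-- PND (80 lines; uses NSP, SPT).  The minimal polynomial of an irrational algebraic integer does not
split modulo many primes.  PROOF.  `F = ℚ(β)` (`IntermediateField.adjoin`), `θ = β ∈ 𝓞 F`;
`minpoly ℤ θ = minpoly ℤ β` (`minpoly` of the image under an injective map), its degree is
`[F : ℚ] ≥ 2` as `β ∉ ℚ`.  `S` = the primes such that `f mod p` does not split; SPT, NSP. -/
def PndStmt : Prop := ∀ β : Qb, IsIntegral ℤ β → (∀ r : ℚ, β ≠ (r : Qb)) →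
  ¬ Summable (fun p : {p : ℕ // p.Prime ∧
    ¬ (Polynomial.map (Int.castRingHom (ZMod p)) (minpoly ℤ β)).Splits} => ((p : ℕ) : ℝ)⁻¹)

/-! ### Part E: embeddings and unramified fields -/

/-- EMB (100 lines, no hypotheses).  A good embedding.  PROOF.  `f = minpoly ℤ β` is monic and splits in
`K`: `f = Π (X - β_i)`, `‖β_i‖ ≤ 1` (roots of a monic polynomial with integral coefficients).  Suppose
that every `β_i` has an integer `m_i` with `‖β_i - m_i‖ < 1` (all these norms are `≤ 1`).  Then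
`f` and `g = Π (X - m_i) ∈ ℤ[X]` have coefficients that differ by elements of norm `< 1` (induction
on the number of factors), so `p` divides the integral coefficients of `f - g`, and
`f mod p = Π (X - m_i)` splits: contradiction.  So `‖β_i - m‖ = 1` for all integers `m`, for some `i`.
`β` and `β_i` have the same minimal polynomial over `ℚ`, so there is an embedding of `ℚ(β)` in `K` with
`β ↦ β_i`, and it extends to `Qb` (algebraic over `ℚ`, `K` algebraically closed; `IsAlgClosed.lift` or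
`IntermediateField.exists_algHom_of_splits`-like lemmas). -/
def EmbStmt : Prop := ∀ p : ℕ, p.Prime → ∀ (K : Type) [NormedField K] [CharZero K]
  [IsUltrametricDist K] [IsAlgClosed K], Ext p K → ∀ β : Qb, IsIntegral ℤ β →
  ¬ (Polynomial.map (Int.castRingHom (ZMod p)) (minpoly ℤ β)).Splits →
  ∃ ι : Qb →+* K, ∀ m : ℤ, ‖ι β - (m : K)‖ = 1

/-- URF (120 lines, STRONG; uses ZP3.URA, ZP3.URR).  Number fields are unramified for large `p`.  PROOF.
`F = ℚ(S) ⊆ Qb` (a number field), `F = ℚ(θ)` with `θ` integral over `ℤ`; some `D ≥ 1` has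
`D 𝓞 F ⊆ ℤ[θ]` (finite index).  Let `p > D` be so large that `Ur p (ι θ)` (URA), with exponent `f`;
`L = ι(F)`.  `W = {y ∈ K | ‖y‖ ≤ 1, ‖y ^ (p ^ f) - y‖ ≤ 1/p}` is closed under sums, differences and
products, contains the rational numbers of norm `≤ 1` and the inverses of its elements of norm 1 (the
proofs of URR for a fixed exponent); so `ι(ℤ[θ]) ⊆ W` and `ι(𝓞 F) ⊆ W` (`D` is a unit).  Let `x ∈ F`,
`‖ι x‖ ≤ 1`.  `𝔓 = {y ∈ 𝓞 F | ‖ι y‖ < 1}` is a nonzero prime ideal of `𝓞 F` (it contains `p`, not `1`,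
and all `y ∈ 𝓞 F` have `‖ι y‖ ≤ 1`).  The localisation at `𝔓` is a valuation ring of `F`
(`IsLocalization.AtPrime.isDiscreteValuationRing_of_dedekind_domain`), so either `x = u/v` with
`v ∉ 𝔓`, or `x⁻¹ = u/v` with `u ∈ 𝔓`, `v ∉ 𝔓`; the second gives `‖ι x‖ > 1`.  So `ι x = ι u/ι v`,
`‖ι v‖ = 1`, is in `W`. -/
def UrfStmt : Prop := ∀ S : Finset Qb, ∃ p₀ : ℕ, ∀ p : ℕ, p.Prime → p₀ ≤ p →
  ∀ (K : Type) [NormedField K] [CharZero K] [IsUltrametricDist K], Ext p K → ∀ ι : Qb →+* K,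
  ∃ L : Subfield K, Unr p L ∧ ∀ x ∈ Subfield.closure (S : Set Qb), ι x ∈ L

/-! ### Part C: counting -/

/-- The residues modulo `p ^ 2` of the elements of `E`. -/
def Rs (p : ℕ) {n m : ℕ} (E : Set (Fin n → Fin m → ℤ)) : Set (Fin n → Fin m → ℤ) :=
  {x | (∀ i r, 0 ≤ x i r ∧ x i r < (p : ℤ) ^ 2) ∧ ∃ a ∈ E, ∀ i r, (p : ℤ) ^ 2 ∣ x i r - a i r}

/-- The number given by a row. -/
def sv {K : Type} [Field K] {m : ℕ} (β : Fin m → K) (x : Fin m → ℤ) : K :=
  ∑ r, ((x r : ℤ) : K) * β r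

/-- The hypothesis on the basis: integral, and two elements of it are linearly independent over `𝔽_p`
modulo the maximal ideal. -/
def Bas {K : Type} [NormedField K] {m : ℕ} (β : Fin m → K) : Prop :=
  (∀ r, ‖β r‖ ≤ 1) ∧ ∃ r₀ r₁ : Fin m, r₀ ≠ r₁ ∧ ‖β r₀‖ = 1 ∧ ∀ z : ℤ, ‖β r₁ - z * β r₀‖ = 1

/-- CTA (150 lines, no hypotheses).  Counting modulo `p`: if row `i` is determined modulo the maximal
ideal by the other rows then there are at most `p ^ (2nm - 2)` residues.  PROOF.  Map `x ∈ Rs p E` to: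
the rows `x k`, `k ≠ i`; the quotients `x i r / p ∈ [0, p)`; the residues `x i r % p` for `r ≠ r₀, r₁`.
There are `p ^ (2 (n-1) m + m + (m-2))` images.  The map is injective: if `x`, `x'` have the same
image, take `a, a' ∈ E` congruent to them modulo `p ^ 2`; the rows `k ≠ i` of `a`, `a'` are congruent
modulo `p ^ 2`, so `‖sv β (a i) - sv β (a' i)‖ < 1`, hence `‖sv β (x i) - sv β (x' i)‖ < 1`.  The
differences `x i r - x' i r`, `r ≠ r₀, r₁`, are divisible by `p`, so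
`‖u₀ β_(r₀) + u₁ β_(r₁)‖ < 1` for the two other differences `u₀`, `u₁`.  If `p ∤ u₁`, choose `v` with
`v u₁ ≡ 1` modulo `p`: `‖β_(r₁) - (-v u₀) β_(r₀)‖ < 1`, contradiction.  So `p ∣ u₁`, then
`‖u₀ β_(r₀)‖ < 1`, `p ∣ u₀`.  So row `i` of `x` and `x'` agree modulo `p`, and they have the same
quotients: `x = x'`. -/
def CtaStmt : Prop := ∀ p : ℕ, p.Prime → ∀ (K : Type) [NormedField K] [CharZero K]
  [IsUltrametricDist K], Ext p K → ∀ (n m : ℕ) (β : Fin m → K), Bas β →
  ∀ (i : Fin n) (E : Set (Fin n → Fin m → ℤ)),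
  (∀ a ∈ E, ∀ a' ∈ E, (∀ k, k ≠ i → ∀ r, (p : ℤ) ^ 2 ∣ a k r - a' k r) →
    ‖sv β (a i) - sv β (a' i)‖ < 1) →
  (Rs p E).ncard * p ^ 2 ≤ p ^ (2 * (n * m))

/-- CTB (120 lines, no hypotheses).  Counting modulo `p ^ 2`: if row `i` is determined modulo
`p * (maximal ideal)` by the other rows and its own residues modulo `p`, there are at most
`p ^ (2nm - 2)` residues.  PROOF.  As CTA with the map: the rows `k ≠ i`; the residues
`x i r % p`; the quotients `x i r / p` for `r ≠ r₀, r₁`.  If two elements have the same image,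
`x i r - x' i r = p w_r` with `w_r = 0` for `r ≠ r₀, r₁`, `|w_r| < p`, and
`‖Σ p w_r β_r‖ < 1/p`, `‖w_(r₀) β_(r₀) + w_(r₁) β_(r₁)‖ < 1`, so `p` divides both, both are `0`. -/
def CtbStmt : Prop := ∀ p : ℕ, p.Prime → ∀ (K : Type) [NormedField K] [CharZero K]
  [IsUltrametricDist K], Ext p K → ∀ (n m : ℕ) (β : Fin m → K), Bas β →
  ∀ (i : Fin n) (E : Set (Fin n → Fin m → ℤ)),
  (∀ a ∈ E, ∀ a' ∈ E, (∀ k, k ≠ i → ∀ r, (p : ℤ) ^ 2 ∣ a k r - a' k r) →
    (∀ r, (p : ℤ) ∣ a i r - a' i r) → ‖sv β (a i) - sv β (a' i)‖ < (p : ℝ)⁻¹) →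
  (Rs p E).ncard * p ^ 2 ≤ p ^ (2 * (n * m))

/-- CFG (150 lines; uses CTA).  Counting the failures of `FI`.  `G` is a set of good matrices, `lam a`
the parameters; for `i ∈ S`, `i ≠ v`, row `i` is determined modulo the maximal ideal by the other rows
and `lam a i`, and the other parameters do not depend on row `i`; the parameter `v` (if `v ∈ S`) is a
unit.  PROOF.  If `FI S (lam a)` fails for `a ∈ G` there are `c, d : Fin n → [-2, 2]` (`≤ 25 ^ n` pairs)
supported in `S`, not proportional, and `z ∈ ℤ` with `‖Σ (c_i - z d_i) lam a i‖ < 1` (the norm is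
always `≤ 1`), and `z` may be replaced by its residue modulo `p`, `0 ≤ z < p`.  For given `(c, d, z)`:
not all `c_i - z d_i` are divisible by `p` (otherwise `p` divides all `c_i d_j - c_j d_i`, of absolute
value `≤ 8 < p`, so they vanish).  If some `i ≠ v` has `p ∤ c_i - z d_i` (then `i ∈ S`) the set of
these `a` satisfies the hypothesis of CTA for row `i`: the difference of the two sums is
`(c_i - z d_i)(lam a i - lam a' i)` up to norm `< 1`.  Otherwise `‖Σ‖ = ‖(c_v - z d_v) lam a v‖ = 1`: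
no such `a`.  `Rs` of a union is the union; sum over `25 ^ n p` triples. -/
def CfgStmt : Prop := ∀ p : ℕ, p.Prime → 11 ≤ p → ∀ (K : Type) [NormedField K] [CharZero K]
  [IsUltrametricDist K], Ext p K → ∀ (n m : ℕ) (β : Fin m → K), Bas β →
  ∀ (S : Set (Fin n)) (v : Option (Fin n)) (G : Set (Fin n → Fin m → ℤ))
  (lam : (Fin n → Fin m → ℤ) → Fin n → K),
  (∀ a ∈ G, ∀ i ∈ S, ‖lam a i‖ ≤ 1) → (∀ a ∈ G, ∀ i ∈ S, v = some i → ‖lam a i‖ = 1) →
  (∀ i ∈ S, v ≠ some i → ∀ a ∈ G, ∀ a' ∈ G,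
    (∀ k, k ≠ i → ∀ r, (p : ℤ) ^ 2 ∣ a k r - a' k r) →
    (∀ k ∈ S, k ≠ i → ‖lam a k - lam a' k‖ < 1) ∧
    (‖lam a i - lam a' i‖ < 1 → ‖sv β (a i) - sv β (a' i)‖ < 1)) →
  (Rs p {a | a ∈ G ∧ ¬ FI S (lam a)}).ncard * p ≤ 25 ^ n * p ^ (2 * (n * m))

/-- CGP (150 lines; uses CTA-like counting, no hypotheses needed beyond the proof).  Zeros of polynomials.
PROOF by induction on `n` (`MvPolynomial.finSuccEquiv`; the coefficients of `F` have norm `≤ 1`, one of
them norm 1, the degree in each variable is `≤ D`).  `n = 0`: `F` is a constant of norm 1, the set is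
empty.  Step: `F = Σ_k F_k X_0 ^ k`, `k ≤ D`, one `F_k` has a coefficient of norm 1.  The residues
with `‖F_k(g)‖ < 1` are at most `n D p ^ (2 n m - 2) * p ^ (2 m)` (induction; a property of the other
rows).  For the others fix the rows `i ≥ 1` modulo `p ^ 2`: `h = F(X, g_1, ..)` is a polynomial of
degree `≤ D` with coefficients of norm `≤ 1`, one of norm 1, and `‖h(T)‖ < 1`, `‖T‖ ≤ 1` implies
`‖T - ρ‖ < 1` for one of the `≤ D` roots of `h` in `K` (write `h = c Π (X - ρ)`; the product of `‖c‖` and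
the norms of the roots of norm `> 1` is `≥ 1`).  For each root the row `x 0` is determined modulo the
maximal ideal (up to the unit `ν`), so it has at most `p ^ (2m - 2)` residues modulo `p ^ 2`
(argument of CTA for one row; two residues congruent modulo `p ^ 2` give `F` values that differ by
`≤ p ^ (-2)`). -/
def CgpStmt : Prop := ∀ p : ℕ, p.Prime → ∀ (K : Type) [NormedField K] [CharZero K]
  [IsUltrametricDist K] [IsAlgClosed K], Ext p K → ∀ (n m D : ℕ) (β : Fin m → K), Bas β →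
  ∀ ν : K, ‖ν‖ = 1 → ∀ F : MvPolynomial (Fin n) K, (∀ d, ‖MvPolynomial.coeff d F‖ ≤ 1) →
  (∃ d, ‖MvPolynomial.coeff d F‖ = 1) → (∀ i, MvPolynomial.degreeOf i F ≤ D) →
  (Rs p {a : Fin n → Fin m → ℤ | ‖MvPolynomial.eval (fun i => sv β (a i) * ν) F‖ < 1}).ncard * p ^ 2 ≤
    n * D * p ^ (2 * (n * m))

/-! ### Part N: the density lemma -/

/-- DNK (200 lines; compare `Pool/Agent/Helper17_ZP3/DN3.lean`, which may be imported: `card_res`,
`card_mult` and the choice of `T` there).  Density with exceptional residues modulo `p ^ 2`.  PROOF.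
Given `ε` choose `p₁ ≥ p₀` with `C/p₁` and `Σ_(q ≥ p₁) 1/q ^ 2` small against `ε`, then a finite set
`T` of primes `≥ p₁` in `𝒫` with `Π_(p ∈ T) (1 - 1/p)` small (`1 - x ≤ exp (-x)`; the sum of `1/p` over
the `p ∈ 𝒫`, `p ≥ p₁`, diverges).  `(a, N) ∈ A`: (i) `N` has no divisor in `T`: by the Chinese
remainder theorem at most `(H/Q + 1) Q Π (1 - 1/p)` values of `N`, `Q = Π_T p`; (ii) `N` is divisible
by `p ^ 2` for some `p ∈ T`: at most `Σ H/p ^ 2` values; (iii) otherwise let `p` be the smallest element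
of `T` dividing `N`: `a ∈ B p N`, so the residue of `a` modulo `p ^ 2` is in `Rs p (B p N)`: at most
`C p ^ (2nm - 1)` residues, hence at most `((2H+1)/p ^ 2 + 1) ^ (nm) C p ^ (2nm - 1) ≤
(4H) ^ (nm) C/p` values of `a` (`H ≥ p ^ 2`), for each `N`.  Total at most
`small * 4 ^ (nm) H ^ (nm + 1)`. -/
def DnkStmt : Prop := ∀ (n m p₀ : ℕ) (C ε : ℝ), 0 < ε → ∀ PP : Set ℕ, (∀ p ∈ PP, p.Prime) →
  ¬ Summable (fun p : {p : ℕ // p ∈ PP} => ((p : ℕ) : ℝ)⁻¹) →
  ∀ B : ℕ → ℤ → Set (Fin n → Fin m → ℤ),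
  (∀ p ∈ PP, p₀ ≤ p → ∀ N : ℤ, (p : ℤ) ∣ N → ¬ (p : ℤ) ^ 2 ∣ N →
    ((Rs p (B p N)).ncard : ℝ) * p ≤ C * (p : ℝ) ^ (2 * (n * m))) →
  ∃ H₀ : ℕ, ∀ H : ℕ, H₀ ≤ H → ∀ A : Finset ((Fin n → Fin m → ℤ) × ℤ),
    (∀ w ∈ A, (∀ i r, |w.1 i r| ≤ H) ∧ 1 ≤ w.2 ∧ w.2 ≤ H ∧
      ¬ ∃ p ∈ PP, p₀ ≤ p ∧ (p : ℤ) ∣ w.2 ∧ ¬ ((p : ℤ) ^ 2 ∣ w.2) ∧ w.1 ∉ B p w.2) →
    (A.card : ℝ) ≤ ε * (H : ℝ) ^ (n * m + 1)

end

end Pool.Agent.ZPK
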