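import Pool.Agent.ZPK.DefsA

/-!
Squad ZPK (MP_6e1a06_nt), block A: from the curve to the local theorem and back (statements with
complete proofs in the docstrings).  `K` is a complete algebraically closed ultrametric field whose
norm extends the `p`-adic norm (`Ext p K`), `ι : Qb →+* K` an embedding of the algebraic numbers.
Already landed and free to cite: everything in `Pool.Agent.Helper51_ZP3.Asm` (for instance
`Pool.Agent.ZP3.H3.*` in `Helper3_ZP3.PPT0`: `common`, `PS`, `exists_phi`, `fg_poly`, `evK_poly`).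
-/

set_option autoImplicit false

namespace Pool.Agent.ZPK

open Polynomial Pool.Agent.ZPT Pool.Agent.ZP3
open scoped NumberField

noncomputable section

/-- INT.  A number field in an ultrametric field.  PROOF.  First part: `y` is a root of a monic
integer polynomial and integers have norm `≤ 1`; if `‖ι y‖ > 1` the leading term is strictly larger
than the others.  Second part: `𝔭 = {y ∈ 𝓞 F : ‖ι y‖ < 1}` is a prime ideal of `𝓞 F` (kernel of
the reduction).  If `𝔭 = 0` take any `x = y / z` (all nonzero integers of `F` have norm 1).  If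
`𝔭 ≠ 0`, the localisation of the Dedekind domain `𝓞 F` at `𝔭` is a discrete valuation ring, so `x` or
`x⁻¹` is `y / z` with `y, z ∈ 𝓞 F`, `z ∉ 𝔭` (`ValuationRing.isInteger_or_isInteger`).  In the first
case we are done.  In the second case `x = z / y` and `‖ι y‖ = ‖ι z‖ / ‖ι x‖ ≥ 1`, so `‖ι y‖ = 1`. -/
def IntStmt : Prop := ∀ (F : Type) [Field F] [NumberField F] (K : Type) [NormedField K]
  [IsUltrametricDist K] (ι : F →+* K), (∀ y : 𝓞 F, ‖ι (y : F)‖ ≤ 1) ∧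
  ∀ x : F, ‖ι x‖ ≤ 1 → ∃ y z : 𝓞 F, ‖ι (z : F)‖ = 1 ∧ x * (z : F) = (y : F)

/-- UNF.  A number field is unramified at large primes.  Uses IntStmt, ZP3.URAStmt.  PROOF.
`F = IntermediateField.adjoin ℚ S` (inside `Qb`) is a number field, and `Subfield.closure S` is the
same set (it contains `ℚ`).  Let `T` be a finite set of generators of the `ℤ`-module `𝓞 F`, seen in
`Qb`.  For `p ≥ p₀` (URA for `T`) every `a = ι g`, `g ∈ T`, has `‖a ^ (p ^ F_g) - a‖ ≤ 1/p`; raising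
again and again to the power `p ^ F_g` gives the same for every positive multiple of `F_g`, so there
is a common exponent `m` (the product).  The integral elements `a` of `K` with
`‖a ^ (p ^ m) - a‖ ≤ 1/p` form a subring (the binomial coefficients are divisible by `p`:
`addp` of `Helper13_ZP3.RAYa`, or `u ↦ u ^ p` is additive modulo `p`), so it contains `ι (𝓞 F)`.  For
`x ∈ F` with `‖ι x‖ ≤ 1` write `x z = y` (INT); with `q = p ^ m`, `X = ι x`, ..:
`X ^ q - X = ((Y ^ q - Y) Z - Y (Z ^ q - Z)) / (Z ^ q Z)` has norm `≤ 1/p`. -/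
def UnfStmt : Prop := ∀ S : Finset Qb, ∃ p₀ : ℕ, ∀ p : ℕ, p.Prime → p₀ ≤ p →
  ∀ (K : Type) [NormedField K] [CharZero K] [IsUltrametricDist K], Ext p K → ∀ ι : Qb →+* K,
  Unr p ((Subfield.closure (S : Set Qb)).map ι)

/-- PUO.  Points of a plane curve near infinity in the first coordinate, for every choice of the root
`t` of `1 / x`.  Uses ZP3.PUMStmt, ZP3.FGSStmt, ZP3.EVFStmt, ZP3.URAStmt, ZP3.URRStmt.  PROOF: the
proof of PPT (`Helper3_ZP3/PPT.lean`, theorem `ppt1`; copy and adapt it), with three changes: (a) `t`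
is given, `x₂ = 1 / t ^ m`, instead of being chosen; (b) all roots `ρ` of the factorisation are kept:
`ρ = 0` gives `x = 0`, i.e. `e = 0`, `f = 0`; if `ρ = t ^ j ρ*`, `ρ*(0) ≠ 0`, and
`g̃_d(t ^ m) = t ^ k g*`, then `e = k - j`, `f = ρ* / g*` when `k > j`, and `e = 0`,
`f = t ^ (j - k) ρ* / g*` when `k ≤ j`; (c) no condition on the size of `x`.  (If `d = 0` replace `G`
by `G * X`, as in `ppt`.) -/
def PuoStmt : Prop := ∀ G : Qb[X][X], G ≠ 0 → ∃ (m L : ℕ) (e : Fin L → ℕ)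
  (f : Fin L → PowerSeries Qb) (p₀ : ℕ), 1 ≤ m ∧ (∀ l, FG (f l)) ∧
  (∀ l, 1 ≤ e l → PowerSeries.constantCoeff (f l) ≠ 0) ∧ ∀ p : ℕ, p.Prime → p₀ ≤ p →
  ∀ (K : Type) [NormedField K] [CharZero K] [IsUltrametricDist K] [CompleteSpace K], Ext p K →
  ∀ (ι : Qb →+* K) (t x : K), 0 < ‖t‖ → ‖t‖ < 1 → evQ ι G (1 / t ^ m) x = 0 →
    ∃ l, x = evK ι (f l) t / t ^ e l

/-- SIM.  Simultaneous expansions of all coordinates.  Uses ZP3.PLNStmt, PuoStmt, ZP3.FGSStmt,
ZP3.URAStmt, ZP3.EVFStmt.  PROOF.  For `i ≠ b` take `G_i` from PLN for the pair `(b, i)`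
(`evQ id G_i (x_b) (x_i) = 0` on the algebraic points of `V P`; moved to `K` by `ι`, lemma `evQ_map` of
`Helper13_ZP3.F3A`) and `m_i`, `e_i`, `f_i` from PUO.  Let `m` be the product of the `m_i`; for a given
`t` apply PUO with `t ^ (m / m_i)`: the exponents become `(m / m_i) e` and the series
`PowerSeries.expand (m / m_i) f` (FGS: still `FG`, same constant coefficient; value by EVF, for `p`
large against a finite set of generators of the coefficients of all series: `common` of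
`Helper3_ZP3.PPT0` and URA).  For `i = b` the exponent is `m` and the series is `1` (`evK ι 1 t = 1`).
The branches are indexed by the functions which choose one expansion for every `i`, a finite type. -/
def SimStmt : Prop := ∀ (n : ℕ) (P : Ideal (MvPolynomial (Fin n) ℂ)), P.IsPrime →
  ringKrullDim (MvPolynomial (Fin n) ℂ ⧸ P) = 1 → DefQbar P → ∀ b : Fin n,
  ∃ (m N : ℕ) (e : Fin N → Fin n → ℕ) (f : Fin N → Fin n → PowerSeries Qb) (p₀ : ℕ), 1 ≤ m ∧
  (∀ l, Br b (e l) (f l)) ∧ ∀ p : ℕ, p.Prime → p₀ ≤ p →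
  ∀ (K : Type) [NormedField K] [CharZero K] [IsUltrametricDist K] [CompleteSpace K], Ext p K →
  ∀ ι : Qb →+* K, Sim P b m N e f ι

/-- LRG.  Large primes for a branch.  Uses ZP3.URAStmt, ZP3.EVFStmt.  PROOF.  `S` = generators for
the coefficients of all `f i` (`common` of `Helper3_ZP3.PPT0`); URA for `S` and the constant
coefficients.  `‖evK ι (f i) t‖ ≤ 1` by EVF, and `‖evK ι (f i) t - ι (f i)(0)‖ ≤ ‖t‖ < 1`. -/
def LrgStmt : Prop := ∀ (n : ℕ) (b : Fin n) (e : Fin n → ℕ) (f : Fin n → PowerSeries Qb), Br b e f →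
  ∃ (S : Finset Qb) (p₀ : ℕ), (∀ i m, PowerSeries.coeff m (f i) ∈ Subfield.closure (S : Set Qb)) ∧
  ∀ p : ℕ, p.Prime → p₀ ≤ p →
  ∀ (K : Type) [NormedField K] [CharZero K] [IsUltrametricDist K] [CompleteSpace K], Ext p K →
  ∀ (ι : Qb →+* K), (∀ i m, ‖cf ι (f i) m‖ ≤ 1) ∧ (∀ i, 1 ≤ e i → ‖cf ι (f i) 0‖ = 1) ∧
    ∀ (t : K) (i : Fin n), ‖t‖ < 1 → ‖evK ι (f i) t‖ ≤ 1 ∧
      ‖evK ι (f i) t - cf ι (f i) 0‖ ≤ ‖t‖ ∧ (1 ≤ e i → ‖evK ι (f i) t‖ = 1)

/-- DIS.  Isogenous coordinates are not both integral after the translation.  Pure norm estimate.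
PROOF.  `x_i = y_i / t ^ (e i)` where `y_i` is at distance `< 1` from `A i 0`.  If both
`‖x_i + g_i/p‖ ≤ 1` and `‖x_j + g_j/p‖ ≤ 1` then `‖x_i‖ = ‖x_j‖ = p` (`‖g_i/p‖ = p > 1`), so
`e i, e j ≥ 1` (if `e i = 0` then `‖x_i‖ = ‖y_i‖ ≤ 1`), `‖y_i‖ = ‖y_j‖ = 1`, and
`‖t‖ ^ (e i) = 1/p = ‖t‖ ^ (e j)`, so `e i = e j =: e`.  With `w = t ^ e / p`, `‖w‖ = 1`:
`y_i + g_i w = t ^ e (x_i + g_i/p)` has norm `≤ 1/p`, the same for `j`.  Hence
`g_j (A i 0) - g_i (A j 0) = g_j (y_i + g_i w) - g_i (y_j + g_j w) + (small)` has norm `< 1`: this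
contradicts `Di`. -/
def DisStmt : Prop := ∀ p : ℕ, p.Prime → ∀ (K : Type) [NormedField K] [CharZero K]
  [IsUltrametricDist K], Ext p K → ∀ (n : ℕ) (e : Fin n → ℕ) (A : Fin n → ℕ → K) (g y : Fin n → K)
  (t : K) (i j : Fin n), i ≠ j → Di e A g → (∀ u, ‖g u‖ = 1) → (∀ u, ‖y u‖ ≤ 1) →
  (∀ u, 1 ≤ e u → ‖y u‖ = 1) → (∀ u, ‖y u - A u 0‖ < 1) → 0 < ‖t‖ → ‖t‖ < 1 →
  1 < ‖y i / t ^ e i + g i / p‖ ∨ 1 < ‖y j / t ^ e j + g j / p‖

/-- BLV.  Bounded level.  Uses SimStmt, UnfStmt, LrgStmt, DisStmt, NNStmt, IKStmt, ISStmt, TIStmt,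
TSStmt, TQStmt, EHStmt (and `evQ_map`, F3A as a model).  PROOF.  For every `b` take `m_b` and the
branches of SIM; `N` of the statement numbers the pairs (`b`, branch).  For every branch take `S` from
LRG, `S' = S ∪ B`, `L` = the image of `Subfield.closure S'` (UNF: unramified), and the `p₀` of
`Loc Gn`; `p₀` is the maximum of all these and `7`.  Given `p, K, ι, c`: `g_i = p ι(c_i)`, of norm 1, in
`L`; `g_i / p = ι(c_i)`.
For `y ∈ V P` write `z_u = y_u + c_u`.  If `‖ι y_u‖ ≠ p` then `‖ι z_u‖ ≥ p > 1`.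
(1) If `z_u`, `z_v` are isogenous, `u ≠ v`, then `‖ι z_u‖ > 1`, `‖ι z_v‖ > 1`: if one is `> 1` use IK
(and IS); if both are `≤ 1` then `‖ι y_u‖ = p`: choose `t` with `t ^ m_u = (ι y_u)⁻¹` (`K` is
algebraically closed), take the branch from SIM with base `u` and apply DIS with
`y = evK ι (f _) t` (LRG): contradiction.
(2) For every `u` with `‖ι z_u‖ > 1` TS gives `q_u`, `0 < ‖q_u‖ < 1`, `jv U q_u = ι z_u`; by IK and TI
`Dep q_u q_v` for isogenous `z_u`, `z_v`.  `Dep` is transitive (`q^a = q'^b`, `q'^c = q''^d` give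
`q^(a c) = q''^(b d)`).
(3) If `Dep q_u q_v` and `‖ι y_u‖ ≤ 1`, `‖ι y_v‖ ≤ 1` then NN (`C = 1`) gives fixed exponents
`q_u ^ s = q_v ^ t`.
(4) Otherwise (two disjoint pairs, each with a coordinate of norm `> 1`; or a triple with at least two
coordinates of norm `> 1`): let `b` be an index of the configuration with `‖ι y_b‖ = p` if there is
one, and any index of it with `‖ι y_b‖ > 1` otherwise.  Choose `t` with `t ^ m_b = (ι y_b)⁻¹`, then
`0 < ‖t‖ < 1`, and the branch `(e, f)` of SIM; `At` holds for all `u` of the configuration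
(`ι y_u = evK ι (f u) t / t ^ e u`); `Bc`: if `Cr p (e u) t` then `e u ≥ 1` and `‖ι y_u‖ = p` (LRG), and
`Cr p (e b) t` if `‖ι y_b‖ = p`; `1 ≤ e u` if `‖ι y_u‖ > 1` (LRG).  `Loc Gn` gives `M` (depending only
on the branch and the indices) and `Bd M` for one pair.
(5) `q_u ^ s = q_v ^ t` gives `ev2 (Psi (s t)) = 0` in `K` (TQ), hence in `ℂ` (EH, `ι` injective).  The
level is at most the maximum of finitely many `M * M` and `s t`. -/
def BlvStmt : Prop := ∀ Gn : GenT, Loc Gn → ∀ (U : PowerSeries ℚ) (Psi : ℕ → ℚ[X][X]), IsU U →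
  PsiC Psi → ∀ (n : ℕ) (P : Ideal (MvPolynomial (Fin n) ℂ)), P.IsPrime →
  ringKrullDim (MvPolynomial (Fin n) ℂ ⧸ P) = 1 → DefQbar P → ∀ B : Finset Qb,
  ∃ (p₀ N : ℕ) (b : Fin N → Fin n) (e : Fin N → Fin n → ℕ) (f : Fin N → Fin n → PowerSeries Qb),
  (∀ l, Br (b l) (e l) (f l)) ∧ ∀ p : ℕ, p.Prime → p₀ ≤ p →
  ∀ (K : Type) [NormedField K] [CharZero K] [IsUltrametricDist K] [CompleteSpace K]
    [IsAlgClosed K], Ext p K → PsiK U Psi K → ∀ (ι : Qb →+* K) (c : Fin n → Qb),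
  (∀ i, c i ∈ Subfield.closure (B : Set Qb)) → (∀ i, ‖ι (c i)‖ = p) →
  (∀ l, Gn p K n (e l) (fun i => cf ι (f l i)) (fun i => (p : K) * ι (c i)) ∧
    Di (e l) (fun i => cf ι (f l i)) (fun i => (p : K) * ι (c i))) → BLev Psi P c

/-- FLV.  Finiteness from bounded level.  Uses ICStmt, IBStmt, CFStmt, CAStmt, PFStmt.  PROOF: the
proof of F3B (`Helper92_ZP3/F3B.lean`, copy and adapt it) with `c : Fin n → Qb` (PF is stated for
algebraic `c`) and `Atyp` instead of `Atyp3` (in both cases of `Atyp` two coordinates `i ≠ j` are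
isogenous). -/
def FlvStmt : Prop := ∀ (Psi : ℕ → ℚ[X][X]), PsiC Psi →
  ∀ (n : ℕ) (P : Ideal (MvPolynomial (Fin n) ℂ)), P.IsPrime →
  ringKrullDim (MvPolynomial (Fin n) ℂ ⧸ P) = 1 → DefQbar P → ∀ c : Fin n → Qb,
  BLev Psi P c → Q1For P (fun i => (c i : ℂ))

/-- FNA.  The output of block A.  Uses KXStmt, PSStmt, BlvStmt, FlvStmt (`K = ℂ_[p]`). -/
def FnaStmt : Prop := ∀ Gn : GenT, Loc Gn → ∀ (n : ℕ) (P : Ideal (MvPolynomial (Fin n) ℂ)),
  P.IsPrime → ringKrullDim (MvPolynomial (Fin n) ℂ ⧸ P) = 1 → DefQbar P → ∀ B : Finset Qb,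
  ∃ (p₀ N : ℕ) (b : Fin N → Fin n) (e : Fin N → Fin n → ℕ) (f : Fin N → Fin n → PowerSeries Qb),
  (∀ l, Br (b l) (e l) (f l)) ∧ ∀ (p : ℕ) [Fact p.Prime], p₀ ≤ p →
  ∀ (ι : Qb →+* ℂ_[p]) (c : Fin n → Qb),
  (∀ i, c i ∈ Subfield.closure (B : Set Qb)) → (∀ i, ‖ι (c i)‖ = p) →
  (∀ l, Gn p ℂ_[p] n (e l) (fun i => cf ι (f l i)) (fun i => (p : ℂ_[p]) * ι (c i)) ∧
    Di (e l) (fun i => cf ι (f l i)) (fun i => (p : ℂ_[p]) * ι (c i))) →
  Q1For P (fun i => (c i : ℂ))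

end

end Pool.Agent.ZPK
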