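import Pool.Agent.ZPK.StmtsF
import Pool.Agent.ZPK.StmtsA
import Pool.Agent.ZPK.StmtsD

/-!
Squad ZPK (MP_6e1a06_nt), THEOREM K: block G, the non generic translations are rare, and the final
theorem.  `β r` are the images of the basis, `ν` a unit, `g_i = sv β (a i) * ν` the numerators.
-/

set_option autoImplicit false

namespace Pool.Agent.ZPK

open Polynomial Pool.Agent.ZPT Pool.Agent.ZP3

noncomputable section

/-- The numerators `g_i` of the translation given by the matrix `a`. -/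
def gv {K : Type} [Field K] {n m : ℕ} (β : Fin m → K) (ν : K) (a : Fin n → Fin m → ℤ) : Fin n → K :=
  fun i => sv β (a i) * ν

/-- GXA (200 lines, STRONG, no hypotheses; pure algebra modulo the maximal ideal).  The condition `GenX`
fails for at most one residue class of `g_b` if the other `g_x` are fixed.  PROOF.  All norms are `≤ 1`;
work modulo the maximal ideal (`≡`).  Indices `0, 1, 2, 3` for `b, i, j, k`; `l_s = G_s + B_s X`,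
`h_s = n_s + m_s X` as in `Hx`; types `<`, `=`, `>` of a coordinate by comparison of `e x` with `e b`:
type `<`: `l = g_x`, `h = μ X`; type `=`: `l = g_x + A_x0 X`, `h = μ X`; type `>`: `l = X`,
`h = μ X + η` (`μ = Mu`, `η = Nu`; `n_s ≠ 0` only for type `>`).  `l_0 = g_b + X`, `h_0 = 0`
(`A b 0 = 1`, `A b m = 0`).  `Mu` and `Nu` are `0` or units: `A x r`, `r ≤ E`, is `0` or a unit, `e x`,
`e b` are units for the relevant `x` (`1 ≤ e ≤ E < p`), `A x 0` is a unit if `1 ≤ e x`.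
`Hx = - d₂₃ (g_b + X) h₁ - (g_b B₁ - G₁) W`, `W = l₃ h₂ - l₂ h₃`, `d₂₃ = G₂B₃ - G₃B₂`: this is
`g_b P₁ + P₀` with `P₁ = - d₂₃ h₁ - B₁ W`, `P₀ = - d₂₃ X h₁ + G₁ W`, which do not involve `g_b`.
Suppose `‖g_b - g'_b‖ = 1` and all coefficients of both polynomials `Hb` have norm `≠ 1`, hence `< 1`.
The `P`'s for `g` and `g'` are congruent, so `(g_b - g'_b) P₁ ≡ 0`, `P₁ ≡ 0`, `P₀ ≡ 0`.
`X P₁ - P₀ = - l₁ W`, and `l₁` has a coefficient of norm 1, so `W ≡ 0` (Gauss norm: a polynomial with a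
unit coefficient is not a zero divisor modulo the maximal ideal; here `deg l₁ ≤ 1` and the argument is
elementary).  `d₂₃` is a unit: types of `(j, k)`: `(=, =)`: `Di`; `(<, =)`: `g_j A_k0`; `(<, >)`: `g_j`;
`(=, >)`: `g_j`; and symmetric; both `<` and both `>` are excluded.  So `h₁ ≡ 0`.  `W ≡ 0` gives
`h₂ ≡ h₃ ≡ 0`: types `(<, =)`: `(g_k + A_k0 X) μ₂ X ≡ g_j μ₃ X`: `μ₂ ≡ 0`, `μ₃ ≡ 0`; `(<, >)`:
`X μ₂ X ≡ g_j (μ₃ X + η₃)`: `μ₂ ≡ 0`, `μ₃ ≡ η₃ ≡ 0`; `(=, =)`: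
`(g_k + A_k0 X) μ₂ ≡ (g_j + A_j0 X) μ₃`: a linear system with determinant `± d₂₃`; `(=, >)`:
`X μ₂ X ≡ (g_j + A_j0 X)(μ₃ X + η₃)`: `η₃ ≡ 0`, then `μ₃ ≡ 0`, `μ₂ ≡ 0`; and symmetric (exchange of
`j` and `k` changes the sign of `W`).  So all `μ_x`, `η_x`, `x ∈ {i, j, k}`, are `≡ 0`, hence `= 0`:
contradiction.  (`i = j` is allowed.) -/
def GxaStmt : Prop := ∀ p : ℕ, p.Prime → ∀ (K : Type) [NormedField K] [CharZero K]
  [IsUltrametricDist K], Ext p K → ∀ (n : ℕ) (e : Fin n → ℕ) (A : Fin n → ℕ → K) (E : ℕ),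
  ZU e A E → E < p → (∀ i r, ‖A i r‖ ≤ 1) → (∀ i, 1 ≤ e i → ‖A i 0‖ = 1) →
  ∀ g g' : Fin n → K, (∀ i, ‖g i‖ = 1) → (∀ i, ‖g' i‖ = 1) → Di e A g →
  ∀ (b i j k : Fin n) (m : ℕ), b ≠ i → b ≠ j → b ≠ k → j ≠ k → i ≠ k → 1 ≤ e b → A b 0 = 1 →
  (∀ r, 1 ≤ r → A b r = 0) → 1 ≤ m → m < e b → ¬ (e j < e b ∧ e k < e b) →
  ¬ (e b < e j ∧ e b < e k) →
  (∃ x ∈ ({i, j, k} : Set (Fin n)), Mu (e b) (e x) (A x) m ≠ 0 ∨ Nu (e b) (e x) (A x) (g x) m ≠ 0) →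
  (∀ x, x ≠ b → ‖g x - g' x‖ < 1) → (∀ r, ‖(Hb e A g b i j k m).coeff r‖ ≠ 1) →
  (∀ r, ‖(Hb e A g' b i j k m).coeff r‖ ≠ 1) → ‖g b - g' b‖ < 1

/-- CDI (100 lines; uses CTA).  Units, and different zeros.  PROOF.  (`‖sv β x‖ ≤ 1` always.)  First: for
given `i` the set `‖sv β (a i)‖ < 1` satisfies the hypothesis of CTA for row `i`.  Second: for given
`i ≠ j`, `1 ≤ e i = e j`, the set `‖A i 0 * g j - A j 0 * g i‖ < 1`: if the rows `≠ j` agree modulo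
`p ^ 2` then `g i` changes by `≤ p ^ (-2)`, so `‖A i 0 (g j - g' j)‖ < 1`.  `Rs` of a union is the union
of the `Rs`. -/
def CdiStmt : Prop := ∀ p : ℕ, p.Prime → ∀ (K : Type) [NormedField K] [CharZero K]
  [IsUltrametricDist K], Ext p K → ∀ (n m : ℕ) (β : Fin m → K), Bas β → ∀ ν : K, ‖ν‖ = 1 →
  ∀ (e : Fin n → ℕ) (A : Fin n → ℕ → K), (∀ i, ‖A i 0‖ ≤ 1) → (∀ i, 1 ≤ e i → ‖A i 0‖ = 1) →
  (Rs p {a : Fin n → Fin m → ℤ | ¬ ∀ i, ‖sv β (a i)‖ = 1}).ncard * p ^ 2 ≤ n * p ^ (2 * (n * m)) ∧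
  (Rs p {a : Fin n → Fin m → ℤ | (∀ i, ‖sv β (a i)‖ = 1) ∧ ¬ Di e A (gv β ν a)}).ncard * p ^ 2 ≤
    n ^ 2 * p ^ (2 * (n * m))

/-- CFA (120 lines; uses CFG).  Failures of `Gen.zero` and `Gen.infty`.  PROOF.  If `d` is not one of the
`e i` the set `S` is empty and `FI` is trivial; so union over `d = e i₀`, `i₀ : Fin n`.  CFG with
`v = none`, `G` = the matrices with `‖sv β (a i)‖ = 1`, `lam a i = A i 0 / g_i` (all of norm 1 on `S`):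
if the rows `k ≠ i` agree modulo `p ^ 2` then `g_k` changes by `≤ p ^ (-2)`, and
`‖A i 0/g_i - A i 0/g'_i‖ = ‖g_i - g'_i‖ = ‖sv β (a i) - sv β (a' i)‖`.  The same for `g_i / A i 0`. -/
def CfaStmt : Prop := ∀ p : ℕ, p.Prime → 11 ≤ p → ∀ (K : Type) [NormedField K] [CharZero K]
  [IsUltrametricDist K], Ext p K → ∀ (n m : ℕ) (β : Fin m → K), Bas β → ∀ ν : K, ‖ν‖ = 1 →
  ∀ (e : Fin n → ℕ) (A : Fin n → ℕ → K), (∀ i, 1 ≤ e i → ‖A i 0‖ = 1) →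
  (Rs p {a : Fin n → Fin m → ℤ | (∀ i, ‖sv β (a i)‖ = 1) ∧
    ¬ ∀ d, 1 ≤ d → FI {i | e i = d} (fun i => A i 0 / gv β ν a i)}).ncard * p ≤
    n * 25 ^ n * p ^ (2 * (n * m)) ∧
  (Rs p {a : Fin n → Fin m → ℤ | (∀ i, ‖sv β (a i)‖ = 1) ∧
    ¬ ∀ d, 1 ≤ d → FI {i | e i = d} (fun i => gv β ν a i / A i 0)}).ncard * p ≤
    n * 25 ^ n * p ^ (2 * (n * m))

/-- CFB (120 lines; uses CFG).  Failures of `Gen.zer`.  PROOF.  For given `v` with `1 ≤ e v`: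
`FIo {i | e i = e v ∧ i ≠ v} lam z` follows from `FI {i | e i = e v} lam'`, `lam' v = z`, `lam' i = lam i`
for `i ≠ v` (put `c' = c`, `c' v = c₀`, the same for `d`; `c v = d v = 0`).  CFG with `some v`, `G` = the
matrices with units and `Di`, `lam'`: `‖lam' v‖ = ‖A v 0/g_v‖ = 1`; for `i ∈ S`, `i ≠ v`,
`x_i = g_i A v 0 - A i 0 g_v` has norm 1 (`Di`), `lam' i = A i 0 A v 0/x_i`; if the rows `≠ i` agree
modulo `p ^ 2` then (`v ≠ i`) `g_v` and `g_k`, `k ≠ i`, change by `≤ p ^ (-2)`, and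
`‖lam' a i - lam' a' i‖ = ‖x_i - x'_i‖ < 1` gives `‖g_i - g'_i‖ < 1`.  Union over `v : Fin n`. -/
def CfbStmt : Prop := ∀ p : ℕ, p.Prime → 11 ≤ p → ∀ (K : Type) [NormedField K] [CharZero K]
  [IsUltrametricDist K], Ext p K → ∀ (n m : ℕ) (β : Fin m → K), Bas β → ∀ ν : K, ‖ν‖ = 1 →
  ∀ (e : Fin n → ℕ) (A : Fin n → ℕ → K), (∀ i, 1 ≤ e i → ‖A i 0‖ = 1) →
  (Rs p {a : Fin n → Fin m → ℤ | (∀ i, ‖sv β (a i)‖ = 1) ∧ Di e A (gv β ν a) ∧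
    ¬ ∀ v, 1 ≤ e v → FIo {i | e i = e v ∧ i ≠ v}
      (fun i => A i 0 * A v 0 / (gv β ν a i * A v 0 - A i 0 * gv β ν a v))
      (-(A v 0 / gv β ν a v))}).ncard * p ≤ n * 25 ^ n * p ^ (2 * (n * m))

/-- CNX (100 lines; uses CTA, GXA).  Failures of `GenX`.  PROOF.  For given `b, i, j, k, m` (`m < e b ≤ E`:
at most `n ^ 4 E` cases; the conditions on the indices do not depend on `a`) the set of the `a` with
units, `Di`, `Mu ≠ 0 ∨ Nu ≠ 0` for some `x ∈ {i, j, k}` and no coefficient of `Hb` of norm 1 satisfies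
the hypothesis of CTA for row `b`, by GXA. -/
def CnxStmt : Prop := ∀ p : ℕ, p.Prime → ∀ (K : Type) [NormedField K] [CharZero K]
  [IsUltrametricDist K], Ext p K → ∀ (n m : ℕ) (β : Fin m → K), Bas β → ∀ ν : K, ‖ν‖ = 1 →
  ∀ (e : Fin n → ℕ) (A : Fin n → ℕ → K) (E : ℕ), ZU e A E → E < p → (∀ i r, ‖A i r‖ ≤ 1) →
  (∀ i, 1 ≤ e i → ‖A i 0‖ = 1) →
  (Rs p {a : Fin n → Fin m → ℤ | (∀ i, ‖sv β (a i)‖ = 1) ∧ Di e A (gv β ν a) ∧
    ¬ GenX e A (gv β ν a)}).ncard * p ^ 2 ≤ n ^ 4 * E * p ^ (2 * (n * m))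

/-- CGQ (180 lines, STRONG; uses CTB, ZP3.URR, ZP3.THB, LGB).  Failures of `GenQ`.  PROOF.  `N_j = g_j +
p (A j 0 - u₁)` is an unramified unit (URR: sums and products of `Ur`; `g_j = ν Σ a_jr β_r`; an element of
norm `≤ 1/p` is in `Ur`), so `‖Log N_j‖ ≤ 1/p` (LGB (5)); `θ = Log N_j - Log N_l`, `‖θ/p‖ ≤ 1`.  If `GenQ`
fails: either `‖θ/p‖ < 1` for some `j, l`, or `‖θ/p - z y‖ < 1` for some `j, l, i, k` and `z ∈ ℤ`,
where `y = y_ik` is determined by `i, k`: from `p ^ ν y = p ^ ν' y'`, `‖y‖ = ‖y'‖ = 1`: `ν = ν'`, `y = y'`; and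
`z` may be replaced by its residue modulo `p`.  For each of these `≤ n ^ 2 + n ^ 4 p` conditions CTB
applies with row `j`: let the rows `≠ j` of `a`, `a'` agree modulo `p ^ 2` and row `j` modulo `p`.  Then
`N_l/N'_l = 1 + x`, `‖x‖ ≤ p ^ (-2)`, so `‖Log N_l - Log N'_l‖ ≤ p ^ (-2)` (LGB (4), `1/p < th`), and
`‖θ - θ'‖ < 1/p`, so `‖Log N_j - Log N'_j‖ < 1/p`; `N_j/N'_j = 1 + x`, `‖x‖ = ‖g_j - g'_j‖ ≤ 1/p < th`, so
`‖g_j - g'_j‖ = ‖Log (1 + x)‖ < 1/p`. -/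
def CgqStmt : Prop := ∀ p : ℕ, p.Prime → 5 ≤ p → ∀ (K : Type) [NormedField K] [CharZero K]
  [IsUltrametricDist K], Ext p K → ∀ Log : K → K, IsLog p Log →
  ∀ (n m : ℕ) (β : Fin m → K), Bas β → (∀ r, Ur p (β r)) → ∀ ν : K, Uu p ν →
  ∀ (u₁ : K) (e : Fin n → ℕ) (A : Fin n → ℕ → K), ‖u₁‖ ≤ 1 → (∀ i, ‖A i 0‖ ≤ 1) →
  (Rs p {a : Fin n → Fin m → ℤ | (∀ i, ‖sv β (a i)‖ = 1) ∧
    ¬ GenQ p Log u₁ e A (gv β ν a)}).ncard * p ≤ (n ^ 2 + n ^ 4) * p ^ (2 * (n * m))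

/-- CNK (60 lines; uses CDI, CFA, CFB, CNX, CGQ).  Sum of the counts (`Rs` is monotone and `Rs` of a union
is the union; `Set.ncard_union_le`, `Set.ncard_le_ncard` with finiteness: `Rs p E` is contained in a
finite box). -/
def CnkStmt : Prop := ∀ p : ℕ, p.Prime → 11 ≤ p → ∀ (K : Type) [NormedField K] [CharZero K]
  [IsUltrametricDist K], Ext p K → ∀ Log : K → K, IsLog p Log →
  ∀ (n m : ℕ) (β : Fin m → K), Bas β → (∀ r, Ur p (β r)) → ∀ ν : K, Uu p ν →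
  ∀ (u₁ : K) (e : Fin n → ℕ) (A : Fin n → ℕ → K) (E : ℕ), ‖u₁‖ ≤ 1 → ZU e A E → E < p →
  (∀ i r, ‖A i r‖ ≤ 1) → (∀ i, 1 ≤ e i → ‖A i 0‖ = 1) →
  (Rs p {a : Fin n → Fin m → ℤ | ¬ ((∀ i, ‖sv β (a i)‖ = 1) ∧ Di e A (gv β ν a) ∧
    Gen p Log u₁ e A (gv β ν a))}).ncard * p ≤
    (n + n ^ 2 + 3 * (n * 25 ^ n) + n ^ 4 * E + (n ^ 2 + n ^ 4)) * p ^ (2 * (n * m))

/-- CNP (150 lines; uses CnkStmt, BigStmt, LrgStmt, UnfStmt, UuqStmt, LogStmt, ZP3.URAStmt, ZP3.URRStmt,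
ZPT.KXStmt).  The exceptional matrices for finitely many branches.  PROOF.  For every branch `l`: BIG
gives `E_l`, LRG a finite set `S_l` that generates the coefficients, UNF for `S_l` the unramified field
`L = (Subfield.closure S_l).map ι`; with `g = 1` one gets `Big p L (bb l) (e l) (cf ι ..) 1 E_l`: this
contains `ZU`, `‖A i r‖ ≤ 1`, `‖A i 0‖ = 1` for `1 ≤ e i`, `E_l < p`.  `Log` from LOG.  If there is no
`U` with `IsU U` then `GnK` is true as soon as `Log` exists; otherwise `U` is unique (UUQ),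
`u₁ = coeff 1 U`, `‖u₁‖ ≤ 1` by `IsU.pint` and `Ext`; `Gen p Log u₁ ..` implies `GnK`.  `ν = p / z`, a
rational number of norm 1 (`p ∣ z`, `p ^ 2 ∤ z`), so `Uu p ν` (URR); `Ur p (ι (b r))` by URA;
`p ι((Σ_r a i r b r)/z) = sv (ι ∘ b) (a i) ν = gv .. i`.  CNK for every `l`, sum over `l : Fin N`
(if `N = 0` use CNK for no branch: take CDI, i.e. CNK with `e = 0`, `A = 0`, for the condition on the
units). -/
def CnpStmt : Prop := ∀ (n m N : ℕ) (b : Fin m → Qb) (bb : Fin N → Fin n) (e : Fin N → Fin n → ℕ)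
  (f : Fin N → Fin n → PowerSeries Qb), (∀ l, Br (bb l) (e l) (f l)) → ∃ p₀ C : ℕ,
  ∀ (p : ℕ) [Fact p.Prime], p₀ ≤ p → ∀ ι : Qb →+* ℂ_[p], Bas (fun r => ι (b r)) →
  ∀ z : ℤ, (p : ℤ) ∣ z → ¬ (p : ℤ) ^ 2 ∣ z →
  (Rs p {a : Fin n → Fin m → ℤ | ¬ ((∀ i, ‖sv (fun r => ι (b r)) (a i)‖ = 1) ∧
    ∀ l, GnK p ℂ_[p] n (e l) (fun i => cf ι (f l i))
        (fun i => (p : ℂ_[p]) * ι ((∑ r, ((a i r : ℤ) : Qb) * b r) / (z : Qb))) ∧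
      Di (e l) (fun i => cf ι (f l i))
        (fun i => (p : ℂ_[p]) * ι ((∑ r, ((a i r : ℤ) : Qb) * b r) / (z : Qb))))}).ncard * p ≤
    C * p ^ (2 * (n * m))

/-- PEM (100 lines; uses PndStmt, EmbStmt, ZP3.URAStmt, ZPT.KXStmt).  Primes and embeddings.  PROOF.
`r₀ ≠ r₁` two indices, `γ = b r₁ / b r₀` is irrational (linear independence, `b r₀ ≠ 0`);
`β = N₀ γ` is integral over `ℤ` for some integer `N₀ ≥ 1` (`exists_integral_multiple`) and irrational.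
`PP` = the primes for which `minpoly ℤ β` does not split modulo `p`; PND.  For `p ∈ PP` EMB gives `ι` with
`‖ι β - m‖ = 1` for all integers `m` (`K = ℂ_[p]`).  For large `p`: `‖ι (b r)‖ ≤ 1`,
`‖ι (b r₀)‖ = 1`, `‖ι N₀‖ = 1` (URA), so `‖ι γ - z‖ = ‖ι β - N₀ z‖ = 1` and
`‖ι (b r₁) - z ι (b r₀)‖ = 1`. -/
def PemStmt : Prop := ∀ (m : ℕ) (b : Fin m → Qb), 2 ≤ m → LinearIndependent ℚ b →
  ∃ (PP : Set ℕ) (p₀ : ℕ), (∀ p ∈ PP, p.Prime) ∧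
  ¬ Summable (fun p : {p : ℕ // p ∈ PP} => ((p : ℕ) : ℝ)⁻¹) ∧
  ∀ (p : ℕ) [Fact p.Prime], p ∈ PP → p₀ ≤ p → ∃ ι : Qb →+* ℂ_[p], Bas (fun r => ι (b r))

/-- TK (120 lines; uses FnaStmt, LoaStmt, CnpStmt, PemStmt, DnkStmt).  THEOREM K.  PROOF.  The `b r` are
elements of `Qb` (still linearly independent).  FNA with `Gn = GnK`, `Loc GnK` (LOA) and
`B = {b r}` gives `p₀`, `N` and the branches; PEM gives `PP` and for `p ∈ PP` an embedding `ι_p`.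
`B p z` = the set of CNP (for `p ∈ PP` large; empty otherwise).  DNK.  If
`(a, z)` has a prime `p ∈ PP`, `p` large, `p ∣ z`, `p ^ 2 ∤ z`, `a ∉ B p z`, then
`c_i = (Σ_r a i r b r)/z ∈ Subfield.closure B`, `‖ι c_i‖ = ‖sv‖ p = p`, and `Q1For P c` by FNA. -/
def TkStmt : Prop := ∀ (n : ℕ) (P : Ideal (MvPolynomial (Fin n) ℂ)), P.IsPrime →
  ringKrullDim (MvPolynomial (Fin n) ℂ ⧸ P) = 1 → DefQbar P →
  ∀ (m : ℕ) (b : Fin m → ℂ), 2 ≤ m → (∀ r, IsAlgebraic ℚ (b r)) → LinearIndependent ℚ b →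
  ∀ ε : ℝ, 0 < ε → ∃ H₀ : ℕ, ∀ H : ℕ, H₀ ≤ H → ∀ A : Finset ((Fin n → Fin m → ℤ) × ℤ),
    (∀ w ∈ A, (∀ i r, |w.1 i r| ≤ H) ∧ 1 ≤ w.2 ∧ w.2 ≤ H ∧
      ¬ Q1For P (fun i => (∑ r, (w.1 i r : ℂ) * b r) / (w.2 : ℂ))) →
    (A.card : ℝ) ≤ ε * (H : ℝ) ^ (n * m + 1)

end

end Pool.Agent.ZPK
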