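import Pool.Agent.ZP3.StmtsP

/-!
Squad ZPK (MP_6e1a06_nt): THEOREM K.  `K₀ ≠ ℚ` a number field, `S = V P` any irreducible curve over the
algebraic numbers in `Y(1)^n`: Q1 holds for `S + c` for 100 percent of the `c = a/N`, `a` integral
vectors of `K₀`.  Definitions.  `K` is always a complete algebraically closed ultrametric field of
characteristic 0 whose norm extends the `p`-adic norm (`Ext p K`).
-/

set_option autoImplicit false

namespace Pool.Agent.ZPK

open Polynomial Pool.Agent.ZPT Pool.Agent.ZP3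

noncomputable section

/-- The `p`-adic logarithm: a homomorphism on the nonzero elements with `Log p = 0`, given near `1`
by the series (so `Log` of every root of unity is `0`). -/
structure IsLog (p : ℕ) {K : Type} [NormedField K] (Log : K → K) : Prop where
  mul : ∀ x y : K, x ≠ 0 → y ≠ 0 → Log (x * y) = Log x + Log y
  pp : Log (p : K) = 0
  ser : ∀ x : K, ‖x‖ < 1 →
    HasSum (fun n : ℕ => (-1 : K) ^ n * x ^ (n + 1) / ((n : K) + 1)) (Log (1 + x))

/-- `L` is unramified with finite residue field: `x ^ (p ^ F) ≡ x` modulo `p` for all integral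
`x ∈ L`. -/
def Unr (p : ℕ) {K : Type} [NormedField K] (L : Subfield K) : Prop :=
  ∃ F : ℕ, 1 ≤ F ∧ ∀ x ∈ L, ‖x‖ ≤ 1 → ‖x ^ (p ^ F) - x‖ ≤ (p : ℝ)⁻¹

/-- The data of one coordinate near a point at infinity: `x = t ^ (-e) Σ A_n t ^ n` and the
translation is `g / p`. -/
structure Cd {K : Type} [NormedField K] (L : Subfield K) (e : ℕ) (A : ℕ → K) (g : K) : Prop where
  An : ∀ n, A n ∈ L
  An1 : ∀ n, ‖A n‖ ≤ 1
  A0 : 1 ≤ e → ‖A 0‖ = 1
  gL : g ∈ L
  g1 : ‖g‖ = 1

/-- `q` is the Tate parameter of the translated coordinate at the point with parameter `t`. -/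
structure At (p : ℕ) {K : Type} [NormedField K] (U : PowerSeries ℚ) (e : ℕ) (A : ℕ → K)
    (g t q : K) : Prop where
  q0 : 0 < ‖q‖
  q1 : ‖q‖ < 1
  eq : jv U q = (∑' n : ℕ, A n * t ^ n) / t ^ e + g / p

/-- Multiplicative dependence of Tate parameters (isogeny). -/
def Dep {K : Type} [NormedField K] (q q' : K) : Prop := ∃ a b : ℕ, 1 ≤ a ∧ 1 ≤ b ∧ q ^ a = q' ^ b

/-- Isogeny of bounded level. -/
def Bd (M : ℕ) {K : Type} [NormedField K] (q q' : K) : Prop :=
  ∃ i j : ℕ, 1 ≤ i ∧ i ≤ M ∧ 1 ≤ j ∧ j ≤ M ∧ q ^ i = q' ^ j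

/-- The states of a coordinate at a point: small, critical, large. -/
def Sm (p : ℕ) {K : Type} [NormedField K] (e : ℕ) (t : K) : Prop := (p : ℝ)⁻¹ < ‖t‖ ^ e
def Cr (p : ℕ) {K : Type} [NormedField K] (e : ℕ) (t : K) : Prop := ‖t‖ ^ e = (p : ℝ)⁻¹
def La (p : ℕ) {K : Type} [NormedField K] (e : ℕ) (t : K) : Prop := ‖t‖ ^ e < (p : ℝ)⁻¹

/-- Genericity: two integer combinations with coefficients in `{-2,..,2}`, supported in `S`, which are
not proportional over `ℚ` are not proportional over `𝔽_p` modulo the maximal ideal. -/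
def FI {K : Type} [NormedField K] {n : ℕ} (S : Set (Fin n)) (lam : Fin n → K) : Prop :=
  ∀ c d : Fin n → ℤ, (∀ i, |c i| ≤ 2 ∧ |d i| ≤ 2 ∧ (i ∉ S → c i = 0 ∧ d i = 0)) →
    (∃ i j, c i * d j ≠ c j * d i) → ∀ m : ℤ, ‖∑ i, ((c i - m * d i : ℤ) : K) * lam i‖ = 1

end

end Pool.Agent.ZPK
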