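import Pool.Agent.ZPK.Defs

/-!
Squad ZPK (MP_6e1a06_nt): definitions of block A, the interface between the curve and the local
theorem.
-/

set_option autoImplicit false

namespace Pool.Agent.ZPK

open Polynomial Pool.Agent.ZPT Pool.Agent.ZP3

noncomputable section

/-- Expansions of all coordinates at a point at infinity, with base coordinate `b`:
`x_i = f_i (t) / t ^ (e i)` and `x_b = 1 / t ^ (e b)` exactly. -/
structure Br {n : ℕ} (b : Fin n) (e : Fin n → ℕ) (f : Fin n → PowerSeries Qb) : Prop where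
  fg : ∀ i, FG (f i)
  eb : 1 ≤ e b
  fb : f b = 1
  f0 : ∀ i, 1 ≤ e i → PowerSeries.constantCoeff (f i) ≠ 0

/-- The coefficients of a power series over the algebraic numbers, seen in `K`. -/
def cf {K : Type} [NormedField K] (ι : Qb →+* K) (f : PowerSeries Qb) : ℕ → K :=
  fun m => ι (PowerSeries.coeff m f)

/-- The type of genericity predicates for the translation vector `g / p` (exponents `e`,
coefficients `A`). -/
abbrev GenT : Type 1 := ∀ (_ : ℕ) (K : Type) [NormedField K] (n : ℕ), (Fin n → ℕ) →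
  (Fin n → ℕ → K) → (Fin n → K) → Prop

/-- The zeros of the translated coordinates on the critical circles are different. -/
def Di {K : Type} [NormedField K] {n : ℕ} (e : Fin n → ℕ) (A : Fin n → ℕ → K) (g : Fin n → K) :
    Prop :=
  ∀ i j : Fin n, i ≠ j → 1 ≤ e i → e i = e j → ‖A i 0 * g j - A j 0 * g i‖ = 1

/-- No coordinate of the set `S` is critical, or the base coordinate is. -/
def Bc (p : ℕ) {K : Type} [NormedField K] {n : ℕ} (b : Fin n) (e : Fin n → ℕ) (t : K)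
    (S : Set (Fin n)) : Prop := (∀ u ∈ S, ¬ Cr p (e u) t) ∨ Cr p (e b) t

/-- The local theorem for two disjoint pairs and for triples, with the genericity predicate `Gn`. -/
def Loc (Gn : GenT) : Prop := ∀ U : PowerSeries ℚ, IsU U → ∀ (n : ℕ) (b : Fin n) (e : Fin n → ℕ)
  (f : Fin n → PowerSeries Qb), Br b e f → ∃ p₀ : ℕ, ∀ p : ℕ, p.Prime → p₀ ≤ p →
  ∀ (K : Type) [NormedField K] [CharZero K] [IsUltrametricDist K] [CompleteSpace K]
    [IsAlgClosed K], Ext p K → ∀ (ι : Qb →+* K) (L : Subfield K), Unr p L →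
  (∀ i m, ι (PowerSeries.coeff m (f i)) ∈ L) → ∀ g : Fin n → K, (∀ i, g i ∈ L ∧ ‖g i‖ = 1) →
  Gn p K n e (fun i => cf ι (f i)) g →
  (∀ i j k l : Fin n, i ≠ j → i ≠ k → i ≠ l → j ≠ k → j ≠ l → k ≠ l →
    b ∈ ({i, j, k, l} : Set (Fin n)) → (1 ≤ e i ∨ 1 ≤ e j) → (1 ≤ e k ∨ 1 ≤ e l) →
    ∃ M : ℕ, ∀ (t : K) (q : Fin n → K), 0 < ‖t‖ → ‖t‖ < 1 →
      (∀ u ∈ ({i, j, k, l} : Set (Fin n)), At p U (e u) (cf ι (f u)) (g u) t (q u)) →
      Bc p b e t {i, j, k, l} → Dep (q i) (q j) → Dep (q k) (q l) →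
      Bd M (q i) (q j) ∨ Bd M (q k) (q l)) ∧
  ∀ i j k : Fin n, i ≠ j → j ≠ k → i ≠ k → b ∈ ({i, j, k} : Set (Fin n)) →
    ((1 ≤ e i ∧ 1 ≤ e j) ∨ (1 ≤ e i ∧ 1 ≤ e k) ∨ (1 ≤ e j ∧ 1 ≤ e k)) →
    ∃ M : ℕ, ∀ (t : K) (q : Fin n → K), 0 < ‖t‖ → ‖t‖ < 1 →
      (∀ u ∈ ({i, j, k} : Set (Fin n)), At p U (e u) (cf ι (f u)) (g u) t (q u)) →
      Bc p b e t {i, j, k} → Dep (q i) (q j) → Dep (q j) (q k) → Dep (q i) (q k) →
      Bd M (q i) (q j) ∨ Bd M (q j) (q k) ∨ Bd M (q i) (q k)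

/-- `V P` at the places of `K`: every algebraic point with `1 < ‖x_b‖` is on one of finitely many
branches, for every `t` with `x_b = 1 / t ^ m`. -/
def Sim {n : ℕ} (P : Ideal (MvPolynomial (Fin n) ℂ)) (b : Fin n) (m N : ℕ)
    (e : Fin N → Fin n → ℕ) (f : Fin N → Fin n → PowerSeries Qb) {K : Type} [NormedField K]
    (ι : Qb →+* K) : Prop :=
  ∀ x : Fin n → Qb, (fun i => (x i : ℂ)) ∈ V P → ∀ t : K, 0 < ‖t‖ → ‖t‖ < 1 →
    ι (x b) = 1 / t ^ m → ∃ l, e l b = m ∧ ∀ i, ι (x i) = evK ι (f l i) t / t ^ e l i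

/-- Bounded level: the strongly atypical points of `V P + c` satisfy one of finitely many
modular equations. -/
def BLev {n : ℕ} (Psi : ℕ → ℚ[X][X]) (P : Ideal (MvPolynomial (Fin n) ℂ)) (c : Fin n → Qb) :
    Prop := ∃ N : ℕ, ∀ x : Fin n → Qb, (fun l => (x l : ℂ)) ∈ V P →
    Atyp (fun l => (x l : ℂ) + (c l : ℂ)) → ∃ u v : Fin n, u ≠ v ∧ ∃ m : ℕ, 1 ≤ m ∧ m ≤ N ∧
      ev2 (Psi m) ((x u : ℂ) + (c u : ℂ)) ((x v : ℂ) + (c v : ℂ)) = 0

end

end Pool.Agent.ZPK
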