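import Pool.Agent.ZPK.StmtsX

/-!
Squad ZPK (MP_6e1a06_nt), THEOREM K: the genericity conditions on the numerators `g` of the translation
(`c = g / p`), for one family of expansions `x_i = t ^ (-e i) Σ A i m t ^ m` of all coordinates.
-/

set_option autoImplicit false

namespace Pool.Agent.ZPK

open Polynomial Pool.Agent.ZPT Pool.Agent.ZP3

noncomputable section

/-- `FI` with one more fixed value `z`. -/
def FIo {K : Type} [NormedField K] {n : ℕ} (S : Set (Fin n)) (lam : Fin n → K) (z : K) : Prop :=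
  ∀ (c d : Fin n → ℤ) (c₀ d₀ : ℤ), |c₀| ≤ 2 → |d₀| ≤ 2 →
    (∀ i, |c i| ≤ 2 ∧ |d i| ≤ 2 ∧ (i ∉ S → c i = 0 ∧ d i = 0)) →
    ((∃ i j, c i * d j ≠ c j * d i) ∨ ∃ i, c i * d₀ ≠ c₀ * d i) →
    ∀ m : ℤ, ‖(∑ i, ((c i - m * d i : ℤ) : K) * lam i) + ((c₀ - m * d₀ : ℤ) : K) * z‖ = 1

/-- The polynomial of XLO for the forms and the perturbations of order `m` of the coordinates
`b, i` and `j, k`, at the critical radius of `b`. -/
def Hb {K : Type} [Field K] {n : ℕ} (e : Fin n → ℕ) (A : Fin n → ℕ → K) (g : Fin n → K)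
    (b i j k : Fin n) (m : ℕ) : K[X] :=
  Hx (fun s => Gf (e b) (e (![b, i, j, k] s)) (g (![b, i, j, k] s)))
    (fun s => Bf (e b) (e (![b, i, j, k] s)) (A (![b, i, j, k] s)))
    (fun s => Mu (e b) (e (![b, i, j, k] s)) (A (![b, i, j, k] s)) m)
    (fun s => Nu (e b) (e (![b, i, j, k] s)) (A (![b, i, j, k] s)) (g (![b, i, j, k] s)) m)

/-- Condition G3 (perturbations of lower order on the critical circle of `b`). -/
def GenX {K : Type} [NormedField K] {n : ℕ} (e : Fin n → ℕ) (A : Fin n → ℕ → K) (g : Fin n → K) :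
    Prop :=
  ∀ (b i j k : Fin n) (m : ℕ), b ≠ i → b ≠ j → b ≠ k → j ≠ k → i ≠ k → 1 ≤ e b → A b 0 = 1 →
    (∀ r, 1 ≤ r → A b r = 0) → 1 ≤ m → m < e b → ¬ (e j < e b ∧ e k < e b) →
    ¬ (e b < e j ∧ e b < e k) →
    (∃ x ∈ ({i, j, k} : Set (Fin n)), Mu (e b) (e x) (A x) m ≠ 0 ∨
      Nu (e b) (e x) (A x) (g x) m ≠ 0) → ∃ r, ‖(Hb e A g b i j k m).coeff r‖ = 1

/-- Condition G4 (modulo `p ^ 2`), for coordinates which are finite at the point at infinity. -/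
def GenQ (p : ℕ) {K : Type} [NormedField K] (Log : K → K) (u₁ : K) {n : ℕ} (e : Fin n → ℕ)
    (A : Fin n → ℕ → K) (g : Fin n → K) : Prop :=
  ∀ j l : Fin n, j ≠ l → e j = 0 → e l = 0 →
    ‖(Log (g j + p * (A j 0 - u₁)) - Log (g l + p * (A l 0 - u₁))) / p‖ = 1 ∧
    ∀ i k : Fin n, 1 ≤ e i → 1 ≤ e k → ∀ (ν : ℕ) (y : K), ‖y‖ = 1 →
      Log (A i 0) / (e i : K) - Log (A k 0) / (e k : K) = (p : K) ^ ν * y → ∀ m : ℤ,
      ‖(Log (g j + p * (A j 0 - u₁)) - Log (g l + p * (A l 0 - u₁))) / p - m * y‖ = 1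

/-- Genericity. -/
structure Gen (p : ℕ) {K : Type} [NormedField K] (Log : K → K) (u₁ : K) {n : ℕ} (e : Fin n → ℕ)
    (A : Fin n → ℕ → K) (g : Fin n → K) : Prop where
  zero : ∀ d, 1 ≤ d → FI {i | e i = d} (fun i => A i 0 / g i)
  infty : ∀ d, 1 ≤ d → FI {i | e i = d} (fun i => g i / A i 0)
  zer : ∀ v, 1 ≤ e v → FIo {i | e i = e v ∧ i ≠ v}
    (fun i => A i 0 * A v 0 / (g i * A v 0 - A i 0 * g v)) (-(A v 0 / g v))
  low : GenX e A g
  sq : GenQ p Log u₁ e A g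

/-- Algebraic facts for large `p`: the first `E` coefficients are `0` or units. -/
def ZU {K : Type} [NormedField K] {n : ℕ} (e : Fin n → ℕ) (A : Fin n → ℕ → K) (E : ℕ) : Prop :=
  (∀ i, e i ≤ E) ∧ ∀ i m, m ≤ E → A i m = 0 ∨ ‖A i m‖ = 1

/-- The normalised series `Σ (A_n / A_0) t ^ n`. -/
def Pn {K : Type} [NormedField K] {n : ℕ} (A : Fin n → ℕ → K) (i : Fin n) : PowerSeries K :=
  PowerSeries.mk fun r => A i r / A i 0

/-- Comparison of two expansions (helper75): `P_i ^ (e k) = P_k ^ (e i)`, or the first difference of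
coefficients occurs at an index `≤ E` and is a unit. -/
def Fo {K : Type} [NormedField K] {n : ℕ} (e : Fin n → ℕ) (A : Fin n → ℕ → K) (E : ℕ) : Prop :=
  ∀ i k : Fin n, 1 ≤ e i → 1 ≤ e k → Pn A i ^ e k = Pn A k ^ e i ∨
    ∃ m, 1 ≤ m ∧ m ≤ E ∧
      (∀ r, r < m → PowerSeries.coeff r (Pn A i ^ e k) = PowerSeries.coeff r (Pn A k ^ e i)) ∧
      ‖PowerSeries.coeff m (Pn A i ^ e k) - PowerSeries.coeff m (Pn A k ^ e i)‖ = 1

/-- All the data of one branch with base coordinate `b`, for `p` large. -/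
structure Big (p : ℕ) {K : Type} [NormedField K] {n : ℕ} (L : Subfield K) (b : Fin n)
    (e : Fin n → ℕ) (A : Fin n → ℕ → K) (g : Fin n → K) (E : ℕ) : Prop where
  cd : ∀ i, Cd L (e i) (A i) (g i)
  zu : ZU e A E
  fo : Fo e A E
  pl : 1000 * (E + 1) ^ 2 < p
  eb : 1 ≤ e b
  b0 : A b 0 = 1
  b1 : ∀ r, 1 ≤ r → A b r = 0

end

end Pool.Agent.ZPK
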