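import Pool.Agent.ZPK.Gen
import Pool.Agent.ZPK.DefsA

/-!
Squad ZPK (MP_6e1a06_nt), THEOREM K: assembly of the local theorem `Loc GnK`.
-/

set_option autoImplicit false

namespace Pool.Agent.ZPK

open Polynomial Pool.Agent.ZPT Pool.Agent.ZP3

noncomputable section

/-- The genericity predicate of THEOREM K. -/
def GnK : GenT := fun p K _ _ e A g => ∃ Log : K → K, IsLog p Log ∧
  ∀ U : PowerSeries ℚ, IsU U → Gen p Log ((PowerSeries.coeff 1 U : ℚ) : K) e A g

/-- UUQ (60 lines, no hypotheses).  `U` is unique.  PROOF.  For `0 < |z| < 1` there is `τ` in the upper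
half plane with `ee τ = z` (`Complex.exp_log` style), so `Σ U_n z ^ n = z J(τ) = Σ U'_n z ^ n`; for
`z = 0` both are `1` (`c0`).  Both series converge absolutely on the unit disc (`sm`), so they are
power series expansions of the same function: the coefficients (as complex numbers, so as rational
numbers) are equal (`HasFPowerSeriesAt.eq_formalMultilinearSeries` / `FormalMultilinearSeries`,
or differences: if `Σ c_n z ^ n = 0` near `0` then all `c_n = 0`). -/
def UuqStmt : Prop := ∀ U U' : PowerSeries ℚ, IsU U → IsU U' → U = U'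

/-- GEH (150 lines, no hypotheses).  The genericity conditions in the form needed by block X.
PROOF.  `c = δ_x`, `d = δ_y`, `m = 1` in `Gen.zero`: `‖A x 0/g x - A y 0/g y‖ = 1` (if `x ≠ y`, both of
exponent `d`).  `Gtr`: each of `Lx v x`, `Lx v y`, `Lx v u` is `0`, the fixed value `z = -(A v 0/g v)`, or
one of the `lam_i` of `Gen.zer`; let `X`, `Y`, `W` be the corresponding integer vectors (`0`, `δ_∗` or
`δ_i`), `X ≠ Y`.  If `W = 0`: if `X = 0` or `Y = 0` clear, else `Y` and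
`X - Y` are independent: third alternative.  If `W ≠ 0` and not (`X = 0`, `W = Y`), not (`Y = 0`,
`W = X`): `W` and `X - Y` are independent, and `Y - 2 W`, `X - Y` are independent (cases `X = 0`;
`Y = 0`; `W = X`; `W = Y`; `W` different from both): second alternative.  Otherwise the first. -/
def GehStmt : Prop := ∀ (p : ℕ) (K : Type) [NormedField K] (Log : K → K) (u₁ : K) (n : ℕ)
  (e : Fin n → ℕ) (A : Fin n → ℕ → K) (g : Fin n → K), (∀ i, ‖g i‖ = 1) →
  (∀ i, 1 ≤ e i → ‖A i 0‖ = 1) → Gen p Log u₁ e A g → ∀ b : Fin n, 1 ≤ e b →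
  (∀ x y : Fin n, x ≠ y → e x = e b → e y = e b → ‖g x * A y 0 - g y * A x 0‖ = 1) ∧
  (∀ v x y u : Fin n, e v = e b → x ≠ v → y ≠ v → u ≠ v → Lx e A g v x ≠ Lx e A g v y →
    Gtr (Lx e A g v x) (Lx e A g v y) (Lx e A g v u))

/-- BIG (120 lines; uses ZP3.URAStmt, ZP3.URRStmt).  For large `p` all the data are good.
PROOF.  `FG (f i)`: all coefficients are in `Subring.closure S_i`; by URA (for `⋃ S_i`) and URR (ring)
they have norm `≤ 1` for large `p`; the constant coefficients for `e i ≥ 1` are nonzero algebraic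
numbers, of norm 1 for large `p` (URA).  For `i, k` with `e i, e k ≥ 1` compare over `Qb` the series
`F = (f_i/f_i(0)) ^ (e k)` and `G = (f_k/f_k(0)) ^ (e i)`: if `F ≠ G` let `m_ik` be the first index where
they differ (`m_ik ≥ 1`, both constant coefficients are `1`) and `a_ik ≠ 0` the difference; URA for
`a_ik`.  `E` = maximum of all `e i` and `m_ik`.  `ZU`: URA for the coefficients `f_i.coeff m`, `m ≤ E`.
`Pn (cf ι f) i = (f_i/f_i(0)).map ι`. -/
def BigStmt : Prop := ∀ (n : ℕ) (b : Fin n) (e : Fin n → ℕ) (f : Fin n → PowerSeries Qb), Br b e f →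
  ∃ E p₀ : ℕ, ∀ p : ℕ, p.Prime → p₀ ≤ p →
  ∀ (K : Type) [NormedField K] [CharZero K] [IsUltrametricDist K], Ext p K →
  ∀ (ι : Qb →+* K) (L : Subfield K), Unr p L → (∀ i m, ι (PowerSeries.coeff m (f i)) ∈ L) →
  ∀ g : Fin n → K, (∀ i, g i ∈ L ∧ ‖g i‖ = 1) → Big p L b e (fun i => cf ι (f i)) g E

/-- LCR (60 lines; uses XxfStmt, GehStmt).  The critical circle of the base coordinate.  PROOF.  XXF;
`h1`, `h2` by GEH, `h3` = `Gen.low`; `11 ≤ p` and `20 (e i + 1) < p` from `Big.pl`, `Big.zu`. -/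
def LcrStmt : Prop := ∀ U : PowerSeries ℚ, IsU U → ∀ p : ℕ, p.Prime →
  ∀ (K : Type) [NormedField K] [CharZero K] [IsUltrametricDist K] [CompleteSpace K] [IsAlgClosed K],
  Ext p K → ∀ Log : K → K, IsLog p Log → ∀ L : Subfield K, Unr p L →
  ∀ (n : ℕ) (b : Fin n) (e : Fin n → ℕ) (A : Fin n → ℕ → K) (g : Fin n → K) (E : ℕ),
  Big p L b e A g E → Gen p Log ((PowerSeries.coeff 1 U : ℚ) : K) e A g →
  ∀ i j k : Fin n, b ≠ i → b ≠ j → b ≠ k → j ≠ k → i ≠ k →
  ∃ M : ℕ, ∀ (t : K) (q : Fin n → K), 0 < ‖t‖ → ‖t‖ < 1 → Cr p (e b) t →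
    (∀ x ∈ ({b, i, j, k} : Set (Fin n)), At p U (e x) (A x) (g x) t (q x)) →
    Dep (q b) (q i) → Dep (q j) (q k) →
    Bd M (q b) (q i) ∨ Bd M (q j) (q k) ∨ (i = j ∧ Bd M (q b) (q k))

/-- LNC, the output of block R (helper75): no critical coordinate in the configuration.  Either four
different indices (then the conclusion is for one of the two pairs) or `j = k` (triple `i, j, l`; then the
third possibility is the pair `i, l`).  Both pairs have a coordinate with `e ≥ 1`; in a triple at least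
two of the three have `e ≥ 1`. -/
def LncStmt : Prop := ∀ U : PowerSeries ℚ, IsU U → ∀ p : ℕ, p.Prime →
  ∀ (K : Type) [NormedField K] [CharZero K] [IsUltrametricDist K] [CompleteSpace K] [IsAlgClosed K],
  Ext p K → ∀ Log : K → K, IsLog p Log → ∀ L : Subfield K, Unr p L →
  ∀ (n : ℕ) (b : Fin n) (e : Fin n → ℕ) (A : Fin n → ℕ → K) (g : Fin n → K) (E : ℕ),
  Big p L b e A g E → Gen p Log ((PowerSeries.coeff 1 U : ℚ) : K) e A g →
  ∀ i j k l : Fin n, i ≠ j → k ≠ l → i ≠ l → i ≠ k → j ≠ l →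
  (1 ≤ e i ∨ 1 ≤ e j) → (1 ≤ e k ∨ 1 ≤ e l) → (j = k → 1 ≤ e i ∨ 1 ≤ e l) →
  ∃ M : ℕ, ∀ (t : K) (q : Fin n → K), 0 < ‖t‖ → ‖t‖ < 1 →
    (∀ u ∈ ({i, j, k, l} : Set (Fin n)), ¬ Cr p (e u) t) →
    (∀ u ∈ ({i, j, k, l} : Set (Fin n)), At p U (e u) (A u) (g u) t (q u)) →
    Dep (q i) (q j) → Dep (q k) (q l) →
    Bd M (q i) (q j) ∨ Bd M (q k) (q l) ∨ (j = k ∧ Bd M (q i) (q l))

/-- LOA (120 lines; uses BigStmt, LcrStmt, LncStmt).  The local theorem.  PROOF.  `Dep` and `Bd` are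
symmetric and `Bd` is monotone in `M`.  Four different indices: `M` = the maximum of the `M` of LNC for
`i, j, k, l` and of LCR for the position of `b`: `b = i`: `(b; j; k, l)`; `b = j`: `(b; i; k, l)`;
`b = k`: `(b; l; i, j)`; `b = l`: `(b; k; i, j)`.  Triple `i, j, k`: LNC for `i, j, j, k` (at least two of
the three `e` are `≥ 1`, so all three pairs have one); LCR: `b = i`: `(b; j; j, k)`; `b = j`:
`(b; i; i, k)`; `b = k`: `(b; j; j, i)`. -/
def LoaStmt : Prop := Loc GnK

end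

end Pool.Agent.ZPK
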