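import Pool.Agent.ZPK.StmtsR

/-!
Squad ZPK (MP_6e1a06_nt), THEOREM K: block R, second part: two radial pairs.  Pairs `(i, j)`, `(k, l)`,
`i, k` large, `j, l` small, `‖t‖ = p ^ (-s)`.  Lower end: `w = t ^ e / p`, `e = min (e i) (e k)`,
`th ^ 2 ≤ ‖w‖ < 1`.  Upper end: `w = p / t ^ e'`, `e' = max (e j) (e l) ≥ 1`, `th ^ 2 ≤ ‖w‖ < 1`.
No solutions near the ends (LOW, UPP); in the interior finitely many radii (INA) and bounded order at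
each of them (INF); RRR.
-/

set_option autoImplicit false

namespace Pool.Agent.ZPK

open Polynomial Pool.Agent.ZPT Pool.Agent.ZP3

noncomputable section

/-! ### Lower end -/

/-- LWR (150 lines; uses LGB, URR, THB).  The relations at the lower end, `w = t ^ e / p`.  PROOF.  All
`O(ρ)` are for the norm.  `Log a_i`, `Log (l₁ - l₂)` are `O(1/p) = O(ρ)`; `F_i = (1 + l_i w)(1 + x_i)`, `‖x_i‖ ≤ ρ < th`, so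
`Log F_i = Log (1 + l_i w) + O(ρ)` (LGB (3)).  The first relation and `e/e₂` times the second one give
`(B/A)(Log n₁ - Log n₂) = Log a₁ + Log F₁ - (e/e₂)(Log a₂ + Log F₂)` (`e s = B/A` in `K`), which is
`Log (1 + l₁ w) - Log (1 + l₂ w) + O(ρ) = Log (1 + y) + O(ρ)` (if `e₂ ≠ e` then `l₂ = 0` and `Log F₂ = O(ρ)`; `‖e/e₂‖ = 1`;
`1 + y = (1 + l₁ w)/(1 + l₂ w)`).  Multiply by `A`.  `Log w = e Log t` (`Log p = 0`), `Log y = Log (l₁ - l₂) + Log w -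
Log (1 + l₂ w) = Log (1 + l₁ w) - Log (1 + l₂ w) - (B/A) Log n₁ + O(ρ) = (B/A)(Log n₁ - Log n₂) - (B/A) Log n₁ + O(ρ)`. -/
def LwrStmt : Prop := ∀ p : ℕ, p.Prime → 11 ≤ p → ∀ (K : Type) [NormedField K] [CharZero K]
  [IsUltrametricDist K], Ext p K → ∀ Log : K → K, IsLog p Log →
  ∀ (s : ℚ) (e e₂ A B : ℕ) (t w y a₁ a₂ F₁ F₂ n₁ n₂ l₁ l₂ : K) (ρ : ℝ),
  1 ≤ e → e ≤ e₂ → e₂ < p → (e₂ = e ∨ l₂ = 0) → Uu p a₁ → Uu p a₂ → Ur p l₁ → Ur p l₂ →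
  ‖l₁ - l₂‖ = 1 → (p : ℝ)⁻¹ ≤ ρ → ρ < th p ^ 3 → w = t ^ e / p → th p ^ 2 ≤ ‖w‖ → ‖w‖ < 1 →
  ‖F₁ - (1 + l₁ * w)‖ ≤ ρ → ‖F₂ - (1 + l₂ * w)‖ ≤ ρ →
  (e : K) * Log t - Log a₁ - Log F₁ = -((e : K) * ((s : ℚ) : K) * Log n₁) →
  (e₂ : K) * Log t - Log a₂ - Log F₂ = -((e₂ : K) * ((s : ℚ) : K) * Log n₂) →
  1 ≤ A → (B : ℚ) = e * s * A → y = (l₁ - l₂) * w / (1 + l₂ * w) →
  ‖y‖ = ‖w‖ ∧ ‖(A : K) * Log (1 + y) - B * (Log n₁ - Log n₂)‖ ≤ ρ * ‖(A : K)‖ ∧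
    ‖(A : K) * Log y + B * Log n₂‖ ≤ ρ * ‖(A : K)‖

/-- LWA (200 lines, STRONG; uses THB, LGB, LGN, CRI, GPS, ARL).  The lower end.  PROOF.  (1) Critical radius:
`‖y‖ ^ φ = 1/p`, `φ = p ^ h (p-1)`.  Then `p ^ (-A) = ‖y‖ ^ (A φ) = p ^ (-(B-A) φ)`, `A = (B-A) φ`, so `B - A = 1`,
`A = φ` (coprime).  `‖A Log (1 + y)‖ ≤ max (ρ ‖A‖) ‖Θ‖ ≤ ρ`, so `‖p ^ h Log (1 + y)‖ ≤ ρ` and CRI gives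
`1 + y = ξ (1 + d)`, `‖d‖ ^ (p ^ h) ≤ ρ < th ^ 3`; GPS with `n₁ = n₂ = 0`: `‖φ Log y‖ ≥ th ^ 2`, but it is
`≤ max (ρ ‖A‖) ‖Ψ‖ ≤ ρ`.  (2) Not critical: LGN, `j`.  If `p ∤ A`: `‖y‖ ≤ ‖Log (1 + y)‖ ≤ max ρ ‖Θ‖ ≤ ρ < th ^ 2`,
contradiction.  If `p ^ α ∥ A`, `α ≥ 1`: `p ∤ B`, `‖Θ‖ ≥ 1/p > ρ/p ≥ ρ ‖A‖`, so `p ^ (-α) p ^ j ‖y‖ ^ (p ^ j) = ‖A Log (1 + y)‖ = ‖Θ‖`;
the power `e A` of it is the equation of ARL. -/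
def LwaStmt : Prop := ∀ p : ℕ, p.Prime → 11 ≤ p → ∀ (K : Type) [NormedField K] [CharZero K]
  [IsUltrametricDist K] [CompleteSpace K] [IsAlgClosed K], Ext p K → ∀ Log : K → K, IsLog p Log →
  ∀ (A B e e' : ℕ) (y Θ Ψ : K) (ρ : ℝ), 1 ≤ A → A < B → Nat.Coprime A B → e' < e → e < p →
  e' * B < e * A → th p ^ 2 ≤ ‖y‖ → ‖y‖ < 1 → ‖y‖ ^ A = ((p : ℝ)⁻¹) ^ (B - A) → (p : ℝ)⁻¹ ≤ ρ →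
  ρ < th p ^ 3 → ‖Θ‖ ≤ ρ → ‖Ψ‖ ≤ ρ → ‖Θ‖ ^ (e * A) = ((p : ℝ)⁻¹) ^ (e * A - e' * B) →
  ‖(A : K) * Log (1 + y) - B * Θ‖ ≤ ρ * ‖(A : K)‖ → ‖(A : K) * Log y + B * Ψ‖ ≤ ρ * ‖(A : K)‖ →
  e' = 0 ∧ ∃ k : ℕ, 1 ≤ k ∧ A = p ^ k ∧ B = p ^ k + 1

/-- LWP (150 lines; uses THB, LGB, LRX, UNC, BIN).  The exceptional case of the lower end.  PROOF.
`x = (1 + y) ^ (p ^ k) - 1 = y ^ (p ^ k) + S`, `‖S‖ = p⁻¹ ‖y‖ ^ (p ^ (k-1))` (BIN), so `‖S‖ ^ p = p ^ (-p-1)`, `‖x‖ ≤ 1/p`,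
`‖Log (1 + x) - x‖ ≤ p ^ (-2)`.  `Log (1 + x) = p ^ k Log (1 + y) = (p ^ k + 1) Θ + O(ρ/p) = θ₀ + O(ρ/p)`
(`‖p ^ k Θ‖ ≤ p ^ (-2) ≤ ρ/p`), so `y ^ (p ^ k) + S = θ₀ + O(ρ/p)`.  `X = y ^ (p ^ k)/p` has `Log X = p ^ k Log y =
-(p ^ k + 1) Ψ + O(ρ/p)` of norm `≤ 1/p`; LRX: `X = ζ (1 + d)`, `‖d‖ ≤ 1/p`, `y ^ (p ^ k) = p ζ + O(p ^ (-2))`.  So
`S = θ₀ - ζ p + O(ρ/p)` and `ρ < th ^ 3 < p ^ (-1/p)` gives `‖θ₀ - ζ p‖ ^ p = p ^ (-p-1)`.  UNC: not `0`; `(p ^ k') ^ p`: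
`p ∣ p + 1`; the third case with `φ = p ^ h (p-1)`: `-(p+1) φ = p (k' φ - 1)`, so `φ ∣ p`, impossible. -/
def LwpStmt : Prop := ∀ p : ℕ, p.Prime → 11 ≤ p → ∀ (K : Type) [NormedField K] [CharZero K]
  [IsUltrametricDist K] [CompleteSpace K] [IsAlgClosed K], Ext p K → ∀ Log : K → K, IsLog p Log →
  ∀ L : Subfield K, Unr p L → ∀ (k : ℕ) (y Θ θ₀ Ψ : K) (ρ : ℝ), 1 ≤ k →
  ‖y‖ ^ (p ^ k) = (p : ℝ)⁻¹ → θ₀ ∈ L → ‖θ₀‖ = (p : ℝ)⁻¹ → (p : ℝ)⁻¹ ≤ ρ → ρ < th p ^ 3 →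
  ‖Θ - θ₀‖ ≤ ρ * (p : ℝ)⁻¹ → ‖Ψ‖ ≤ (p : ℝ)⁻¹ →
  ‖((p ^ k : ℕ) : K) * Log (1 + y) - ((p ^ k + 1 : ℕ) : K) * Θ‖ ≤ ρ * ‖((p ^ k : ℕ) : K)‖ →
  ‖((p ^ k : ℕ) : K) * Log y + ((p ^ k + 1 : ℕ) : K) * Ψ‖ ≤ ρ * ‖((p ^ k : ℕ) : K)‖ →
  (∃ M : ℕ, 1 ≤ M ∧ ‖(y ^ (p ^ k) / (p : K)) ^ M - 1‖ < 1) → False

/-- LOW (250 lines, STRONG; uses THB, URR, LGB, UNV, NUM, RNL, RPX, LGL, THN, LWR, LWA, LWP).  No solutions near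
the lower end.  PROOF.  Suppose `th ^ 2 ≤ ‖w‖`, `w = t ^ (e i)/p`.  `ρ = rh p E`.  RPX: `Rp .. s (e i) t (A i 0) F_i n_j`,
`Rp .. s' (e k) t (A k 0) F_k n_l`, `s = s'` by `tn`.  RNL (`e = e i`) for `i` and `k`: `l₁ = lL (e i) (e i) ..`,
`l₂ = lL (e i) (e k) ..`, errors `≤ ‖t‖ ≤ rh` (NUM).  `‖l₁ - l₂‖ = 1`: if `e k = e i` it is `Gen.infty` (`c = δ_i - δ_k`,
`d = δ_i`, `m = 0`), otherwise `l₂ = 0`.  `e' = max (e j) (e l) < e i` (states), `‖p/t ^ e'‖ ≤ rh` (NUM), THN (its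
hypothesis: `Gen.zero` with `c = δ_j - δ_l` or one of the slopes is `0`; `e' = 0`: `Gen.sq`): `δ`; `Θ = Log n_j - Log n_l`,
`Ψ = Log n_l`, `‖Θ‖ = ‖δ/t ^ e'‖ = p ^ (e' s - 1)`.  `e s = B/A` in lowest terms (`e = e i`), `1 < e s` (La), `e' s < 1`
(Sm); `‖y‖ = ‖w‖ = p ^ (1 - e s)`.  LWR, LWA: `e' = 0`, `A = p ^ k`, `B = p ^ k + 1`.  Then `δ = Log N_j - Log N_l`,
`N_j = g j + p (A j 0 - u₁) ∈ L` of norm 1, LGL: `θ₀ ∈ L`, `‖δ - θ₀‖ ≤ p ^ (-2)`; LWP; the torsion class: `tc` with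
`A := e p ^ k`, `B := p ^ k + 1` for `t ^ (e p ^ k)/p ^ (p ^ k + 1)`, `y ^ (p ^ k)/p` is this times
`(l₁ - l₂) ^ (p ^ k) (1 + l₂ w) ^ (-p ^ k)`, `l₁ - l₂` is in `Uu`, `1 + l₂ w ≡ 1`. -/
def LowStmt : Prop := ∀ U : PowerSeries ℚ, IsU U → ∀ p E : ℕ, p.Prime → 1 ≤ E →
  1000 * (E + 1) ^ 2 < p →
  ∀ (K : Type) [NormedField K] [CharZero K] [IsUltrametricDist K] [CompleteSpace K] [IsAlgClosed K],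
  Ext p K → ∀ Log : K → K, IsLog p Log → ∀ L : Subfield K, Unr p L →
  ∀ (n : ℕ) (e : Fin n → ℕ) (A : Fin n → ℕ → K) (g : Fin n → K), (∀ i, Cd L (e i) (A i) (g i)) →
  (∀ i, e i ≤ E) → Gen p Log ((PowerSeries.coeff 1 U : ℚ) : K) e A g →
  ∀ i j k l : Fin n, i ≠ k → j ≠ l → 1 ≤ e i → e i ≤ e k →
  ∀ (t : K) (q : Fin n → K), 0 < ‖t‖ → La p (e i) t → Sm p (e j) t → Sm p (e l) t →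
  (∀ u ∈ ({i, j, k, l} : Set (Fin n)), At p U (e u) (A u) (g u) t (q u)) →
  Dep (q i) (q j) → Dep (q k) (q l) → ‖t ^ e i / (p : K)‖ < th p ^ 2

/-! ### Upper end -/

/-- UPE (150 lines; uses LGB, URR, THB).  The relations at the upper end, `w = p / t ^ e'`.  PROOF.
`T = (Log a₁ + Log F₁)/e₁ - (Log a₂ + Log F₂)/e₂ = s (Log n₁ - Log n₂)` by the relations, so
`e' A T = B (Log n₁ - Log n₂)`.  `Log n_i = Log g_i + Log (1 + l_i w) + O(ρ) = Log (1 + l_i w) + O(ρ)`, so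
`e' A T = B (Log (1 + y) + O(ρ))`; `‖T‖ ≤ ρ` as `Log a_i`, `Log F_i` are `O(ρ)`, `e_i` units.  `Log w = -e' Log t =
-(e'/e₁)(Log a₁ + Log F₁) + (B/A) Log n₁`, so `A Log w = B Log n₁ + O(ρ) = B Log (1 + l₁ w) + O(ρ)`.
`1 + l₂ w = 1/(1 + r y)`, `w = y/((l₁ - l₂)(1 + r y))`: `Log w = Log y - Log (1 + r y) + O(ρ)`,
`Log (1 + l₁ w) = Log (1 + y) - Log (1 + r y)`, so `A Log y - A Log (1 + r y) = B Log (1 + y) - B Log (1 + r y) + O(ρ)`,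
and `B Log (1 + y) = O(ρ)`. -/
def UpeStmt : Prop := ∀ p : ℕ, p.Prime → 11 ≤ p → ∀ (K : Type) [NormedField K] [CharZero K]
  [IsUltrametricDist K], Ext p K → ∀ Log : K → K, IsLog p Log →
  ∀ (s : ℚ) (e' e₁ e₂ A B : ℕ) (t w y r a₁ a₂ F₁ F₂ n₁ n₂ g₁ g₂ l₁ l₂ : K) (ρ : ℝ),
  1 ≤ e' → e' < p → 1 ≤ e₁ → e₁ < p → 1 ≤ e₂ → e₂ < p → Uu p a₁ → Uu p a₂ → Uu p g₁ → Uu p g₂ →
  Ur p l₁ → Ur p l₂ → ‖l₁ - l₂‖ = 1 → (p : ℝ)⁻¹ ≤ ρ → ρ < th p ^ 3 → w = p / t ^ e' →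
  th p ^ 2 ≤ ‖w‖ → ‖w‖ < 1 → ‖F₁ - 1‖ ≤ ρ → ‖F₂ - 1‖ ≤ ρ →
  ‖n₁ - g₁ * (1 + l₁ * w)‖ ≤ ρ → ‖n₂ - g₂ * (1 + l₂ * w)‖ ≤ ρ →
  (e₁ : K) * Log t - Log a₁ - Log F₁ = -((e₁ : K) * ((s : ℚ) : K) * Log n₁) →
  (e₂ : K) * Log t - Log a₂ - Log F₂ = -((e₂ : K) * ((s : ℚ) : K) * Log n₂) →
  1 ≤ A → (B : ℚ) = e' * s * A → y = (l₁ - l₂) * w / (1 + l₂ * w) → r = -l₂ / (l₁ - l₂) →
  ‖y‖ = ‖w‖ ∧ ‖(A : K) * Log y - ((A : K) - B) * Log (1 + r * y)‖ ≤ ρ ∧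
    ‖(B : K) * Log (1 + y) -
      e' * A * ((Log a₁ + Log F₁) / (e₁ : K) - (Log a₂ + Log F₂) / (e₂ : K))‖ ≤ ρ * ‖(B : K)‖ ∧
    ‖(Log a₁ + Log F₁) / (e₁ : K) - (Log a₂ + Log F₂) / (e₂ : K)‖ ≤ ρ

/-- UPA (200 lines, STRONG; uses THB, LGB, LGN, CRI, GPS).  The upper end.  PROOF.  (1) Critical:
`‖y‖ ^ φ = 1/p`, `φ = p ^ h (p-1)`: `A = (A-B) φ`, so `A = φ`, `B = φ - 1`, `p ∤ B` (`h ≥ 1`: `B ≡ -1`; `h = 0`: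
`B = p - 2`).  `‖Log (1 + y)‖ = ‖B Log (1 + y)‖ ≤ ρ`; CRI: `1 + y = ξ (1 + d)`, `‖d‖ ^ (p ^ h) ≤ ρ < th ^ 3`.  GPS with
`n₁ = -1`, `r₁ = r`, `n₂ = 0`, `r₂ = 0`: first alternative if `r = 0`; second: `‖r - r ^ p‖ = 1` as
`r ^ p - r ≡ Π_(0≤m<p) (r - m)` modulo `p` (the polynomial `X ^ p - X - Π (X - m)` has coefficients divisible by `p`),
so `‖φ Log y - Log (1 + r y)‖ ≥ th ^ 2 > ρ`, contradiction.  (2) Not critical, LGN.  `p ∤ B`: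
`‖y‖ ≤ ‖Log (1 + y)‖ ≤ ρ`, contradiction.  `p ∣ B`: `p ∤ A`, `‖e' A T‖ = ‖T‖`, and
`‖B Log (1 + y)‖ ≥ ‖B‖ th ^ 2 > ρ ‖B‖`, so `‖T‖ = ‖B Log (1 + y)‖`. -/
def UpaStmt : Prop := ∀ p : ℕ, p.Prime → 11 ≤ p → ∀ (K : Type) [NormedField K] [CharZero K]
  [IsUltrametricDist K] [CompleteSpace K] [IsAlgClosed K], Ext p K → ∀ Log : K → K, IsLog p Log →
  ∀ (A B e' : ℕ) (y r T : K) (ρ : ℝ), 1 ≤ B → B < A → Nat.Coprime A B → 1 ≤ e' → e' < p →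
  th p ^ 2 ≤ ‖y‖ → ‖y‖ < 1 → ‖y‖ ^ A = ((p : ℝ)⁻¹) ^ (A - B) →
  (r = 0 ∨ (‖r‖ ≤ 1 ∧ ∀ m : ℤ, ‖r - m‖ = 1)) → 0 ≤ ρ → ρ < th p ^ 3 →
  ‖(A : K) * Log y - ((A : K) - B) * Log (1 + r * y)‖ ≤ ρ →
  ‖(B : K) * Log (1 + y) - e' * A * T‖ ≤ ρ * ‖(B : K)‖ → ‖T‖ ≤ ρ →
  p ∣ B ∧ ∃ j : ℕ, ‖y‖ ^ (p ^ j * (p - 1)) < (p : ℝ)⁻¹ ∧
    (1 ≤ j → (p : ℝ)⁻¹ < ‖y‖ ^ (p ^ (j - 1) * (p - 1))) ∧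
    ‖T‖ = ‖(B : K)‖ * ((p : ℝ) ^ j * ‖y‖ ^ (p ^ j))

/-- UPF (200 lines; uses THB, ARU).  Reduction to the missing case.  PROOF.  `s = B/(e' A)`, `1 ≤ B < A` (`0 < s`,
Sm), `‖y‖ = p ^ (-(A-B)/A)`, `(A-B)(p-1) ≤ 2 A` (`th ^ 2 ≤ ‖y‖`).  The norms `‖κ‖ = p ^ (-N)`, `‖H t ^ m‖ = p ^ (-m s)`,
`‖τ t ^ e/p‖ = p ^ (1 - e s)` of the nonzero terms are different: an equality would be `m B = N e' A`,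
`e B = (N+1) e' A` or `(e - m) B = e' A`, against ARU (first part).  So `‖T‖` is the largest of them.  Let `p ^ β ∥ B`,
`β ≥ 1`; `‖T‖ = p ^ (-β + j - p ^ j (A-B)/A)`; the dominance gives `(A-B)(p-1) p ^ (j-1) < A` if `j ≥ 1`.  Taking
exponents (times `A` or `e' A`) the three cases are the three parts of ARU; only the last one survives, with `c = m`,
and `B (m + e' p ^ β) = A e' p ^ β` is the claim. -/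
def UpfStmt : Prop := ∀ p E : ℕ, p.Prime → 1 ≤ E → 1000 * (E + 1) ^ 2 < p →
  ∀ (K : Type) [NormedField K] [CharZero K] [IsUltrametricDist K], Ext p K →
  ∀ (s : ℚ) (A B e e' m j N : ℕ) (t y T κ H τ : K) (μ : ℝ), 0 < s → ‖t‖ = (p : ℝ) ^ (-(s : ℝ)) →
  1 ≤ e' → e' ≤ E → 1 ≤ e → e ≤ E → 1 ≤ A → Nat.Coprime A B → (B : ℚ) = e' * s * A →
  La p e t → Sm p e' t → th p ^ 2 ≤ ‖(p : K) / t ^ e'‖ → ‖y‖ = ‖(p : K) / t ^ e'‖ → ‖τ‖ = 1 →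
  (H = 0 ∨ (1 ≤ m ∧ m < e ∧ ‖H‖ = 1)) → (κ = 0 ∨ ‖κ‖ = ((p : ℝ)⁻¹) ^ N) → μ < 1 →
  ‖T - κ - (H * t ^ m + τ * (t ^ e / p))‖ ≤ μ * max (‖H‖ * ‖t‖ ^ m) ‖t ^ e / (p : K)‖ → p ∣ B →
  (1 ≤ j → (p : ℝ)⁻¹ < ‖y‖ ^ (p ^ (j - 1) * (p - 1))) →
  ‖T‖ = ‖(B : K)‖ * ((p : ℝ) ^ j * ‖y‖ ^ (p ^ j)) →
  1 ≤ m ∧ m < e ∧ ∃ β : ℕ, 1 ≤ β ∧ ((m : ℚ) + e' * (p : ℚ) ^ β) * s = (p : ℚ) ^ β

/-- PRT (120 lines, no hypotheses).  Principal roots are power series with `p`-integral coefficients.  PROOF.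
Induction on `k ≥ 1`: a polynomial `P` over `ℚ` with `p`-integral coefficients, `P(0) = 1`, and
`P ^ n - (1 + X) ^ m = X ^ k R` (`k = 1`: `P = 1`).  Step: `P + c X ^ k` with `c = -R(0)/n`.  The sum in the claim is `P`
truncated below `X ^ k` (the rest is `O(‖u‖ ^ k)`).  `‖P(u) ^ n - G ^ n‖ ≤ ‖u‖ ^ k`, and
`G ^ n - P(u) ^ n = (G - P(u)) Σ G ^ i P(u) ^ (n-1-i)`, the sum is `≡ n`, a unit. -/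
def PrtStmt : Prop := ∀ p : ℕ, p.Prime → ∀ (K : Type) [NormedField K] [CharZero K]
  [IsUltrametricDist K], Ext p K → ∀ m n k : ℕ, 1 ≤ n → n < p →
  ∃ c : ℕ → ℚ, (∀ i, padicNorm p (c i) ≤ 1) ∧ ∀ u G : K, ‖u‖ < 1 → ‖G - 1‖ < 1 →
    G ^ n = (1 + u) ^ m → ‖G - ∑ i ∈ Finset.range k, ((c i : ℚ) : K) * u ^ i‖ ≤ ‖u‖ ^ k

/-- PLG (120 lines; uses NUM, PRT).  PROOF.  `rh < 1`.  `u = F - 1`, `u₀ = Σ c_n t ^ n - 1`: `‖u - u₀‖ ≤ rh/p`, `‖u₀‖ ≤ rh`.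
PRT with `k = 2 E + 2`: `G = Σ_(i<k) b_i u ^ i + O(rh ^ k)`, `rh ^ k = p ^ (-1 - 1/E) ≤ rh/p`, and
`‖u ^ i - u₀ ^ i‖ ≤ ‖u - u₀‖`.  `u₀ ^ i` is a polynomial in `t` of degree `≤ i E ≤ (2 E + 1) E` with coefficients in
`L`. -/
def PlgStmt : Prop := ∀ p E : ℕ, p.Prime → 1 ≤ E → 1000 * (E + 1) ^ 2 < p →
  ∀ (K : Type) [NormedField K] [CharZero K] [IsUltrametricDist K], Ext p K → ∀ L : Subfield K,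
  ∀ (e m : ℕ) (t F G : K) (c : ℕ → K), 1 ≤ e → e ≤ E → (∀ n, c n ∈ L) → ‖t‖ < 1 →
  ‖F - 1‖ ≤ rh p E → ‖F - ∑ n ∈ Finset.range (E + 1), c n * t ^ n‖ ≤ rh p E * (p : ℝ)⁻¹ →
  ‖G - 1‖ < 1 → G ^ e = F ^ m → ∃ d : ℕ → K, (∀ n, d n ∈ L) ∧
    ‖G - ∑ n ∈ Finset.range (E * (2 * E + 1) + 1), d n * t ^ n‖ ≤ rh p E * (p : ℝ)⁻¹

/-- TEI (60 lines; uses THB, LGB, LRX, URR).  PROOF.  `x ^ (p ^ F - 1) = 1 + O(1/p)`, `‖Log x‖ ≤ 1/p < th`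
(LGB (5)); LRX; LGB (4) (`1/p ≤ th ^ 2`). -/
def TeiStmt : Prop := ∀ p : ℕ, p.Prime → 5 ≤ p → ∀ (K : Type) [NormedField K] [CharZero K]
  [IsUltrametricDist K] [CompleteSpace K] [IsAlgClosed K], Ext p K → ∀ Log : K → K, IsLog p Log →
  ∀ x : K, Uu p x → ∃ ω z : K, Ro ω ∧ x = ω * (1 + z) ∧ ‖z‖ ≤ (p : ℝ)⁻¹ ∧
    ‖Log x - z‖ ≤ ((p : ℝ)⁻¹) ^ 2

/-- The missing case: `s (m + e' p ^ β) = p ^ β`, `G_i` the principal `e_i`-th root of `F_i ^ m`. -/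
structure Sy (p E : ℕ) {K : Type} [NormedField K] (Log : K → K) (L : Subfield K) (s : ℚ)
    (e₁ e₂ e' m β : ℕ) (t a₁ a₂ F₁ F₂ n₁ n₂ g₁ g₂ l₁ l₂ G₁ G₂ : K) : Prop where
  he₁ : 1 ≤ e₁ ∧ e₁ ≤ E
  he₂ : 1 ≤ e₂ ∧ e₂ ≤ E
  he' : 1 ≤ e' ∧ e' ≤ E
  hm : 1 ≤ m ∧ m ≤ E
  hb : 1 ≤ β
  hs : ((m : ℚ) + e' * (p : ℚ) ^ β) * s = (p : ℚ) ^ β
  hL : a₁ ∈ L ∧ a₂ ∈ L ∧ g₁ ∈ L ∧ g₂ ∈ L ∧ l₁ ∈ L ∧ l₂ ∈ L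
  h1 : ‖a₁‖ = 1 ∧ ‖a₂‖ = 1 ∧ ‖g₁‖ = 1 ∧ ‖g₂‖ = 1 ∧ ‖l₁‖ ≤ 1 ∧ ‖l₂‖ ≤ 1 ∧ ‖l₁ - l₂‖ = 1
  r₁ : Rp p Log s e₁ t a₁ F₁ n₁
  r₂ : Rp p Log s e₂ t a₂ F₂ n₂
  hF : ‖F₁ - 1‖ ≤ rh p E ∧ ‖F₂ - 1‖ ≤ rh p E
  hn : ‖n₁ - g₁ * (1 + l₁ * (p / t ^ e'))‖ ≤ rh p E ∧ ‖n₂ - g₂ * (1 + l₂ * (p / t ^ e'))‖ ≤ rh p E
  hw : th p ^ 2 ≤ ‖(p : K) / t ^ e'‖ ∧ ‖(p : K) / t ^ e'‖ < 1
  hG : ‖G₁ - 1‖ < 1 ∧ ‖G₂ - 1‖ < 1 ∧ G₁ ^ e₁ = F₁ ^ m ∧ G₂ ^ e₂ = F₂ ^ m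

/-- SYA (200 lines, STRONG; uses THB, URR, URT, WTM, ROU, MTH, LGB, UNV, NUM, TEI, LGL).  `Q = m + e' p ^ β`, `w = p/t ^ e'`.
PROOF.  Choose `b_i ^ e_i = a_i`, `f_i ^ e_i = F_i`, `‖f_i - 1‖ ≤ rh` (MTH), so `f_i ^ m = G_i` (the quotient is an
`e_i`-th root of unity `≡ 1`, WTM).  `rt` with `A := Q`, `B := p ^ β`: `t ^ Q = ζ_i (b_i f_i) ^ Q (p/n_i) ^ (p ^ β)` with
roots of unity `ζ_i`, so `(n₁/n₂) ^ (p ^ β) = ζ (b₁/b₂) ^ Q (f₁/f₂) ^ Q`.  `b_i = ω_i (1 + z_i)` (`b_i ∈ Uu` by URT; TEI),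
`z_i = Log a_i/e_i + O(p ^ (-2))`; `g_i = ω'_i (1 + z'_i)`, `(1 + z'_i) ^ (p ^ β) = 1 + O(p ^ (-2))`;
`f_i ^ (e' p ^ β) = 1 + O(rh/p)` (`(1 + x) ^ (p ^ β) = 1 + O(max (‖x‖ ^ p) (‖x‖/p))`, `rh ^ p ≤ rh/p`).  So
`Y ^ (p ^ β) = ζ' (1 + c₁)(G₁/G₂)(1 + O(rh/p))`, `Y = n₁ g₂/(n₂ g₁)`, `c₁ ∈ L` with
`‖c₁ - Q (Log a₁/e₁ - Log a₂/e₂)‖ ≤ p ^ (-2)` (LGL).  `‖Y - 1‖ = ‖w‖` (as `(Y - 1) n₂ g₁ = g₁ g₂ (l₁ - l₂) w + O(rh)`,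
`rh < th ^ 2`), `‖w‖ ^ (p ^ β) = ‖t‖ ^ m ≤ ‖t‖ < th` (`‖t‖ ^ Q = p ^ (-p ^ β)`; `‖t‖ = p ^ (-s)`, `s ≥ 1/(2E)`, so
`‖t‖ ≤ rh`), so `‖Y ^ (p ^ β) - 1‖ < th` (LGB (6)), hence `‖ζ' - 1‖ < th`, `ζ' = 1` (ROU). -/
def SyaStmt : Prop := ∀ p E : ℕ, p.Prime → 1 ≤ E → 1000 * (E + 1) ^ 2 < p →
  ∀ (K : Type) [NormedField K] [CharZero K] [IsUltrametricDist K] [CompleteSpace K] [IsAlgClosed K],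
  Ext p K → ∀ Log : K → K, IsLog p Log → ∀ L : Subfield K, Unr p L →
  ∀ (s : ℚ) (e₁ e₂ e' m β : ℕ) (t a₁ a₂ F₁ F₂ n₁ n₂ g₁ g₂ l₁ l₂ G₁ G₂ : K),
  Sy p E Log L s e₁ e₂ e' m β t a₁ a₂ F₁ F₂ n₁ n₂ g₁ g₂ l₁ l₂ G₁ G₂ →
  ∃ c₁ ∈ L, ‖c₁‖ ≤ (p : ℝ)⁻¹ ∧ ‖(n₁ * g₂ / (n₂ * g₁)) ^ (p ^ β) - (1 + c₁) * G₁ / G₂‖ ≤
    rh p E / th p ^ 2 * (p : ℝ)⁻¹

/-- SYB (200 lines, STRONG; uses THB, URR, URT, WTM, MTH, LGB, UNV, NUM, TEI, LGL).  PROOF.  Notation of SYA.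
`Y - 1 = g₂ (l₁ - l₂) w (1 + x)/n₂`, `‖x‖ ≤ rh/‖w‖ ≤ ρ₁ = rh/th ^ 2`.  `w ^ (p ^ β) = p ^ (p ^ β) t ^ (-e' p ^ β) =
t ^ m (p ^ (p ^ β)/t ^ Q) = t ^ m ζ₂⁻¹ (b₂ f₂) ^ (-Q) n₂ ^ (p ^ β)` (relation of SYA for the second pair).  So
`(Y - 1) ^ (p ^ β) = ζ₂⁻¹ (g₂ (l₁ - l₂)) ^ (p ^ β) b₂ ^ (-Q) f₂ ^ (-Q) t ^ m (1 + x) ^ (p ^ β)`; TEI for
`g₂ (l₁ - l₂)` and `b₂ = ω₂ (1 + z₂)`, `b₂ ^ (-Q) = ω₂ ^ (-Q) (1 - Q z₂ + O(p ^ (-2)))`, `f₂ ^ (-Q) = G₂⁻¹ (1 + O(rh/p))`,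
`(1 + x) ^ (p ^ β) = 1 + O(ρ₁/p)` (`ρ₁ ^ (p-1) ≤ 1/p`).  `c₂ ∈ L`, `‖c₂ + Q Log a₂/e₂‖ ≤ p ^ (-2)`. -/
def SybStmt : Prop := ∀ p E : ℕ, p.Prime → 1 ≤ E → 1000 * (E + 1) ^ 2 < p →
  ∀ (K : Type) [NormedField K] [CharZero K] [IsUltrametricDist K] [CompleteSpace K] [IsAlgClosed K],
  Ext p K → ∀ Log : K → K, IsLog p Log → ∀ L : Subfield K, Unr p L →
  ∀ (s : ℚ) (e₁ e₂ e' m β : ℕ) (t a₁ a₂ F₁ F₂ n₁ n₂ g₁ g₂ l₁ l₂ G₁ G₂ : K),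
  Sy p E Log L s e₁ e₂ e' m β t a₁ a₂ F₁ F₂ n₁ n₂ g₁ g₂ l₁ l₂ G₁ G₂ →
  ∃ ζ : K, Ro ζ ∧ ∃ c₂ ∈ L, ‖c₂‖ ≤ (p : ℝ)⁻¹ ∧
    ‖(n₁ * g₂ / (n₂ * g₁) - 1) ^ (p ^ β) - ζ * (1 + c₂) * t ^ m / G₂‖ ≤
      rh p E / th p ^ 2 * (p : ℝ)⁻¹ ∧ ‖n₁ * g₂ / (n₂ * g₁) - 1‖ = ‖(p : K) / t ^ e'‖

/-- SYS (120 lines; uses THB, NUM, BIN, SYA, SYB).  PROOF.  `Y = n₁ g₂/(n₂ g₁)`, `S = Y ^ (p ^ β) - 1 - (Y - 1) ^ (p ^ β)`.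
`‖Y - 1‖ = ‖w‖`, `‖w‖ ^ (p ^ β) = ‖t‖ ^ m`.  BIN (`y = Y - 1`, `k = β`; if `β ≥ 2`: `‖w‖ = p ^ (-m/Q)`, `Q = m + e' p ^ β`,
and `m p ^ (β-2) (p-1) < Q`): `‖S‖ = p⁻¹ ‖w‖ ^ (p ^ (β-1))`, so `‖S‖ ^ p = p ^ (-p) ‖t‖ ^ m`.  By SYA, SYB and `‖G₂‖ = 1`,
`G₂ S = (1 + c₁) G₁ - G₂ - ζ (1 + c₂) t ^ m + O(ρ₁/p)`, `ρ₁ = rh/th ^ 2`, and `ρ₁ ^ p < ‖t‖ ^ m` (`m s < m/e' ≤ E`,
`p (1/(2E) - 2/(p-1)) > E`), so the norm of the main part is `‖S‖`. -/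
def SysStmt : Prop := ∀ p E : ℕ, p.Prime → 1 ≤ E → 1000 * (E + 1) ^ 2 < p →
  ∀ (K : Type) [NormedField K] [CharZero K] [IsUltrametricDist K] [CompleteSpace K] [IsAlgClosed K],
  Ext p K → ∀ Log : K → K, IsLog p Log → ∀ L : Subfield K, Unr p L →
  ∀ (s : ℚ) (e₁ e₂ e' m β : ℕ) (t a₁ a₂ F₁ F₂ n₁ n₂ g₁ g₂ l₁ l₂ G₁ G₂ : K),
  Sy p E Log L s e₁ e₂ e' m β t a₁ a₂ F₁ F₂ n₁ n₂ g₁ g₂ l₁ l₂ G₁ G₂ →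
  ∃ ζ : K, Ro ζ ∧ ∃ c₁ ∈ L, ∃ c₂ ∈ L, ‖c₁‖ ≤ (p : ℝ)⁻¹ ∧
    ‖(1 + c₁) * G₁ - G₂ - ζ * (1 + c₂) * t ^ m‖ ^ p = ((p : ℝ)⁻¹) ^ p * ‖t‖ ^ m

/-- NRM (150 lines; uses UNV, UNC).  `Q = m + e' p ^ β`.  PROOF.  Let `v = -log_p ‖ ‖`, `s = v(t) = p ^ β/Q`,
`gcd(Q, p) = 1` (`1 ≤ m < p`).  The nonzero terms are `α_n t ^ n` (`n ≠ m`), `v = k + n s`, `k ∈ ℤ` (UNV), and
`(α_m - ζ β₀) t ^ m`, `v = k + m s` or `k + 1/φ + m s`, `φ = p ^ h (p-1)` (UNC).  The values are different: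
`(n - n') p ^ β/Q ∈ ℤ` gives `Q ∣ n - n'`, but `n₁ ≤ p - 1 < Q`; `(n - m) p ^ β/Q - 1/φ ∈ ℤ` gives (times `Q φ`)
`(p-1) ∣ Q ≡ m + e'` modulo `p - 1`, but `0 < m + e' < p - 1`.  So the norm of the sum is `0` or the norm of one
term; `‖x‖ ^ p = p ^ (-p) ‖t‖ ^ m` excludes `0`, and `p (k + n s) = p + m s` gives `Q ∣ p n - m`: `n = 0`: no; `n ≥ 1`:
`p n - m = i Q` with `i ≥ 1` and (mod `p`) `p ∣ i + 1`, so `p n ≥ (p-1)(m + p)`, `n ≥ p - 1`, contradiction;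
`p (k + 1/φ + m s) = p + m s`: times `Q φ` it gives `(p-1) ∣ p Q`, contradiction. -/
def NrmStmt : Prop := ∀ p : ℕ, p.Prime → 5 ≤ p → ∀ (K : Type) [NormedField K] [CharZero K]
  [IsUltrametricDist K], Ext p K → ∀ L : Subfield K, Unr p L →
  ∀ (α : ℕ → K) (β₀ ζ t : K) (m e' β n₁ : ℕ), (∀ n, α n ∈ L) → β₀ ∈ L → Ro ζ → 1 ≤ m → m < n₁ →
  n₁ ≤ p - 1 → 1 ≤ e' → m + e' < p - 1 → 1 ≤ β →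
  ‖t‖ ^ (m + e' * p ^ β) = ((p : ℝ)⁻¹) ^ (p ^ β) →
  ‖∑ n ∈ Finset.range n₁, α n * t ^ n - ζ * β₀ * t ^ m‖ ^ p ≠ ((p : ℝ)⁻¹) ^ p * ‖t‖ ^ m

/-- MIS (100 lines; uses THB, NUM, PLG, SYS, NRM).  The missing case does not occur.  PROOF.  SYS:
`X = (1 + c₁) G₁ - G₂ - ζ (1 + c₂) t ^ m`, `‖X‖ ^ p = p ^ (-p) ‖t‖ ^ m > (rh/p) ^ p` (`m s < m/e' ≤ E`, `p/(2E) > E`).
PLG for `G₁`, `G₂`: replacing `G_i` by the polynomials in `t` changes `X` by at most `rh/p`, so not its norm; this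
contradicts NRM with `n₁ = E (2 E + 1) + 1 ≤ p - 1`, `α_n = (1 + c₁) d₁_n - d₂_n`, `β₀ = 1 + c₂`
(`‖t‖ ^ (m + e' p ^ β) = p ^ (-s (m + e' p ^ β))`). -/
def MisStmt : Prop := ∀ p E : ℕ, p.Prime → 1 ≤ E → 1000 * (E + 1) ^ 2 < p →
  ∀ (K : Type) [NormedField K] [CharZero K] [IsUltrametricDist K] [CompleteSpace K] [IsAlgClosed K],
  Ext p K → ∀ Log : K → K, IsLog p Log → ∀ L : Subfield K, Unr p L →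
  ∀ (s : ℚ) (e₁ e₂ e' m β : ℕ) (t a₁ a₂ F₁ F₂ n₁ n₂ g₁ g₂ l₁ l₂ G₁ G₂ : K) (c d : ℕ → K),
  (∀ n, c n ∈ L) → (∀ n, d n ∈ L) →
  ‖F₁ - ∑ n ∈ Finset.range (E + 1), c n * t ^ n‖ ≤ rh p E * (p : ℝ)⁻¹ →
  ‖F₂ - ∑ n ∈ Finset.range (E + 1), d n * t ^ n‖ ≤ rh p E * (p : ℝ)⁻¹ →
  ¬ Sy p E Log L s e₁ e₂ e' m β t a₁ a₂ F₁ F₂ n₁ n₂ g₁ g₂ l₁ l₂ G₁ G₂

/-- UPP (250 lines, STRONG; uses THB, URR, MTH, LGB, UNV, NUM, RLA, RNS, RPX, LGL, MAI, UPE, UPA, UPF, MIS).  No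
solutions near the upper end.  PROOF.  Suppose `th ^ 2 ≤ ‖w‖`, `w = p/t ^ e'`, `e' = e j`.  `ρ = rh p E`; NUM:
`‖t‖ ≤ rh`, `‖t ^ e''/p‖ ≤ rh` for `e'' > e'`, in particular for `e i`, `e k` (`e' < e i, e k` by the states).  RPX: two
`Rp` with the same `s`.  RLA (`N = 1`): `‖F_i - 1‖ ≤ rh`.  RNS (`e = e'`): `l₁ = lS e' (e j) ..`, `l₂ = lS e' (e l) ..`,
`g₁ = g j`, `g₂ = g l`; `‖l₁ - l₂‖ = 1` (`Gen.zero` or `l₂ = 0`); `r = -l₂/(l₁ - l₂)`: `0` or, for all `m`,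
`‖r - m‖ = ‖l₂ + m (l₁ - l₂)‖ = 1` (`Gen.zero`: `c = δ_l`, `d = δ_l - δ_j`).  `e' s = B/A` in lowest terms, `B < A`.  UPE,
UPA.  MAI with `e = min (e i) (e k)` (`Fo`), `κ = Log (A i 0)/e i - Log (A k 0)/e k` (LGL: `0` or `p ^ (-N)`), `T` of UPE is
`κ + (Log F_i/e i - Log F_k/e k)`; UPF: `β`.  MIS: `F_i` is within `‖t‖ ^ (e i) = ‖t ^ (e i)/p‖/p ≤ rh/p` of a polynomial
in `t` of degree `≤ e i ≤ E` with coefficients in `L` (RLA, `N = e i`); `G_i` by MTH. -/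
def UppStmt : Prop := ∀ U : PowerSeries ℚ, IsU U → ∀ p E : ℕ, p.Prime → 1 ≤ E →
  1000 * (E + 1) ^ 2 < p →
  ∀ (K : Type) [NormedField K] [CharZero K] [IsUltrametricDist K] [CompleteSpace K] [IsAlgClosed K],
  Ext p K → ∀ Log : K → K, IsLog p Log → ∀ L : Subfield K, Unr p L →
  ∀ (n : ℕ) (e : Fin n → ℕ) (A : Fin n → ℕ → K) (g : Fin n → K), (∀ i, Cd L (e i) (A i) (g i)) →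
  (∀ i, e i ≤ E) → Fo e A E → Gen p Log ((PowerSeries.coeff 1 U : ℚ) : K) e A g →
  ∀ i j k l : Fin n, i ≠ k → j ≠ l → 1 ≤ e i → 1 ≤ e k → 1 ≤ e j → e l ≤ e j →
  ∀ (t : K) (q : Fin n → K), 0 < ‖t‖ → La p (e i) t → La p (e k) t → Sm p (e j) t →
  (∀ u ∈ ({i, j, k, l} : Set (Fin n)), At p U (e u) (A u) (g u) t (q u)) →
  Dep (q i) (q j) → Dep (q k) (q l) → ‖(p : K) / t ^ e j‖ < th p ^ 2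

/-! ### Interior -/

/-- INA (200 lines, no hypotheses).  Finitely many radii.  PROOF.  Terms `a = s δ/t ^ e'`, `b = κ`, `c = H t ^ m`,
`d = τ t ^ e/p`, `‖d‖ = p ^ (1 - e s) < 1`, `‖c‖ = p ^ (-m s)` or `0`, `‖b‖ = p ^ (-N)` or `0`, `‖a‖ = ‖s‖ p ^ (e' s - 1)`,
`e' s < 1 < e s`.  `‖s‖ ≤ 1`: otherwise `‖s‖ ≥ p`, `‖a‖ ≥ 1` is larger than `‖b‖, ‖c‖, ‖d‖`, contradiction to `μ < 1`.  So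
`‖s‖ = p ^ (-β)`, `β ≥ 0`.  If one of the four norms were strictly larger than the other three the sum would have
that norm, contradiction; if `e' = 0` the same for `a - b` (norm `max ‖a‖ ‖b‖`), `c`, `d`.  So two of the four are equal
(if `e' = 0`: not only `a` and `b`).  `c, d`: `(e - m) s = 1`.  `b, c`: `m s = N`.  `b, d`: `e s = N + 1`.  `a, c`:
`(m + e') s = β + 1`.  `a, d`: `(e + e') s = β + 2`.  In the last two cases `β = v_p(s) = v_p(β + 1)` resp. `v_p(β + 2)`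
(`m + e', e + e' < p`), so `p ^ β ∣ β + 1` resp. `β + 2` and `β = 0` (`p ≥ 5`).  `a, b` with `e' ≥ 1`: `e' s = β + 1 - N`
is an integer in `(0, 1)`, contradiction. -/
def InaStmt : Prop := ∀ p E : ℕ, p.Prime → 1 ≤ E → 1000 * (E + 1) ^ 2 < p →
  ∀ (K : Type) [NormedField K] [CharZero K] [IsUltrametricDist K], Ext p K →
  ∀ (s : ℚ) (e e' m N : ℕ) (t κ δ H τ : K) (μ : ℝ), 0 < s → ‖t‖ = (p : ℝ) ^ (-(s : ℝ)) → 1 ≤ e →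
  e ≤ E → e' < e → La p e t → Sm p e' t → ‖δ‖ = (p : ℝ)⁻¹ → ‖τ‖ = 1 →
  (H = 0 ∨ (1 ≤ m ∧ m < e ∧ ‖H‖ = 1)) → (κ = 0 ∨ (1 ≤ N ∧ ‖κ‖ = ((p : ℝ)⁻¹) ^ N)) → μ < 1 →
  (e' = 0 → ‖((s : ℚ) : K) * δ - κ‖ = max ‖((s : ℚ) : K) * δ‖ ‖κ‖) →
  ‖((s : ℚ) : K) * (δ / t ^ e') - κ - (H * t ^ m + τ * (t ^ e / p))‖ ≤
    μ * max ‖((s : ℚ) : K) * (δ / t ^ e')‖ (max (‖H‖ * ‖t‖ ^ m) ‖t ^ e / (p : K)‖) →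
  ∃ x y : ℕ, x ≤ N + 2 ∧ 1 ≤ y ∧ y ≤ 2 * E ∧ (y : ℚ) * s = x

/-- INF (200 lines, STRONG; uses GNU, FIN).  A fixed radius.  PROOF.  `τ₀ ^ A = p ^ B`, `‖τ₀‖ = p ^ (-s)`, `t = τ₀ u`,
`‖u‖ = 1`.  `P = s δ/τ₀ ^ e' - κ X ^ e' - H τ₀ ^ m X ^ (m+e') - (τ τ₀ ^ e/p) X ^ (e+e')`; `P(u)` is `u ^ e'` times the left
side, so `‖P(u)‖ ≤ μ X₀`, `X₀ > 0` the maximum on the right.  Some coefficient of `P` has norm `≥ X₀` (the exponents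
are different if `e' ≥ 1`; if `e' = 0` the constant coefficient `s δ - κ` has norm `≥ ‖s δ‖`).  Divide by an element of
norm `X₀` (one of the three terms); GNU: finitely many `r`, `‖u - r‖ ≤ ρ' < 1` (so `‖r‖ = 1`).
`ζ = (t ^ e₁/(a F)) ^ A (nu/p) ^ (e₁ B) = u ^ (e₁ A) a ^ (-A) F ^ (-A) nu ^ (e₁ B)` is within `max μ ρ'` of
`r ^ (e₁ A) a ^ (-A) g ^ (e₁ B)`; FIN. -/
def InfStmt : Prop := ∀ p : ℕ, p.Prime → 5 ≤ p → ∀ (K : Type) [NormedField K] [CharZero K]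
  [IsUltrametricDist K] [IsAlgClosed K], Ext p K →
  ∀ (s : ℚ) (A B e₁ e e' m : ℕ) (a g δ κ H τ : K) (μ : ℝ), 0 < s → 1 ≤ A → (B : ℚ) = s * A →
  0 ≤ μ → μ < 1 → ‖a‖ = 1 → ‖g‖ = 1 → δ ≠ 0 → ‖τ‖ = 1 → 1 ≤ e → (H = 0 ∨ (1 ≤ m ∧ m < e)) →
  (e' = 0 → ‖((s : ℚ) : K) * δ - κ‖ = max ‖((s : ℚ) : K) * δ‖ ‖κ‖) →
  ∃ M : ℕ, 1 ≤ M ∧ ∀ t F nu ζ : K, ‖t‖ = (p : ℝ) ^ (-(s : ℝ)) → ‖F - 1‖ ≤ μ → ‖nu - g‖ ≤ μ →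
    ‖((s : ℚ) : K) * (δ / t ^ e') - κ - (H * t ^ m + τ * (t ^ e / p))‖ ≤
      μ * max ‖((s : ℚ) : K) * (δ / t ^ e')‖ (max (‖H‖ * ‖t‖ ^ m) ‖t ^ e / (p : K)‖) →
    Ro ζ → (t ^ e₁ / (a * F)) ^ A = ζ * ((p : K) / nu) ^ (e₁ * B) → ζ ^ M = 1

/-- RRR (300 lines, STRONG; uses THB, NUM, RNL, RSM, RNS, RPX, LGL, KPS, THN, MAI, LOW, UPP, INA, INF).  Two radial
pairs.  PROOF.  `e₀ = min (e i) (e k)`, `e' = max (e j) (e l) < e₀`.  LOW (for `i, j, k, l` or `k, l, i, j`):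
`‖t ^ e₀/p‖ < th ^ 2`; UPP (if `e' ≥ 1`; in the same way): `‖p/t ^ e'‖ < th ^ 2` (`e' = 0`: `1/p < th ^ 2`).  Data that
depend only on the curve: `δ` (THN; hypotheses by `Gen.zero`, `Gen.sq`), `m, H, τ` (MAI; `Gen.infty`, `Fo`),
`κ = Log (A i 0)/e i - Log (A k 0)/e k`, `N` (LGL; `N = 0` if `κ = 0`).  RPX: `s`, both pairs.  The two `lg` give
`(Log a_i + Log F_i)/e i - (Log a_k + Log F_k)/e k = s (Log n_j - Log n_l)`, so with `μ = max ‖t‖ ‖t ^ e₀/p‖ ‖p/t ^ e'‖ < 1`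
the inequality of INA (errors of THN and MAI; `1/p ≤ ‖p/t ^ e'‖`); if `e' = 0`: KPS with `θ = δ` and `Gen.sq`.  INA:
`y s = x`, `x ≤ N + 2`, `y ≤ 2 E`: finitely many `s`.  For each such `s` (`A := y`, `B := x`, `μ := max (p ^ (-s))
(p ^ (1 - e₀ s)) (p ^ (e' s - 1))`, nothing to do if `μ ≥ 1`) INF gives `M_s`: `‖F_i - 1‖ ≤ μ` (RNL),
`‖n_j - g_j‖ ≤ ‖p/t ^ e'‖ ≤ μ` (RNS; RSM if `e' = 0`); `ζ` from `rt`: `q_i ^ y = ζ q_j ^ (e i * x)`, so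
`q_i ^ (y M_s) = q_j ^ (e i x M_s)`.  `M` = maximum of all `2 E M_s` and `E (N + 2) M_s`. -/
def RrrStmt : Prop := ∀ U : PowerSeries ℚ, IsU U → ∀ p E : ℕ, p.Prime → 1 ≤ E →
  1000 * (E + 1) ^ 2 < p →
  ∀ (K : Type) [NormedField K] [CharZero K] [IsUltrametricDist K] [CompleteSpace K] [IsAlgClosed K],
  Ext p K → ∀ Log : K → K, IsLog p Log → ∀ L : Subfield K, Unr p L →
  ∀ (n : ℕ) (e : Fin n → ℕ) (A : Fin n → ℕ → K) (g : Fin n → K), (∀ i, Cd L (e i) (A i) (g i)) →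
  (∀ i, e i ≤ E) → Fo e A E → Gen p Log ((PowerSeries.coeff 1 U : ℚ) : K) e A g →
  ∀ i j k l : Fin n, i ≠ k → j ≠ l → 1 ≤ e i → 1 ≤ e k → ∃ M : ℕ, ∀ (t : K) (q : Fin n → K),
  0 < ‖t‖ → La p (e i) t → La p (e k) t → Sm p (e j) t → Sm p (e l) t →
  (∀ u ∈ ({i, j, k, l} : Set (Fin n)), At p U (e u) (A u) (g u) t (q u)) →
  Dep (q i) (q j) → Dep (q k) (q l) → Bd M (q i) (q j)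

end

end Pool.Agent.ZPK
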