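import Pool.Agent.ZPK.StmtsR2
import Pool.Agent.ZPK.StmtsF

/-!
Squad ZPK (MP_6e1a06_nt), THEOREM K: block T: pairs in equal states, and the final row of the non
critical states, `LncStmt` (StmtsF.lean).

LNC (250 lines, STRONG; uses THB, NUM, PBL, PBS, RTL, RTS, TTL, TTS, RRR).  PROOF of `LncStmt`.  `1 ≤ e b ≤ E`.  A
non critical coordinate `u` is large (then `e u ≥ 1`) or small.  `Dep` and `Bd` are symmetric, `Dep` is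
transitive, `Bd` monotone in `M`; `M` is the maximum of the finitely many `M` of the rows used.
(A) Both pairs mixed (one large, one small).  `j ≠ k`: RRR (the two large ones are different, the two
small ones too): `Bd (q i) (q j)`.  `j = k`: `i, l` are in the same state and `j` in the other,
`Dep (q i) (q l)`; RTL or RTS for the pair `(i, l)` and the radial pair of `i` and `j` (in the order large,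
small): `Bd (q i) (q l)` (both small: `1 ≤ e i ∨ 1 ≤ e l` by hypothesis).
(B) Exactly one pair mixed: RTL or RTS with this pair as radial pair bounds the other pair.
(C) `(i, j)` both large, `(k, l)` both small (or the other way round): `e₁ = min (e i) (e j)`,
`e₂ = max (e k) (e l) < e₁`.  `‖t ^ e₁/p‖ < th`: PBL.  Otherwise NUM gives `‖p/t ^ e₂‖ ≤ rh < th`: PBS.
(D) All large: `e₁ = min (e i) (e j)`, `e₂ = min (e k) (e l)`.  `‖t ^ e₁/p‖ < th` or `‖t ^ e₂/p‖ < th`: PBL.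
Otherwise `e₁ = e₂ = e₀` (if `e₁ < e₂` then `‖t ^ e₂/p‖ ≤ ‖t‖ ‖t ^ e₁/p‖ ≤ ‖t‖ ≤ rh < th`).  If `j ≠ k`, or `e i = e₀`, or
`e l = e₀`: TTL, contradiction.  Otherwise `j = k` and `e i, e l > e₀`: `‖t ^ min (e i) (e l)/p‖ ≤ ‖t‖ < th`, PBL
for `(i, l)`.
(E) All small: the same with `max`, `p/t ^ e`, PBS, TTS (`‖t‖ ≤ rh` by NUM if `th ^ 2 ≤ ‖p/t ^ e₀‖`).
-/

set_option autoImplicit false

namespace Pool.Agent.ZPK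

open Polynomial Pool.Agent.ZPT Pool.Agent.ZP3

noncomputable section

/-- TPL (150 lines; uses URR, URT, MTH, UNV, NUM, RNL).  Two large coordinates, `w = t ^ e₁/p`.  PROOF.
`F_i = t ^ e_i q_i⁻¹/A_i 0` (RNL).  `e₂ = e₁`: `‖q₁‖ = ‖q₂‖`, so `q₁ ^ a = q₂ ^ b` has `a = b` and `ζ = q₂/q₁` is a root of
unity, `A₁ 0 F₁ = ζ A₂ 0 F₂`, `h = A₁ 0/A₂ 0`.  `e₂ > e₁`: `b ^ e₂ = (A₂ 0) ^ e₁` (`b ∈ Uu` by URT), `f ^ e₂ = F₂ ^ e₁`,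
`‖f - 1‖ ≤ ‖t‖` (MTH with `y = 1`; `‖F₂ - 1‖ ≤ ‖t‖` as `lL e₁ e₂ .. = 0`), `ζ = A₁ 0 F₁/(b f)`, `h = A₁ 0/b`:
`ζ ^ e₂ = q₂ ^ e₁/q₁ ^ e₂`, which is a root of unity (`q₁ ^ a = q₂ ^ b`, the norms give `e₁ a = e₂ b`; power `b`). -/
def TplStmt : Prop := ∀ U : PowerSeries ℚ, IsU U → ∀ p E : ℕ, p.Prime → 1 ≤ E →
  1000 * (E + 1) ^ 2 < p →
  ∀ (K : Type) [NormedField K] [CharZero K] [IsUltrametricDist K] [CompleteSpace K] [IsAlgClosed K],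
  Ext p K → ∀ L : Subfield K, Unr p L →
  ∀ (e₁ e₂ : ℕ) (A₁ A₂ : ℕ → K) (g₁ g₂ : K), Cd L e₁ A₁ g₁ → Cd L e₂ A₂ g₂ → 1 ≤ e₁ → e₁ ≤ e₂ →
  e₂ ≤ E → ∃ h : K, Uu p h ∧ ∀ t q₁ q₂ : K, 0 < ‖t‖ → La p e₁ t → At p U e₁ A₁ g₁ t q₁ →
  At p U e₂ A₂ g₂ t q₂ → Dep q₁ q₂ → ∃ ζ : K, Ro ζ ∧
    ‖h * (1 + lL e₁ e₁ A₁ g₁ * (t ^ e₁ / p)) - ζ * (1 + lL e₁ e₂ A₂ g₂ * (t ^ e₁ / p))‖ ≤ ‖t‖ ∧
    ∀ M : ℕ, 1 ≤ M → ζ ^ M = 1 → q₁ ^ (e₂ * M) = q₂ ^ (e₁ * M)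

/-- TPS (60 lines; uses RNS).  Two small coordinates, `w = p/t ^ e`.  PROOF.  `‖q₁‖ = ‖q₂‖ = 1/p`, so
`ζ = q₂/q₁` is a root of unity; `p q₁⁻¹ = ζ p q₂⁻¹`, RNS, divide by `g₂`. -/
def TpsStmt : Prop := ∀ U : PowerSeries ℚ, IsU U → ∀ p : ℕ, p.Prime → 5 ≤ p →
  ∀ (K : Type) [NormedField K] [CharZero K] [IsUltrametricDist K] [CompleteSpace K], Ext p K →
  ∀ (L : Subfield K) (e e₁ e₂ : ℕ) (A₁ A₂ : ℕ → K) (g₁ g₂ : K), Cd L e₁ A₁ g₁ → Cd L e₂ A₂ g₂ →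
  e = max e₁ e₂ → 1 ≤ e → ∀ t q₁ q₂ : K, 0 < ‖t‖ → ‖t‖ < 1 → Sm p e t → At p U e₁ A₁ g₁ t q₁ →
  At p U e₂ A₂ g₂ t q₂ → Dep q₁ q₂ → ∃ ζ : K, Ro ζ ∧
    ‖g₁ / g₂ * (1 + lS e e₁ A₁ g₁ * (p / t ^ e)) - ζ * (1 + lS e e₂ A₂ g₂ * (p / t ^ e))‖ ≤
      ‖t‖ * ‖(p : K) / t ^ e‖ ∧ ∀ M : ℕ, 1 ≤ M → ζ ^ M = 1 → q₁ ^ M = q₂ ^ M

/-- PBL (60 lines; uses THB, NUM, TPL, FIN).  A pair of large coordinates away from the critical radius.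
PROOF.  TPL: `‖h - ζ‖ ≤ max ‖t‖ ‖t ^ e₁/p‖ ≤ th` (`‖t‖ ≤ rh < th`); FIN with `S = {h}`. -/
def PblStmt : Prop := ∀ U : PowerSeries ℚ, IsU U → ∀ p E : ℕ, p.Prime → 1 ≤ E →
  1000 * (E + 1) ^ 2 < p →
  ∀ (K : Type) [NormedField K] [CharZero K] [IsUltrametricDist K] [CompleteSpace K] [IsAlgClosed K],
  Ext p K → ∀ L : Subfield K, Unr p L →
  ∀ (e₁ e₂ : ℕ) (A₁ A₂ : ℕ → K) (g₁ g₂ : K), Cd L e₁ A₁ g₁ → Cd L e₂ A₂ g₂ → 1 ≤ e₁ → e₁ ≤ e₂ →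
  e₂ ≤ E → ∃ M : ℕ, ∀ t q₁ q₂ : K, 0 < ‖t‖ → La p e₁ t → ‖t ^ e₁ / (p : K)‖ < th p →
  At p U e₁ A₁ g₁ t q₁ → At p U e₂ A₂ g₂ t q₂ → Dep q₁ q₂ → Bd M q₁ q₂

/-- PBS (80 lines; uses THB, RSM, TPS, FIN).  A pair of small coordinates away from the critical radius.
PROOF.  `e ≥ 1`: TPS: `‖g₁/g₂ - ζ‖ ≤ ‖p/t ^ e‖ ≤ th`; FIN.  `e = 0`: `ζ = q₂/q₁`, `‖p q_i⁻¹ - g_i‖ ≤ 1/p` (RSM). -/
def PbsStmt : Prop := ∀ U : PowerSeries ℚ, IsU U → ∀ p : ℕ, p.Prime → 5 ≤ p →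
  ∀ (K : Type) [NormedField K] [CharZero K] [IsUltrametricDist K] [CompleteSpace K], Ext p K →
  ∀ (L : Subfield K) (e e₁ e₂ : ℕ) (A₁ A₂ : ℕ → K) (g₁ g₂ : K), Cd L e₁ A₁ g₁ → Cd L e₂ A₂ g₂ →
  e = max e₁ e₂ → ∃ M : ℕ, ∀ t q₁ q₂ : K, 0 < ‖t‖ → ‖t‖ < 1 → Sm p e t →
  ‖(p : K) / t ^ e‖ < th p → At p U e₁ A₁ g₁ t q₁ → At p U e₂ A₂ g₂ t q₂ → Dep q₁ q₂ → Bd M q₁ q₂

/-- QVI (120 lines; uses URR, URT, THB, MTH, UNV, NUM, RNL, RSM).  A radial pair seen from the large side of the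
critical radius of `e`, `w = t ^ e/p`.  PROOF.  `F = t ^ e₁ q₁⁻¹/A₁ 0` (RNL, error `‖t‖ ≤ rh`).  `e₁ = e`:
`Qv = q₁⁻¹`, `a = A₁ 0`.  `e₁ > e`: `b ^ e₁ = (A₁ 0) ^ e`, `f ^ e₁ = F ^ e`, `‖f - 1‖ ≤ ‖t‖` (MTH), `Qv = b f/t ^ e`, `a = b`,
`Qv ^ e₁ = q₁ ^ (-e)`.  `Qu = q₂⁻¹`; `‖p/t ^ e₂‖ ≤ rh` (NUM, `th ^ 2 ≤ th ≤ ‖w‖`) and RSM.  `q₁ ^ a' = q₂ ^ b'` gives
`Qv ^ (e₁ a') = Qu ^ (e b')`. -/
def QviStmt : Prop := ∀ U : PowerSeries ℚ, IsU U → ∀ p E : ℕ, p.Prime → 1 ≤ E →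
  1000 * (E + 1) ^ 2 < p →
  ∀ (K : Type) [NormedField K] [CharZero K] [IsUltrametricDist K] [CompleteSpace K] [IsAlgClosed K],
  Ext p K → ∀ L : Subfield K, Unr p L →
  ∀ (e e₁ e₂ : ℕ) (A₁ A₂ : ℕ → K) (g₁ g₂ : K), Cd L e₁ A₁ g₁ → Cd L e₂ A₂ g₂ → 1 ≤ e → e ≤ e₁ →
  e₁ ≤ E → e₂ < e → ∃ a : K, Uu p a ∧ ∀ t q₁ q₂ : K, 0 < ‖t‖ → La p e t → th p ≤ ‖t ^ e / (p : K)‖ →
  At p U e₁ A₁ g₁ t q₁ → At p U e₂ A₂ g₂ t q₂ → Dep q₁ q₂ → ∃ (Qv Qu : K) (A B : ℕ), 1 ≤ A ∧ 1 ≤ B ∧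
    Qv ^ A = Qu ^ B ∧
    ‖(p : K) * Qv * (t ^ e / p) - a * (1 + lL e e₁ A₁ g₁ * (t ^ e / p))‖ ≤ rh p E ∧
    ‖(p : K) * Qu - g₂‖ ≤ rh p E

/-- QVF (120 lines; uses URR, URT, THB, MTH, UNV, NUM, RLA, RNS).  A radial pair seen from the small side of the
critical radius of `e`, `w = p/t ^ e`.  PROOF.  NUM (`th ^ 2 ≤ th ≤ ‖w‖`): `‖t‖ ≤ rh`, `‖t ^ e₁/p‖ ≤ rh`, so `La p e₁ t`,
`F = t ^ e₁ q₁⁻¹/A₁ 0` has `‖F - 1‖ ≤ rh` (RLA, `N = 1`).  `b ^ e₁ = (A₁ 0) ^ e`, `f ^ e₁ = F ^ e`, `‖f - 1‖ ≤ rh` (MTH),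
`Qv = b f/t ^ e`, `a = b`; `Qu = q₂⁻¹`, RNS (error `‖t‖ ‖w‖ ≤ rh`). -/
def QvfStmt : Prop := ∀ U : PowerSeries ℚ, IsU U → ∀ p E : ℕ, p.Prime → 1 ≤ E →
  1000 * (E + 1) ^ 2 < p →
  ∀ (K : Type) [NormedField K] [CharZero K] [IsUltrametricDist K] [CompleteSpace K] [IsAlgClosed K],
  Ext p K → ∀ L : Subfield K, Unr p L →
  ∀ (e e₁ e₂ : ℕ) (A₁ A₂ : ℕ → K) (g₁ g₂ : K), Cd L e₁ A₁ g₁ → Cd L e₂ A₂ g₂ → 1 ≤ e → e < e₁ →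
  e₁ ≤ E → e₂ ≤ e → ∃ a : K, Uu p a ∧ ∀ t q₁ q₂ : K, 0 < ‖t‖ → ‖t‖ < 1 → Sm p e t →
  th p ≤ ‖(p : K) / t ^ e‖ → At p U e₁ A₁ g₁ t q₁ → At p U e₂ A₂ g₂ t q₂ → Dep q₁ q₂ →
  ∃ (Qv Qu : K) (A B : ℕ), 1 ≤ A ∧ 1 ≤ B ∧ Qv ^ A = Qu ^ B ∧
    ‖(p : K) * Qv - a * (p / t ^ e)‖ ≤ rh p E ∧
    ‖(p : K) * Qu - g₂ * (1 + lS e e₂ A₂ g₂ * (p / t ^ e))‖ ≤ rh p E

/-- RTL (150 lines; uses THB, URR, UNV, NUM, PBL, TPL, QVI, GTI).  A pair of large coordinates and a radial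
pair.  PROOF.  Let `e k ≤ e l` (otherwise exchange `k`, `l`), `e₀ = e k`, `z = t ^ e₀/p`.  `‖z‖ < th`: PBL.  `‖z‖ ≥ th`:
`e i ≥ e₀` (NUM: otherwise `p⁻¹/‖t‖ ^ (e i) ≤ rh < 1`, `i` would be small), `e j < e₀`.  TPL for `k, l`, QVI for `i, j`,
GTI with `l₁, l₂, l₃ = lL e₀ (e u) ..` for `u = k, l, i`, `h₄ = g j`, `ρ = rh < th ^ 6` (`‖t‖ ≤ rh`): contradiction.
`‖l₁ - l₂‖ = 1` and the last hypothesis: `l₃ = l₁` if `i = k`; `l₃ = l₂` if `i = l` or both are `0`; otherwise `Gen.infty`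
with `d` the vector of `l₁ - l₂` (`δ_k - δ_l` or `δ_k`) and `c` the vector of `l₃ - l₂`, which are independent. -/
def RtlStmt : Prop := ∀ U : PowerSeries ℚ, IsU U → ∀ p E : ℕ, p.Prime → 1 ≤ E →
  1000 * (E + 1) ^ 2 < p →
  ∀ (K : Type) [NormedField K] [CharZero K] [IsUltrametricDist K] [CompleteSpace K] [IsAlgClosed K],
  Ext p K → ∀ Log : K → K, IsLog p Log → ∀ L : Subfield K, Unr p L →
  ∀ (n : ℕ) (e : Fin n → ℕ) (A : Fin n → ℕ → K) (g : Fin n → K), (∀ i, Cd L (e i) (A i) (g i)) →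
  (∀ i, e i ≤ E) → Gen p Log ((PowerSeries.coeff 1 U : ℚ) : K) e A g →
  ∀ i j k l : Fin n, k ≠ l → 1 ≤ e i → 1 ≤ e k → 1 ≤ e l → ∃ M : ℕ, ∀ (t : K) (q : Fin n → K),
  0 < ‖t‖ → La p (e i) t → Sm p (e j) t → La p (e k) t → La p (e l) t →
  (∀ u ∈ ({i, j, k, l} : Set (Fin n)), At p U (e u) (A u) (g u) t (q u)) →
  Dep (q i) (q j) → Dep (q k) (q l) → Bd M (q k) (q l)

/-- RTS (150 lines; uses THB, URR, UNV, NUM, PBS, TPS, QVF, GTF).  A pair of small coordinates and a radial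
pair.  PROOF.  Let `e l ≤ e k`, `e₀ = e k ≥ 1`, `z = p/t ^ e₀`.  `‖z‖ < th`: PBS.  `‖z‖ ≥ th`: `e i > e₀` (states), `e j ≤ e₀`
(NUM: otherwise `‖t‖ ^ (e j) p ≤ rh < 1`, `j` would be large).  TPS for `k, l`, QVF for `i, j`, GTF with
`l₁, l₂, l₄ = lS e₀ (e u) ..` for `u = k, l, j`, `h = g k/g l`, `h₄ = g j`, `ρ = rh < th ^ 6`: contradiction.  `Gtr`:
`j = k`: first alternative if `l₂ = 0`, else the second (`Gen.zero` with `d = δ_k - δ_l`, `c = δ_k` and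
`c = δ_l - 2 δ_k`).  `j = l`: the same (`c = δ_l`, `c = -δ_l`).  `j ≠ k, l`: if `e j < e₀`: `l₄ = 0`, third alternative; if
`e j = e₀`: second (`c = δ_j`, `c = δ_l - 2 δ_j` or `-2 δ_j`). -/
def RtsStmt : Prop := ∀ U : PowerSeries ℚ, IsU U → ∀ p E : ℕ, p.Prime → 1 ≤ E →
  1000 * (E + 1) ^ 2 < p →
  ∀ (K : Type) [NormedField K] [CharZero K] [IsUltrametricDist K] [CompleteSpace K] [IsAlgClosed K],
  Ext p K → ∀ Log : K → K, IsLog p Log → ∀ L : Subfield K, Unr p L →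
  ∀ (n : ℕ) (e : Fin n → ℕ) (A : Fin n → ℕ → K) (g : Fin n → K), (∀ i, Cd L (e i) (A i) (g i)) →
  (∀ i, e i ≤ E) → Gen p Log ((PowerSeries.coeff 1 U : ℚ) : K) e A g →
  ∀ i j k l : Fin n, k ≠ l → 1 ≤ e i → (1 ≤ e k ∨ 1 ≤ e l) → ∃ M : ℕ, ∀ (t : K) (q : Fin n → K),
  0 < ‖t‖ → La p (e i) t → Sm p (e j) t → Sm p (e k) t → Sm p (e l) t →
  (∀ u ∈ ({i, j, k, l} : Set (Fin n)), At p U (e u) (A u) (g u) t (q u)) →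
  Dep (q i) (q j) → Dep (q k) (q l) → Bd M (q k) (q l)

/-- TTL (120 lines; uses THB, URR, UNV, NUM, TPL, GTT).  Two pairs of large coordinates near the same critical
radius.  PROOF.  Suppose `th ≤ ‖z‖`, `z = t ^ e₀/p`.  TPL for both pairs (in the order of increasing
exponents; the slopes are `lL e₀ (e u) ..`), GTT with `ρ = rh`.  Let `x_u = δ_u` if `e u = e₀` and `0` otherwise;
`c = ± (x_i - x_j)`, `d = ± (x_k - x_l)` are independent (four different indices: disjoint supports, both `≠ 0`;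
`j = k`: if `e i = e₀` then `c_i ≠ 0 = d_i`, `d ≠ 0`; if `e l = e₀` the same with `l`), `Gen.infty`. -/
def TtlStmt : Prop := ∀ U : PowerSeries ℚ, IsU U → ∀ p E : ℕ, p.Prime → 1 ≤ E →
  1000 * (E + 1) ^ 2 < p →
  ∀ (K : Type) [NormedField K] [CharZero K] [IsUltrametricDist K] [CompleteSpace K] [IsAlgClosed K],
  Ext p K → ∀ Log : K → K, IsLog p Log → ∀ L : Subfield K, Unr p L →
  ∀ (n : ℕ) (e : Fin n → ℕ) (A : Fin n → ℕ → K) (g : Fin n → K), (∀ i, Cd L (e i) (A i) (g i)) →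
  (∀ i, e i ≤ E) → Gen p Log ((PowerSeries.coeff 1 U : ℚ) : K) e A g →
  ∀ (e₀ : ℕ) (i j k l : Fin n), i ≠ j → k ≠ l → i ≠ l → i ≠ k → j ≠ l → 1 ≤ e₀ →
  e₀ = min (e i) (e j) → e₀ = min (e k) (e l) → (j = k → e i = e₀ ∨ e l = e₀) →
  ∀ (t : K) (q : Fin n → K), 0 < ‖t‖ → La p e₀ t →
  (∀ u ∈ ({i, j, k, l} : Set (Fin n)), At p U (e u) (A u) (g u) t (q u)) →
  Dep (q i) (q j) → Dep (q k) (q l) → ‖t ^ e₀ / (p : K)‖ < th p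

/-- TTS (120 lines; uses THB, URR, UNV, NUM, TPS, GTT).  Two pairs of small coordinates near the same critical
radius.  PROOF.  As TTL with `z = p/t ^ e₀`, TPS (error `‖t‖ ‖z‖ ≤ rh`, NUM), slopes `lS e₀ (e u) ..`,
`Gen.zero`. -/
def TtsStmt : Prop := ∀ U : PowerSeries ℚ, IsU U → ∀ p E : ℕ, p.Prime → 1 ≤ E →
  1000 * (E + 1) ^ 2 < p →
  ∀ (K : Type) [NormedField K] [CharZero K] [IsUltrametricDist K] [CompleteSpace K] [IsAlgClosed K],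
  Ext p K → ∀ Log : K → K, IsLog p Log → ∀ L : Subfield K, Unr p L →
  ∀ (n : ℕ) (e : Fin n → ℕ) (A : Fin n → ℕ → K) (g : Fin n → K), (∀ i, Cd L (e i) (A i) (g i)) →
  (∀ i, e i ≤ E) → Gen p Log ((PowerSeries.coeff 1 U : ℚ) : K) e A g →
  ∀ (e₀ : ℕ) (i j k l : Fin n), i ≠ j → k ≠ l → i ≠ l → i ≠ k → j ≠ l → 1 ≤ e₀ →
  e₀ = max (e i) (e j) → e₀ = max (e k) (e l) → (j = k → e i = e₀ ∨ e l = e₀) →
  ∀ (t : K) (q : Fin n → K), 0 < ‖t‖ → ‖t‖ < 1 → Sm p e₀ t →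
  (∀ u ∈ ({i, j, k, l} : Set (Fin n)), At p U (e u) (A u) (g u) t (q u)) →
  Dep (q i) (q j) → Dep (q k) (q l) → ‖(p : K) / t ^ e₀‖ < th p

end

end Pool.Agent.ZPK
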