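import Pool.Agent.ZPK.StmtsL

/-!
Squad ZPK (MP_6e1a06_nt), THEOREM K: block X, the critical circle `‖t‖ ^ e = 1/p`, `w = p / t ^ e`.
Every coordinate has a type: `e' < e` (constant form), `e' = e` (form `g + a w`), `e' > e` (form `w`), and
a normalised parameter `N` close to its linear form `G + B w`, with `(κ N) ^ r q ^ s = p ^ r`.
-/

set_option autoImplicit false

namespace Pool.Agent.ZPK

open Polynomial Pool.Agent.ZPT Pool.Agent.ZP3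

noncomputable section

/-- The constant coefficient of the linear form. -/
def Gf {K : Type} [Field K] (e e' : ℕ) (g : K) : K := if e' ≤ e then g else 0

/-- The coefficient of `w` of the linear form. -/
def Bf {K : Type} [Field K] (e e' : ℕ) (A : ℕ → K) : K :=
  if e' < e then 0 else if e' = e then A 0 else 1

/-- The coefficient of `t ^ m w` in `N`. -/
def Mu {K : Type} [Field K] (e e' : ℕ) (A : ℕ → K) (m : ℕ) : K :=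
  if e' < e then (if e - e' ≤ m then A (m - (e - e')) else 0) else
    if e' = e then A m else (e : K) / (e' : K) * A m / A 0

/-- The coefficient of `t ^ m` in `N`. -/
def Nu {K : Type} [Field K] (e e' : ℕ) (A : ℕ → K) (g : K) (m : ℕ) : K :=
  if e < e' ∧ e' - e = m then (e : K) / (e' : K) * g / A 0 else 0

/-- The factor of `u₁`. -/
def Sg {K : Type} [Field K] (e e' : ℕ) : K := if e' ≤ e then 1 else 0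

/-- The exponent of `κ N`. -/
def rx (e e' : ℕ) : ℕ := if e' ≤ e then 1 else e'

/-- The exponent of `q`. -/
def sx (e e' : ℕ) : ℕ := if e' ≤ e then 1 else e

/-- XDP (60 lines, no hypotheses).  Dependence of the normalised parameters.  `Q = κ N / p` satisfies
`Q ^ r * q ^ s = 1`.  PROOF.  (1) `q ^ a = q' ^ b`: `Q ^ (r s' a) = q ^ (-s s' a) = q' ^ (-s s' b) =
Q' ^ (r' s b)`.  (2) If `(Q / Q') ^ M = 1` then `q ^ (s r' M) = Q ^ (-r r' M) = Q' ^ (-r r' M) =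
q' ^ (s' r M)`. -/
def XdpStmt : Prop := ∀ (K : Type) [NormedField K] (q q' Q Q' : K) (r s r' s' : ℕ), q ≠ 0 → q' ≠ 0 →
  1 ≤ r → 1 ≤ s → 1 ≤ r' → 1 ≤ s' → Q ^ r * q ^ s = 1 → Q' ^ r' * q' ^ s' = 1 →
  (Dep q q' → Dep Q Q') ∧
  ∀ M : ℕ, 1 ≤ M → (Q / Q') ^ M = 1 → q ^ (s * r' * M) = q' ^ (s' * r * M)

/-- XNF (250 lines, STRONG; uses TAT, MTH, URT, URR).  The normal form.  `‖w‖ = 1`,
`‖t‖ ^ e = 1/p`.  PROOF.  `κ = 1` if `e' ≤ e`; if `e' > e` choose `κ` with `κ ^ e' = (A 0) ^ e` (a unit in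
`Ur` by URT).  `1/q = X - u₁ + O(‖q‖)` (TAT), `X = (Σ A_n t ^ n)/t ^ e' + g/p`, `‖q‖ = 1/‖X‖`.
Case `e' ≤ e`: `N = p/q = g + Σ_n A_n w t ^ (e - e' + n) - p u₁ + O(‖q‖/p)` since
`p t ^ (n - e') = w t ^ (e - e' + n)`; this is `G + B w + Σ_(j≥1) Mu_j w t ^ j - p u₁ + O(‖q‖/p)`.
Crude estimate: all the other terms have norm `≤ ‖t‖` (`1/p ≤ ‖t‖`).  If `‖G + B w‖ = 1` then
`‖X‖ = p`, so the error is `≤ 1/p ^ 2 ≤ ‖t‖ ^ (m+1)` (`m ≤ e`), and the terms `1 ≤ j < m` vanish.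
Case `e' > e`: `t ^ e' /(q A_0) = 1 + Σ_(n≥1) (A_n/A_0) t ^ n + (g/(p A_0)) t ^ e' + O(‖t‖ ^ e')`,
`(g/(p A_0)) t ^ e' = (g/A_0) t ^ (e'-e)/w`; by hypothesis `A_n = 0` for `1 ≤ n < m` and `e' - e ≥ m`
(else `Nu_(e'-e) ≠ 0`), so it is `1 + x + O(‖t‖ ^ (m+1))`, `x = (A_m/A_0) t ^ m + [e' - e = m] (g/A_0)
t ^ m / w`, `‖x‖ ≤ ‖t‖ ^ m`.  Its `e`-th power is `1 + e x + O(‖t‖ ^ (m+1))` and equals
`p ^ e' q ^ (-e)/(A_0 ^ e w ^ e')`.  `y = w (1 + (e/e') x)`: `y ^ e' = w ^ e' (1 + e x + O(‖t‖ ^ (m+1)))`, and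
MTH gives `N` with `N ^ e' = p ^ e' q ^ (-e)/A_0 ^ e` and `‖N - y‖ ≤ ‖t‖ ^ (m+1)`. -/
def XnfStmt : Prop := ∀ U : PowerSeries ℚ, IsU U → ∀ p : ℕ, p.Prime → 5 ≤ p →
  ∀ (K : Type) [NormedField K] [CharZero K] [IsUltrametricDist K] [CompleteSpace K] [IsAlgClosed K],
  Ext p K → ∀ L : Subfield K, Unr p L → ∀ (e e' : ℕ) (A : ℕ → K) (g : K), Cd L e' A g → 1 ≤ e →
  e < p → e' < p → ∃ κ : K, Uu p κ ∧ ∀ (m : ℕ) (t w q : K), 1 ≤ m → m ≤ e →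
    (∀ m', 1 ≤ m' → m' < m → Mu e e' A m' = 0 ∧ Nu e e' A g m' = 0) →
    ‖t‖ ^ e = (p : ℝ)⁻¹ → w = (p : K) / t ^ e → At p U e' A g t q →
    ∃ N : K, (κ * N / p) ^ rx e e' * q ^ sx e e' = 1 ∧ ‖N - (Gf e e' g + Bf e e' A * w)‖ ≤ ‖t‖ ∧
      (‖Gf e e' g + Bf e e' A * w‖ = 1 →
        ‖N - (Gf e e' g + Bf e e' A * w + t ^ m * (Mu e e' A m * w + Nu e e' A g m) -
          Sg e e' * p * ((PowerSeries.coeff 1 U : ℚ) : K))‖ ≤ ‖t‖ ^ (m + 1))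

/-- XWI (200 lines, STRONG; uses URR, URT, THB, SPL, WTM, WWN, ROU).  The wild part is trivial on the
circle.  Notation `l_i = G_i + B_i w`.  PROOF.  `ζ = κ₁N₁/(κ₂N₂) = ζ_t ξ`, `ζ' = κ₃N₃/(κ₄N₄) = ζ'_t ξ'`
(SPL).  (a) `w₀ = (ζ_t κ₂ G₂ - κ₁ G₁)/(κ₁ B₁ - ζ_t κ₂ B₂)`: modulo the maximal ideal
`(κ₁ B₁ - ζ_t κ₂ B₂) w ≡ ζ_t κ₂ G₂ - κ₁ G₁`; if the factor were `≡ 0` then `(G₁, B₁)` and `(G₂, B₂)` would be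
proportional, but `‖G₁B₂ - G₂B₁‖ = 1`.  So `w₀ ∈ Ur`, `y = w - w₀`, `‖y‖ < 1`,
`κ₁ l₁(w₀) = ζ_t κ₂ l₂(w₀)`.  `l_i(w) = l_i(w₀)(1 + λ_i y)`, `λ_i = B_i/l_i(w₀) ∈ Ur`,
`‖λ_i - λ_j‖ = ‖G_iB_j - G_jB_i‖`.  So `(1 + λ₁ y) = ξ (1 + λ₂ y)(1 + O(ρ))`; `κ₃ l₃(w₀)/(κ₄ l₄(w₀)) ≡ ζ'_t`, both
in `Ur`, so `(1 + λ₃ y) = ξ' (1 + λ₄ y)(1 + O(ρ'))`, `ρ' = max ρ (1/p) < th ^ 3`.  (b) If `ξ = 1` then
`‖y‖ ≤ ρ'` and `‖ξ' - 1‖ ≤ ρ' < th`, `ξ' = 1` (ROU); the same with the pairs exchanged (the second pair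
also determines `‖y‖ = ‖ξ' - 1‖` or `≤ ρ'`).  (c) Otherwise `‖ξ - 1‖ = ‖ξ' - 1‖ = ‖y‖ ≥ th`, the same
order `p ^ k`, `ξ' = ξ ^ m`, `p ∤ m`, and `f(y) = (1 + λ₃ y)(1 + λ₂ y) ^ m - (1 + λ₄ y)(1 + λ₁ y) ^ m` has norm
`≤ ρ' < ‖y‖ ^ 3`.  Its coefficients are in `Ur` (norm `1` or `≤ 1/p < th ^ 3`), so those of `y`, `y ^ 2`,
`y ^ 3` have norm `< 1`.  Modulo the maximal ideal the logarithmic derivative of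
`(1 + λ₃ Y)(1 + λ₂ Y) ^ m / ((1 + λ₄ Y)(1 + λ₁ Y) ^ m)` vanishes modulo `Y ^ 3`:
`λ₃ ^ j + m λ₂ ^ j - λ₄ ^ j - m λ₁ ^ j ≡ 0` for `j = 1, 2, 3`, also for `j = 0`; so
`m Π_(i=2,3,4) (λ₁ - λ_i) ≡ 0`, contradiction. -/
def XwiStmt : Prop := ∀ p : ℕ, p.Prime → 7 ≤ p → ∀ (K : Type) [NormedField K] [CharZero K]
  [IsUltrametricDist K], Ext p K →
  ∀ (G₁ G₂ G₃ G₄ B₁ B₂ B₃ B₄ κ₁ κ₂ κ₃ κ₄ N₁ N₂ N₃ N₄ w : K) (ρ : ℝ), ρ < th p ^ 3 →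
  Ur p G₁ → Ur p G₂ → Ur p G₃ → Ur p G₄ → Ur p B₁ → Ur p B₂ → Ur p B₃ → Ur p B₄ →
  Uu p κ₁ → Uu p κ₂ → Uu p κ₃ → Uu p κ₄ → ‖w‖ ≤ 1 →
  ‖G₁ + B₁ * w‖ = 1 → ‖G₂ + B₂ * w‖ = 1 → ‖G₃ + B₃ * w‖ = 1 → ‖G₄ + B₄ * w‖ = 1 →
  ‖N₁ - (G₁ + B₁ * w)‖ ≤ ρ → ‖N₂ - (G₂ + B₂ * w)‖ ≤ ρ → ‖N₃ - (G₃ + B₃ * w)‖ ≤ ρ →
  ‖N₄ - (G₄ + B₄ * w)‖ ≤ ρ → Ro (κ₁ * N₁ / (κ₂ * N₂)) → Ro (κ₃ * N₃ / (κ₄ * N₄)) →
  ‖G₁ * B₂ - G₂ * B₁‖ = 1 → ‖G₁ * B₃ - G₃ * B₁‖ = 1 → ‖G₁ * B₄ - G₄ * B₁‖ = 1 →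
  ‖G₃ * B₄ - G₄ * B₃‖ = 1 → Tame p (κ₁ * N₁ / (κ₂ * N₂)) ∧ Tame p (κ₃ * N₃ / (κ₄ * N₄))

/-- XZE (120 lines; uses URR, THB, GTF).  Near a zero of the form `v`.  PROOF.  `w₀ = -Gv/Bv`,
`z = w - w₀`, `Gv + Bv w = Bv z`.  For `i ∈ {x, y, u}`: `G_i + B_i w₀ = (G_i Bv - B_i Gv)/Bv` is a unit and
`G_i + B_i w = (G_i + B_i w₀)(1 + λ_i z)`, `λ_i = B_i Bv/(G_i Bv - B_i Gv)`.  If `‖z‖ < th` the claim is
clear (`c₀ = κx (Gx + Bx w₀)/(κy (Gy + By w₀))`).  If `‖z‖ ≥ th`: GTF with `Qv = κv Nv/p`,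
`Qu = κu Nu/p`, `a = κv Bv`, `h₄ = κu (Gu + Bu w₀)`, `h = c₀`, `ζ = κx Nx/(κy Ny)`: contradiction. -/
def XzeStmt : Prop := ∀ p : ℕ, p.Prime → 11 ≤ p → ∀ (K : Type) [NormedField K] [CharZero K]
  [IsUltrametricDist K], Ext p K → ∀ Log : K → K, IsLog p Log →
  ∀ (Gv Gx Gy Gu Bv Bx By Bu κv κx κy κu Nv Nx Ny Nu' w : K) (ρ : ℝ), ρ < th p ^ 6 →
  Uu p Gv → Ur p Gx → Ur p Gy → Ur p Gu → Uu p Bv → Ur p Bx → Ur p By → Ur p Bu →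
  Uu p κv → Uu p κx → Uu p κy → Uu p κu → ‖w‖ ≤ 1 → ‖Gv + Bv * w‖ < 1 →
  ‖Nv - (Gv + Bv * w)‖ ≤ ρ → ‖Nx - (Gx + Bx * w)‖ ≤ ρ → ‖Ny - (Gy + By * w)‖ ≤ ρ →
  ‖Nu' - (Gu + Bu * w)‖ ≤ ρ → Ro (κx * Nx / (κy * Ny)) → Dep (κv * Nv / p) (κu * Nu' / p) →
  ‖Gv * Bx - Gx * Bv‖ = 1 → ‖Gv * By - Gy * Bv‖ = 1 → ‖Gv * Bu - Gu * Bv‖ = 1 →
  ‖Gx * By - Gy * Bx‖ = 1 →
  Gtr (Bx * Bv / (Gx * Bv - Bx * Gv)) (By * Bv / (Gy * Bv - By * Gv))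
    (Bu * Bv / (Gu * Bv - Bu * Gv)) →
  ‖κx * Nx / (κy * Ny) - κx * (Gx - Bx * Gv / Bv) / (κy * (Gy - By * Gv / Bv))‖ < th p

/-- The polynomial of XLO: `d₃₄ (l₂ h₁ - l₁ h₂) - d₁₂ (l₄ h₃ - l₃ h₄)` with `l_i = G_i + B_i X`,
`h_i = n_i + m_i X`, `d_ij = G_i B_j - G_j B_i` (indices `0, 1, 2, 3` for `1, 2, 3, 4`). -/
def Hx {K : Type} [Field K] (G B m n : Fin 4 → K) : K[X] :=
  C (G 2 * B 3 - G 3 * B 2) * ((C (G 1) + C (B 1) * X) * (C (n 0) + C (m 0) * X) -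
      (C (G 0) + C (B 0) * X) * (C (n 1) + C (m 1) * X)) -
    C (G 0 * B 1 - G 1 * B 0) * ((C (G 3) + C (B 3) * X) * (C (n 2) + C (m 2) * X) -
      (C (G 2) + C (B 2) * X) * (C (n 3) + C (m 3) * X))

/-- XLO (120 lines; uses URR).  Perturbations of lower order.  `l_i = G_i + B_i w`, `h_i = m_i w + n_i`,
`θ = ‖t‖`, `a < e`.  PROOF.  `x = ζ κ₁/κ₀`, `y = ζ' κ₃/κ₂` are in `Ur`, `N₀ = x N₁`, `N₂ = y N₃`.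
`(G₀ - x G₁) + (B₀ - x B₁) w = - t ^ a (h₀ - x h₁) + O(θ ^ (a+1))` and
`(G₂ - y G₃) + (B₂ - y B₃) w = - t ^ a (h₂ - y h₃) + O(θ ^ (a+1))`.  Eliminate `w`:
`R = (G₀ - x G₁)(B₂ - y B₃) - (G₂ - y G₃)(B₀ - x B₁) =
- t ^ a ((B₂ - y B₃)(h₀ - x h₁) - (B₀ - x B₁)(h₂ - y h₃)) + O(θ ^ (a+1))`.  `R ∈ Ur` has norm
`≤ θ ^ a < 1`, so `≤ 1/p = θ ^ e ≤ θ ^ (a+1)` (URR).  So the bracket has norm `≤ θ`; multiply by `l₁ l₃`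
(units) and use `x l₁ = l₀ + O(θ)`, `y l₃ = l₂ + O(θ)`, `l₃ (B₂ - y B₃) = B₂ G₃ - B₃ G₂ + O(θ)`,
`l₁ (B₀ - x B₁) = B₀ G₁ - B₁ G₀ + O(θ)`. -/
def XloStmt : Prop := ∀ p : ℕ, p.Prime → 5 ≤ p → ∀ (K : Type) [NormedField K] [CharZero K]
  [IsUltrametricDist K], Ext p K →
  ∀ (G B m n κ N : Fin 4 → K) (w t ζ ζ' : K) (a e : ℕ), 1 ≤ a → a < e → ‖t‖ ^ e = (p : ℝ)⁻¹ →
  (∀ i, Ur p (G i)) → (∀ i, Ur p (B i)) → (∀ i, ‖m i‖ ≤ 1) → (∀ i, ‖n i‖ ≤ 1) →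
  (∀ i, Uu p (κ i)) → ‖w‖ ≤ 1 → (∀ i, ‖G i + B i * w‖ = 1) →
  (∀ i, ‖N i - (G i + B i * w + t ^ a * (m i * w + n i))‖ ≤ ‖t‖ ^ (a + 1)) →
  Tame p ζ → Tame p ζ' → κ 0 * N 0 = ζ * (κ 1 * N 1) → κ 2 * N 2 = ζ' * (κ 3 * N 3) →
  ‖(Hx G B m n).eval w‖ ≤ ‖t‖

/-- XRB (150 lines, no hypotheses).  The Raynaud polynomial of a Moebius relation does not vanish
(algebra in characteristic `p`).  `l_i = G_i + B_i X`, `d_ij = G_i B_j - G_j B_i`, `U` the four products,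
`Q` the integer polynomial `((Σ x_i) ^ p - Σ x_i ^ p)/p`.  PROOF.  Suppose
`S(X ^ p) + X ^ p Q(U) = 0`.  The derivative gives `(Q(U))' = 0`.  `Σ U_i = 0` (identity) and
`∂Q/∂x_i = (Σ x) ^ (p-1) - x_i ^ (p-1)` (differentiate `p Q = ..` over `ℤ` and divide by `p`), so
`Σ U_i ^ (p-1) U_i' = 0`.  Multiply by `l₀ l₁ l₂ l₃`; with `U_i' l_j l_k = U_i (l_j' l_k + l_j l_k')` for
`U_i = c l_j l_k` and `U₀ + U₁ = d₂₃ l₀ l₁`, `U₀ + U₂ = -d₀₁ l₂ l₃`, `B₀ l₁ - B₁ l₀ = -d₀₁`,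
`B₂ l₃ - B₃ l₂ = -d₂₃` one gets
`-d₂₃ ^ p d₀₁ (l₀ l₁) ^ (p-1) + d₀₁ ^ p d₂₃ (l₂ l₃) ^ (p-1) = 0`; evaluate at the root `-G₀/B₀` of `l₀`, where
`l₂`, `l₃` do not vanish as `d₀₂, d₀₃ ≠ 0`: contradiction. -/
def XrbStmt : Prop := ∀ p : ℕ, p.Prime → 3 ≤ p → ∀ (k : Type) [Field k] [CharP k p]
  (G B : Fin 4 → k) (Q : MvPolynomial (Fin 4) ℤ),
  MvPolynomial.C (p : ℤ) * Q = (∑ i, MvPolynomial.X i) ^ p - ∑ i, MvPolynomial.X i ^ p →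
  B 0 ≠ 0 → G 0 * B 1 - G 1 * B 0 ≠ 0 → G 0 * B 2 - G 2 * B 0 ≠ 0 → G 0 * B 3 - G 3 * B 0 ≠ 0 →
  G 2 * B 3 - G 3 * B 2 ≠ 0 → ∀ (l Y : Fin 4 → k[X]), (∀ i, l i = C (G i) + C (B i) * X) →
  Y 0 = C (G 1 * B 3 - G 3 * B 1) * l 0 * l 2 → Y 1 = C (G 2 * B 1 - G 1 * B 2) * l 0 * l 3 →
  Y 2 = C (G 3 * B 0 - G 0 * B 3) * l 1 * l 2 → Y 3 = C (G 0 * B 2 - G 2 * B 0) * l 1 * l 3 →
  ∀ S : k[X], S.comp (X ^ p) + X ^ p * MvPolynomial.aeval Y Q ≠ 0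

/-- XRA (300 lines, STRONG; uses XRB, URR, URT, GNR, WTM; compare the landed row RAY of ZP3).
Raynaud's argument for a Moebius relation.  PROOF.  `F` a common exponent of `Ur` for all `G_i`, `B_i`,
`κ_i`; for `a` in `Ur` put `a' = a ^ (p ^ (F-1))`, `‖a' ^ p - a‖ ≤ 1/p`.  `x = ζ κ₁/κ₀`, `y = ζ' κ₃/κ₂`:
`N₀ = x N₁`, `N₂ = y N₃`.  With `f_i = α_i + β_i/w` and elimination of `w` as in XLO
`R(x, y) = a₀ x y + a₁ x + a₂ y + a₃ = -p ((B₂ - y B₃)(f₀ - x f₁) - (B₀ - x B₁)(f₂ - y f₃)) + O(ε/p)`,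
`a₀ = G₁B₃ - G₃B₁`, `a₁ = G₂B₁ - G₁B₂`, `a₂ = G₃B₀ - G₀B₃`, `a₃ = G₀B₂ - G₂B₀`.  Let `ζ₁`, `ζ₁'` be the tame
roots with `ζ₁ ^ p = ζ`, `ζ₁' ^ p = ζ'`, `x₁ = ζ₁ (κ₁/κ₀)'`, `y₁ = ζ₁' (κ₃/κ₂)'`,
`u = (a₀' x₁ y₁, a₁' x₁, a₂' y₁, a₃')`.  `Σ u_i ∈ Ur` and `(Σ u_i) ^ p ≡ R(x, y) ≡ 0`, so
`‖Σ u_i‖ ≤ 1/p`, `‖(Σ u_i) ^ p‖ ≤ p ^ (-2)`; `(Σ u_i) ^ p = Σ u_i ^ p + p Q(u)` and
`Σ u_i ^ p = R(x, y) + p (c₀ ζ ζ' + c₁ ζ + c₂ ζ' + c₃)` with integral constants `c_i` that depend only on the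
data.  So modulo the maximal ideal
`-((B₂ - y B₃)(f₀ - x f₁) - (B₀ - x B₁)(f₂ - y f₃)) + c₀ ζ ζ' + c₁ ζ + c₂ ζ' + c₃ + Q(u) ≡ 0`.
Let `T ^ p = w`, `l_i'(T) = G_i' + B_i' T`; `l_i'(T) ^ p ≡ l_i(w)`, so `x₁ ≡ l₀'(T)/l₁'(T)`,
`y₁ ≡ l₂'(T)/l₃'(T)` (`s ^ p ≡ s' ^ p` implies `s ≡ s'`).  Multiply the congruence by
`T ^ p (l₁'(T) l₃'(T)) ^ p ≡ w l₁(w) l₃(w)`: since `x ≡ l₀(w)/l₁(w)`, `y ≡ l₂(w)/l₃(w)`, all the terms but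
the last become a polynomial in `w = T ^ p` with integral coefficients that depend only on the data,
and the last one is `T ^ p Q(U(T))`, `U = (a₀' l₀' l₂', a₁' l₀' l₃', a₂' l₁' l₂', a₃' l₁' l₃')`.  So a
polynomial `M(T)` with integral coefficients that depend only on the data has `‖M(T)‖ < 1`.  By XRB in
the residue field of `K` (`a ↦ a'` is compatible with sums and products modulo the maximal ideal for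
elements of `Ur` with common `F`) some coefficient of `M` has norm `1`.  GNR: `T` is in one of finitely
many residue discs, so is `ζ ≡ κ₀ l₀'(T) ^ p/(κ₁ l₁'(T) ^ p)`; congruent tame roots of unity are equal
(WTM).  `M` is the product of their orders. -/
def XraStmt : Prop := ∀ p : ℕ, p.Prime → 5 ≤ p → ∀ (K : Type) [NormedField K] [CharZero K]
  [IsUltrametricDist K] [IsAlgClosed K], Ext p K →
  ∀ (G B α β κ : Fin 4 → K) (ε : ℝ), (∀ i, Ur p (G i)) → (∀ i, Ur p (B i)) → (∀ i, ‖α i‖ ≤ 1) →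
  (∀ i, ‖β i‖ ≤ 1) → (∀ i, Uu p (κ i)) → ‖B 0‖ = 1 → ‖G 0 * B 1 - G 1 * B 0‖ = 1 →
  ‖G 0 * B 2 - G 2 * B 0‖ = 1 → ‖G 0 * B 3 - G 3 * B 0‖ = 1 → ‖G 2 * B 3 - G 3 * B 2‖ = 1 → ε < 1 →
  ∃ M : ℕ, 1 ≤ M ∧ ∀ (N : Fin 4 → K) (w ζ ζ' : K), ‖w‖ = 1 → (∀ i, ‖G i + B i * w‖ = 1) →
    (∀ i, ‖N i - (G i + B i * w + p * (α i + β i / w))‖ ≤ ε * (p : ℝ)⁻¹) → Tame p ζ → Tame p ζ' →
    κ 0 * N 0 = ζ * (κ 1 * N 1) → κ 2 * N 2 = ζ' * (κ 3 * N 3) → ζ ^ M = 1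

/-- The parameter `λ` of the coordinate `i` at the zero of the form `v`. -/
def Lx {K : Type} [Field K] {n : ℕ} (e : Fin n → ℕ) (A : Fin n → ℕ → K) (g : Fin n → K)
    (v i : Fin n) : K :=
  if e i < e v then 0 else if e i = e v then A i 0 * A v 0 / (g i * A v 0 - A i 0 * g v)
    else -(A v 0 / g v)

/-- XXF (300 lines, STRONG; uses XDP, XNF, XWI, XZE, XLO, XRA, DEP, FIN, GNR, WTM, URR, THB, LOG).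
The critical circle.  `E = e b`; `l_x = Gf + Bf w`.  `‖t‖ = p ^ (-1/E) < th ^ 6` (`20 (E + 1) < p`).
PROOF.  `m` = the least `m ≥ 1`, `m < E`, with `Mu ≠ 0` or `Nu ≠ 0` for some `x ∈ {i, j, k}`, or `m = E`.
XNF for `b, i, j, k` with this `m` (for `b` all perturbations vanish): `κ_x`, `N_x`.  By XDP and DEP the
quotients `κ_b N_b/(κ_i N_i)`, `κ_j N_j/(κ_k N_k)` are roots of unity as soon as the two forms are units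
(then `‖κ N / p‖ = p`), and it is enough to bound the order of one of them by a constant depending only
on the data.  `d_xy = G_x B_y - G_y B_x` is a unit unless `x, y` are both of type `e' < E` or both
`e' > E` (hypothesis `h1` if both are of type `e' = E`).
(1) `j, k` both of type `<` or both of type `>`: the quotient is within `‖t‖` of `κ_j g_j/(κ_k g_k)` resp.
`κ_j/κ_k`: FIN.  The same for any pair of equal type below.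
(2) `‖l_v(w)‖ < 1` for some `v` in `{b, i, j, k}`; then `e v = E`, and all the other forms are units.  If
`i ≠ j` let `(x, y)` be the pair that does not contain `v` and `u` the partner of `v`; XZE (`h2`) and
FIN.  If `i = j`: `v = b`: `(x, y) = (i, k)`, `u = i`; `v = k`: `(x, y) = (b, i)`, `u = i`; `v = i`:
`(x, y) = (b, k)`, `u = b` (`Dep` is transitive and symmetric for nonzero elements which are not roots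
of unity).
(3) All forms are units.  XWI (first pair `b, i`, second pair `j, k`): both quotients are tame.  If
`m < E`: XLO (the terms `Sg p u₁` are `≤ ‖t‖ ^ (m+1)`) and `h3` (a coefficient of `Hx` of norm 1) with
GNR: `w` is in finitely many residue discs, so the tame quotient `κ_b N_b/(κ_i N_i)` is congruent to one
of finitely many elements, WTM.  If `m = E`: `t ^ E (Mu w + Nu) = p (Mu + Nu/w)`, XRA with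
`α = Mu - Sg u₁`, `β = Nu`, `ε = ‖t‖`. -/
def XxfStmt : Prop := ∀ U : PowerSeries ℚ, IsU U → ∀ p : ℕ, p.Prime → 11 ≤ p →
  ∀ (K : Type) [NormedField K] [CharZero K] [IsUltrametricDist K] [CompleteSpace K] [IsAlgClosed K],
  Ext p K → ∀ L : Subfield K, Unr p L → ∀ (n : ℕ) (e : Fin n → ℕ) (A : Fin n → ℕ → K)
  (g : Fin n → K), (∀ i, Cd L (e i) (A i) (g i)) → (∀ i, 20 * (e i + 1) < p) →
  ∀ b i j k : Fin n, b ≠ i → b ≠ j → b ≠ k → j ≠ k → i ≠ k → 1 ≤ e b → A b 0 = 1 →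
  (∀ m, 1 ≤ m → A b m = 0) →
  -- h1
  (∀ x y : Fin n, x ≠ y → e x = e b → e y = e b → ‖g x * A y 0 - g y * A x 0‖ = 1) →
  -- h2
  (∀ v x y u : Fin n, e v = e b → x ≠ v → y ≠ v → u ≠ v → Lx e A g v x ≠ Lx e A g v y →
    Gtr (Lx e A g v x) (Lx e A g v y) (Lx e A g v u)) →
  -- h3
  (∀ m : ℕ, 1 ≤ m → m < e b → ¬ (e j < e b ∧ e k < e b) → ¬ (e b < e j ∧ e b < e k) →
    (∃ x ∈ ({i, j, k} : Set (Fin n)), Mu (e b) (e x) (A x) m ≠ 0 ∨ Nu (e b) (e x) (A x) (g x) m ≠ 0) →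
    ∃ r, ‖(Hx (fun s => Gf (e b) (e (![b, i, j, k] s)) (g (![b, i, j, k] s)))
      (fun s => Bf (e b) (e (![b, i, j, k] s)) (A (![b, i, j, k] s)))
      (fun s => Mu (e b) (e (![b, i, j, k] s)) (A (![b, i, j, k] s)) m)
      (fun s => Nu (e b) (e (![b, i, j, k] s)) (A (![b, i, j, k] s)) (g (![b, i, j, k] s)) m)).coeff
        r‖ = 1) →
  ∃ M : ℕ, ∀ (t : K) (q : Fin n → K), 0 < ‖t‖ → ‖t‖ < 1 → ‖t‖ ^ e b = (p : ℝ)⁻¹ →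
    (∀ x ∈ ({b, i, j, k} : Set (Fin n)), At p U (e x) (A x) (g x) t (q x)) →
    Dep (q b) (q i) → Dep (q j) (q k) →
    Bd M (q b) (q i) ∨ Bd M (q j) (q k) ∨ (i = j ∧ Bd M (q b) (q k))

end

end Pool.Agent.ZPK
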